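import Pool.Agent.Run7.h798.Tate.Core
import Pool.Agent.Run7.h798.Tate.CharP

/-!
# Cycle class maps in characteristic `p` and cubic hypersurfaces over the prime field
-/

set_option autoImplicit false

open CategoryTheory AlgebraicGeometry MvPolynomial Pool.Agent.Y116.UV Pool.Agent.Q193.LT
  Pool.Agent.Q282.UK Pool.Agent.Q282.UZ Run7.h798.UV

universe w

namespace Run7.h798.Tate.CharP

variable {p : ℕ} [Fact p.Prime] {E : Type} [Field E]

/-- Further properties of the objects `R j X` over the prime field `k`: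

* `space`: for affine spaces the cycle class map is surjective onto the fixed vectors, and the
  eigenvalue `1` is semisimple;
* `cayley`: for elements `f_1, …, f_c` of a finitely generated `k`-algebra `B` the object
  `R j (Spec B/(f_1, …, f_c))` is a direct factor of `R (j+c) (Spec B[z_1, …, z_c]/(∑ f_l z_l))`; this is
  the splitting `M^c(W) = M^c(Z)(c)[2c] ⊕ M^c(U)(c-1)[2c-2]` for the hypersurface `W : ∑ f_l z_l = 0`
  in `Spec B × 𝔸^c`, the closed subscheme `Z : f_1 = ⋯ = f_c = 0` of `Spec B` and its complement `U`;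
* `cone`: for a nonzero cubic form `F` with projective hypersurface `V` and affine cone `C` there is a
  right exact sequence `R (j+1) V → R j V → R (j+1) C → 0` (hyperplane sections, and cones over cycles;
  `C` minus the vertex is the complement of the zero section in a line bundle on `V`). -/
structure CycleTheory.Geometric (D : CycleTheory.{w} p E) : Prop where
  space : ∀ n j : ℕ, (D.R j (affSpace (ZMod p) n)).TateSS
  cayley : ∀ (B : Type) [CommRing B] [Algebra (ZMod p) B] [Algebra.FiniteType (ZMod p) B] (c : ℕ)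
    (f : Fin c → B) (j : ℕ), ∃ (s : D.R j (zeroS (ZMod p) B f) ⟶ D.R (j + c) (cayS (ZMod p) B f))
      (r : D.R (j + c) (cayS (ZMod p) B f) ⟶ D.R j (zeroS (ZMod p) B f)), s ≫ r = 𝟙 _
  cone : ∀ (n : ℕ) (F : Pol (ZMod p) n), IsCubic F → ∀ j,
    ∃ (f : D.R (j + 1) (projHyp (ZMod p) F) ⟶ D.R j (projHyp (ZMod p) F))
      (g : D.R j (projHyp (ZMod p) F) ⟶ D.R (j + 1) (affCone (ZMod p) F)), RightExactReg f g

/-- In the dimensions `j ≥ N`, for all cubic hypersurfaces in the projective spaces over the prime
field: the image of the cycle class map is the space of fixed vectors of Frobenius, and the eigenvalue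
`1` is semisimple. -/
def CycleTheory.Cubics (D : CycleTheory.{w} p E) (N : ℕ) : Prop :=
  ∀ (n : ℕ) (F : Pol (ZMod p) n), IsCubic F → ∀ j, N ≤ j → (D.R j (projHyp (ZMod p) F)).TateSS

/-- The same for the cubic hypersurfaces given by trilinear forms `∑_l z_l f_l(x, y)` in which every
`f_l` is a sum of at most three monomials `x_i y_j`. -/
def CycleTheory.Trilinear (D : CycleTheory.{w} p E) (N : ℕ) : Prop :=
  ∀ (n : ℕ) (F : Pol (ZMod p) n), IsTrilinear F → ∀ j, N ≤ j → (D.R j (projHyp (ZMod p) F)).TateSS

lemma cubicClo {D : CycleTheory.{w} p E} (h : D.Geometric) :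
    CubicClo (K := ZMod p) fun j X => (FT True X → (D.R j X).TateSS) where
  iso hX e j h _ := by
    obtain ⟨e⟩ := D.iso hX e j
    exact ss_retract e.inv e.hom e.inv_hom_id (h hX)
  space n j _ := h.space n j
  cayley B _ _ _ c f j hW _ := by
    obtain ⟨s, r, hsr⟩ := h.cayley B c f j
    exact ss_retract s r hsr (hW (ft_aff True))
  cone n F _ hF j hV _ := by
    obtain ⟨f, g, hfg⟩ := h.cone n F hF j
    have := D.fin _ (ft_projHyp (ZMod p) F) j
    exact ss_right hfg (hV (ft_projHyp (ZMod p) F))

lemma all_k (D : CycleTheory.{w} p E) (h : D.All) (X : Sch (ZMod p)) (hX : FT True X) :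
    D.TateSS X := by
  refine tateSS_of_tate D (fun X hX => h (ZMod p) ?_ X hX) _ hX
  have h1 : ∀ a : Algebra (ZMod p) (ZMod p),
      (⊤ : @IntermediateField (ZMod p) (ZMod p) _ _ a).FG := by
    intro a
    have h2 : a = Algebra.id (ZMod p) := Subsingleton.elim _ _
    subst h2
    have h2 : (⊤ : IntermediateField (ZMod p) (ZMod p)) = ⊥ := Subsingleton.elim _ _
    rw [h2]
    exact IntermediateField.fg_bot
  exact h1 _

theorem systems_of_trilinear (D : CycleTheory.{w} p E) (h : D.Geometric) (N : ℕ)
    (h3 : D.Trilinear N) : D.Systems N := fun a b c S hS j hj =>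
  (cubicClo h).sys N (fun n F hF j hj _ => h3 n F hF j hj) a b c S hS j hj (ft_aff True)

theorem iff_cubics (D : CycleTheory.{w} p E) (h : D.Geometric) (N : ℕ) :
    (D.All ↔ D.Cubics N) ∧ (D.All ↔ D.Trilinear N) := by
  have h1 : D.All → D.Cubics N := fun h1 n F _ j _ => all_k D h1 _ (ft_projHyp (ZMod p) F) j
  have h2 : D.Cubics N → D.Trilinear N := fun h2 n F hF j hj => h2 n F hF.hom j hj
  have h3 : D.Trilinear N → D.All := fun h3 => (iff_systems D N).mpr (systems_of_trilinear D h N h3)
  exact ⟨⟨h1, fun h => h3 (h2 h)⟩, ⟨fun h => h2 (h1 h), h3⟩⟩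

end Run7.h798.Tate.CharP
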