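import Pool.Agent.Run7.h798.Tate.Quo
import Pool.Agent.Run7.h798.UV.Rat
import Mathlib.NumberTheory.NumberField.Basic
import Mathlib.CategoryTheory.Retract

/-!
# Motives for absolute Hodge cycles and cubic hypersurfaces over `ℚ`
-/

set_option autoImplicit false

open CategoryTheory AlgebraicGeometry MvPolynomial Pool.Agent.Y116.UV Pool.Agent.Q193.LT
  Pool.Agent.Q282.UK Pool.Agent.Q282.UZ Run7.h798.UV

namespace Run7.h798.Tate.AH

/-- The object `A` is a direct factor of the object `B`. -/
def Factor {C : Type 1} [Category.{0} C] (A B : C) : Prop := Nonempty (Retract A B)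

lemma Factor.refl {C : Type 1} [Category.{0} C] (A : C) : Factor A A := ⟨Retract.refl A⟩

lemma Factor.trans {C : Type 1} [Category.{0} C] {A B B' : C} (h : Factor A B) (h' : Factor B B') :
    Factor A B' := by
  obtain ⟨s⟩ := h
  obtain ⟨t⟩ := h'
  exact ⟨s.trans t⟩

/-- **Motives for absolute Hodge cycles over `ℚ` with coefficients.** `Mot E` is the category of motives for
absolute Hodge cycles over `ℚ` with coefficients in the number field `E`. For a scheme `X` over `ℚ` the object
`h E r j X` is the motive of weight `r` with coefficients in `E` (obtained from `ℚ` by extension of the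
coefficients) which is given by the part of lowest weight `r - 2j` of the homology with closed supports
`H_{2j-r}(X)`, twisted by `-j`; it is the quotient of the motive `h^i(Y)(d-j)`, `i = 2(d-j) + r`, of a smooth
projective scheme `Y` of dimension `d` by the part of lowest weight of `H_{2j-r}(Z)`, for a proper surjection
of `Y` onto a compactification of `X` and a suitable `Z`. For `X` smooth projective of dimension `d` it is
`h^i(X)(d-j)`. Known properties (the categories are semisimple, so that subobjects and quotients are direct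
factors):

* `iso`, `opened`: isomorphic schemes have isomorphic homology, and the restriction to open subschemes is
  surjective on the part of lowest weight;
* `torus`: for affine `X` the motive `h r j X` is a direct factor of `h r (j+1) (X × 𝔾_m)`;
* `cayley`: for elements `f_1, …, f_c` of a finitely generated algebra `B` the motive
  `h r j (Spec B/(f_1, …, f_c))` is a direct factor of `h r (j+c) (Spec B[z_1, …, z_c]/(∑ f_l z_l))`;
* `cone`: for a cubic form in at least two variables `h r (j+1)` of the affine cone is a quotient of `h r j`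
  of the projective hypersurface;
* `space`: the homology of an affine space occurs in the homology, of large dimension, of a union of three
  hyperplanes (a trilinear cubic hypersurface);
* `affine`: for every smooth projective `X` there is an affine scheme which is a torsor under a vector
  bundle of rank `e` on `X` (Jouanolou);
* `cover`: every `X` has a compactification which is dominated by a smooth projective scheme `Y`
  (Hironaka), and `h r j Y → h r j X` is surjective (by weights). -/
structure Theory where
  /-- the motives with coefficients in `E` -/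
  Mot : ∀ (E : Type) [Field E] [NumberField E], Type 1
  /-- they form a category -/
  [cat : ∀ (E : Type) [Field E] [NumberField E], Category.{0} (Mot E)]
  /-- the part of lowest weight of the homology of a scheme over `ℚ` -/
  h : ∀ (E : Type) [Field E] [NumberField E], ℤ → ℕ → Sch ℚ → Mot E
  iso : ∀ (E : Type) [Field E] [NumberField E] {X Y : Sch ℚ}, FT True X → Nonempty (X ≅ Y) →
    ∀ r j, Factor (h E r j Y) (h E r j X)
  opened : ∀ (E : Type) [Field E] [NumberField E] {Z X U : Sch ℚ} (f : Z ⟶ X) (u : U ⟶ X),
    FT True X → IsTriple f u → ∀ r j, Factor (h E r j U) (h E r j X)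
  torus : ∀ (E : Type) [Field E] [NumberField E] (B : Type) [CommRing B] [Algebra ℚ B]
    [Algebra.FiniteType ℚ B] (r : ℤ) (j : ℕ),
    Factor (h E r j (aff ℚ B)) (h E r (j + 1) (aff ℚ (LaurentPolynomial B)))
  cayley : ∀ (E : Type) [Field E] [NumberField E] (B : Type) [CommRing B] [Algebra ℚ B]
    [Algebra.FiniteType ℚ B] (c : ℕ) (f : Fin c → B) (r : ℤ) (j : ℕ),
    Factor (h E r j (zeroS ℚ B f)) (h E r (j + c) (cayS ℚ B f))
  cone : ∀ (E : Type) [Field E] [NumberField E] (n : ℕ) (F : Pol ℚ n), 1 ≤ n → IsCubic F → ∀ r j,
    Factor (h E r (j + 1) (affCone ℚ F)) (h E r j (projHyp ℚ F))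
  space : ∀ (E : Type) [Field E] [NumberField E] (N n : ℕ) (r : ℤ) (j : ℕ),
    ∃ (m : ℕ) (F : Pol ℚ m) (j' : ℕ), IsTrilinear F ∧ N ≤ j' ∧
      Factor (h E r j (affSpace ℚ n)) (h E r j' (projHyp ℚ F))
  affine : ∀ (E : Type) [Field E] [NumberField E] (X : Sch ℚ), SmoothProjective X →
    ∃ (A : Type) (_ : CommRing A) (_ : Algebra ℚ A) (_ : Algebra.FiniteType ℚ A) (e : ℕ), ∀ r j,
      Factor (h E r j X) (h E r (j + e) (aff ℚ A))
  cover : ∀ (E : Type) [Field E] [NumberField E] (X : Sch ℚ), FT True X →
    ∃ Y : Sch ℚ, SmoothProjective Y ∧ ∀ r j, Factor (h E r j X) (h E r j Y)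

attribute [instance] Theory.cat

variable (D : Theory)

/-- `M` is a direct factor of `h^i(X)(m)`, `i - 2m = r`, for a smooth projective scheme `X` over `ℚ` (all
twists occur, since `X` can be replaced by `X × ℙ^n`). -/
def Theory.Smooth {E : Type} [Field E] [NumberField E] (r : ℤ) (M : D.Mot E) : Prop :=
  ∃ (X : Sch ℚ) (j : ℕ), SmoothProjective X ∧ Factor M (D.h E r j X)

/-- `M` is a direct factor of the motive given by the part of lowest weight of the homology `H_{2j-r}`, for
some `j ≥ N`, of a cubic hypersurface over `ℚ` given by a trilinear form `∑_l z_l f_l(x, y)` in which every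
`f_l` is a sum of at most three monomials `x_i y_j`. -/
def Theory.Cubic (N : ℕ) {E : Type} [Field E] [NumberField E] (r : ℤ) (M : D.Mot E) : Prop :=
  ∃ (n : ℕ) (F : Pol ℚ n) (j : ℕ), IsTrilinear F ∧ N ≤ j ∧ Factor M (D.h E r j (projHyp ℚ F))

lemma dominated {E : Type} [Field E] [NumberField E] (N : ℕ) (r : ℤ) (A : Type) [CommRing A]
    [Algebra ℚ A] [Algebra.FiniteType ℚ A] (j : ℕ) :
    ∃ (m : ℕ) (F : Pol ℚ m) (j' : ℕ), IsTrilinear F ∧ N ≤ j' ∧
      Factor (D.h E r j (aff ℚ A)) (D.h E r j' (projHyp ℚ F)) := by
  have h0 : QClo (K := ℚ) fun j X => ∃ (m : ℕ) (F : Pol ℚ m) (j' : ℕ), IsTrilinear F ∧ N ≤ j' ∧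
      Factor (D.h E r j X) (D.h E r j' (projHyp ℚ F)) :=
    { iso := by
        rintro X Y hX e j ⟨m, F, j', hF, hj, h⟩
        exact ⟨m, F, j', hF, hj, (D.iso E hX e r j).trans h⟩
      space := fun n j => D.space E N n r j
      cayley := by
        rintro B _ _ _ c f j ⟨m, F, j', hF, hj, h⟩
        exact ⟨m, F, j', hF, hj, (D.cayley E B c f r j).trans h⟩
      cone := by
        rintro n F' hn hF' j ⟨m, F, j', hF, hj, h⟩
        exact ⟨m, F, j', hF, hj, (D.cone E n F' hn hF' r j).trans h⟩
      opened := by
        rintro Z X U f u hX ht j ⟨m, F, j', hF, hj, h⟩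
        exact ⟨m, F, j', hF, hj, (D.opened E f u hX ht r j).trans h⟩
      torus := by
        rintro B _ _ _ j ⟨m, F, j', hF, hj, h⟩
        exact ⟨m, F, j', hF, hj, (D.torus E B r j).trans h⟩ }
  exact h0.all short_rat N (fun n F hF j hj => ⟨n, F, j, hF, hj, Factor.refl _⟩) A j

theorem motive_iff {E : Type} [Field E] [NumberField E] (N : ℕ) (r : ℤ) (M : D.Mot E) :
    D.Smooth r M ↔ D.Cubic N r M := by
  constructor
  · rintro ⟨X, j, hX, hM⟩
    obtain ⟨A, _, _, _, e, hA⟩ := D.affine E X hX
    obtain ⟨m, F, j', hF, hj, h⟩ := dominated D (E := E) N r A (j + e)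
    exact ⟨m, F, j', hF, hj, hM.trans ((hA r j).trans h)⟩
  · rintro ⟨n, F, j, hF, _, hM⟩
    obtain ⟨Y, hY, hq⟩ := D.cover E _ (ft_projHyp ℚ F)
    exact ⟨Y, j, hY, hM.trans (hq r j)⟩

/-- The algebraic cuspidal automorphic representations `Π` of the groups `GL_n(𝔸)`: `wt Π` is the weight
`-w - n + 1`, and `attached Π E M` means that `ℚ(Π) ⊆ E`, that the motive `M` with coefficients in `E` is
absolutely irreducible, pure and of rank `n` and that the conditions (1) and (2) of the conjecture hold for
`Π` and `M`. By the definition of the motives for absolute Hodge cycles, such an `M`, which is irreducible of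
weight `wt Π`, is a direct factor of `h^i(X)(m)`, `i - 2m = wt Π`, for a smooth projective `X` (`smooth`). -/
structure Cuspidal where
  /-- the set of the algebraic cuspidal representations -/
  Rep : Type
  /-- the weight of the motive -/
  wt : Rep → ℤ
  /-- `M` is the motive of `Π` -/
  attached : Rep → ∀ (E : Type) [Field E] [NumberField E], D.Mot E → Prop
  smooth : ∀ (P : Rep) (E : Type) [Field E] [NumberField E] (M : D.Mot E), attached P E M →
    D.Smooth (wt P) M

variable {D} (A : Cuspidal D)

/-- **Clozel's conjecture.** -/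
def Clozel : Prop :=
  ∀ P : A.Rep, ∃ (E : Type) (_ : Field E) (_ : NumberField E) (M : D.Mot E), A.attached P E M

/-- Every `Π` has a motive which is a direct factor of the motive of such a cubic hypersurface. -/
def ClozelCubic (N : ℕ) : Prop :=
  ∀ P : A.Rep, ∃ (E : Type) (_ : Field E) (_ : NumberField E) (M : D.Mot E), A.attached P E M ∧
    D.Cubic N (A.wt P) M

theorem clozel_iff (N : ℕ) : Clozel A ↔ ClozelCubic A N := by
  refine forall_congr' fun P => exists_congr fun E => exists_congr fun _ => exists_congr fun _ =>
    exists_congr fun M => ?_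
  exact ⟨fun h => ⟨h, (motive_iff D N (A.wt P) M).mp (A.smooth P E M h)⟩, fun h => h.1⟩

end Run7.h798.Tate.AH
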