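import Pool.Agent.Run7.h798.Tate.FM

/-!
# Representations of `Gal(K̄/K)`, their induced representations of `Gal(ℚ̄/ℚ)` and cubic hypersurfaces
-/

set_option autoImplicit false

open CategoryTheory AlgebraicGeometry MvPolynomial Pool.Agent.Y116.UV Pool.Agent.Q193.LT
  Pool.Agent.Q282.UK Pool.Agent.Q282.UZ Run7.h798.UV

namespace Run7.h798.Tate.Gal

variable {E : Type} [Field E] {D : Theory E}

/-- **Induction** from `Gal(K̄/K)` to `Gal(ℚ̄/ℚ)` (known properties):

* `mono`: induction is exact, so it respects subquotients;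
* `unit`: `V` is a subrepresentation of the restriction of the induced representation `Ind V`;
* `down`: a smooth projective scheme `X` over `K` is also a smooth projective scheme `Y` over `ℚ`, and the
  representations for `Y` are induced from those for `X`. -/
structure Induction (L : Geometry D) (K : Type) [Field K] [NumberField K] where
  /-- the induced representation -/
  ind : GRep E (AbsGal K) → GRep E (AbsGal ℚ)
  mono : ∀ {V W : GRep E (AbsGal K)}, Subquotient V W → Subquotient (ind V) (ind W)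
  unit : ∀ V : GRep E (AbsGal K), Subquotient V ((ind V).res (L.φ K))
  down : ∀ X : Sch K, SmoothProjective X → ∃ Y : Sch ℚ, SmoothProjective Y ∧
    ∀ r j, Subquotient (ind (D.H K r j X)) (D.h r j Y)

variable (L : Geometry D)

/-- `V` arises from étale cohomology: it is isomorphic to a subquotient of `H^i(X̄, E)(m)`, `i - 2m = r`, for
a smooth projective scheme `X` over `K` (here `H K r j X = H^i(X̄, E)(d-j)`, `i = 2(d-j) + r`; all twists
occur, since `X` can be replaced by `X × ℙ^n`). -/
def Arises (D : Theory E) (K : Type) [Field K] [NumberField K] (r : ℤ) (V : GRep E (AbsGal K)) : Prop :=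
  ∃ (X : Sch K) (j : ℕ), SmoothProjective X ∧ Subquotient V (D.H K r j X)

/-- `V` is a subquotient of the restriction to `Gal(K̄/K)` of the part of lowest weight of the homology
`H_{2j-r}` (twisted by `-j`), for some `j ≥ N`, of a cubic hypersurface over `ℚ` given by a trilinear form
`∑_l z_l f_l(x, y)` in which every `f_l` is a sum of at most three monomials `x_i y_j`. -/
def InCubic (N : ℕ) (K : Type) [Field K] [NumberField K] (r : ℤ) (V : GRep E (AbsGal K)) : Prop :=
  ∃ (n : ℕ) (F : Pol ℚ n) (j : ℕ), IsTrilinear F ∧ N ≤ j ∧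
    Subquotient V ((D.h r j (projHyp ℚ F)).res (L.φ K))

/-- The representation `W` of `Gal(ℚ̄/ℚ)` is a subquotient of the part of lowest weight of the homology
`H_{2j-r}` (twisted by `-j`), for some `j ≥ N`, of such a cubic hypersurface over `ℚ`. -/
def InCubicQ (D : Theory E) (N : ℕ) (r : ℤ) (W : GRep E (AbsGal ℚ)) : Prop :=
  ∃ (n : ℕ) (F : Pol ℚ n) (j : ℕ), IsTrilinear F ∧ N ≤ j ∧ Subquotient W (D.h r j (projHyp ℚ F))

include L in
lemma inCubicQ_of_smooth (N : ℕ) (r : ℤ) (Y : Sch ℚ) (hY : SmoothProjective Y) (j : ℕ)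
    (W : GRep E (AbsGal ℚ)) (h : Subquotient W (D.h r j Y)) : InCubicQ D N r W := by
  obtain ⟨A, _, _, _, e, hA⟩ := D.affine Y hY
  obtain ⟨m, F, j', hF, hj, h'⟩ := dominated L N r A (j + e)
  exact ⟨m, F, j', hF, hj, h.trans (h'.comp (hA r j)).sub⟩

theorem bianchi {K : Type} [Field K] [NumberField K] (I : Induction L K) (N : ℕ) (r : ℤ)
    (V : GRep E (AbsGal K)) :
    [Arises D K r V, InCubic L N K r V, InCubicQ D N r (I.ind V)].TFAE := by
  tfae_have 1 → 3 := by
    rintro ⟨X, j, hX, hV⟩
    obtain ⟨Y, hY, hd⟩ := I.down X hX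
    exact inCubicQ_of_smooth L N r Y hY j _ ((I.mono hV).trans (hd r j))
  tfae_have 3 → 2 := by
    rintro ⟨n, F, j, hF, hj, h⟩
    exact ⟨n, F, j, hF, hj, (I.unit V).trans (h.res (L.φ K))⟩
  tfae_have 2 → 1 := by
    rintro ⟨n, F, j, hF, _, hV⟩
    obtain ⟨Y, hY, hq⟩ := D.cover _ (ft_projHyp ℚ F)
    obtain ⟨X, hX, hb⟩ := L.base K Y hY
    exact ⟨X, j, hX, hV.trans (((hq r j).sub.res (L.φ K)).trans (hb r j).sub)⟩
  tfae_finish

end Run7.h798.Tate.Gal
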