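import Pool.Agent.Run7.h798.UV.Rat
import Pool.Agent.Run7.h798.UV.Geom
import Pool.Agent.Q193.LT.Pair

/-!
# Cycle class maps in characteristic zero and bilinear equations over `ℚ`

For a field `K` of characteristic zero, `j ≥ 0` and a scheme `X` over `K` the object `T K j X` is
the cycle class map `CH_j(X) ⊗ ℚ_ℓ → H_{2j}(X̄, ℚ_ℓ(j))^{G_K}`, an object of the category of linear maps
(`Arrow`). The structure `CycleTheory` collects the known properties which are used.
-/

set_option autoImplicit false

open CategoryTheory AlgebraicGeometry Pool.Agent.Y116.UV Pool.Agent.Q193.LT Pool.Agent.Q282.UK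
  Pool.Agent.Q282.UZ Run7.h798.UV

universe w

namespace Run7.h798.Tate.CharZero

/-- `K` is a finitely generated field. -/
def FinGenField (K : Type) [Field K] [CharZero K] : Prop :=
  (⊤ : IntermediateField ℚ K).FG

/-- The sequences `A → B → C → 0` of the sources and of the targets of the linear maps `A`, `B`, `C` are
exact. -/
def RightExact {E : Type} [Field E] {A B C : Arrow (ModuleCat.{w} E)} (f : A ⟶ B) (g : B ⟶ C) : Prop :=
  (ExactAt f.left g.left ∧ Function.Surjective g.left.hom) ∧
    (ExactAt f.right g.right ∧ Function.Surjective g.right.hom)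

/-- **Cycle class maps** `T K j X : CH_j(X) ⊗ E → H_{2j}(X̄, E(j))^{G_K}` over the fields `K` of
characteristic zero, with the following properties (Jannsen):

* `iso`: they depend only on the isomorphism class of `X`;
* `exact`: for a closed subscheme `Z` of a separated scheme `X` of finite type over `ℚ` and its
  complement `U` the sequence `T j Z → T j X → T j U → 0` is exact (on homology: by weights and by
  semisimplicity);
* `torus`: for affine `X` over `ℚ` the object `T j X` is a direct factor of `T (j+1) (X × 𝔾_m)` (inverse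
  image under the projection and the unit section);
* `generic`: if `K` is finitely generated and `X` is separated of finite type over `K`, let `Y` be a
  model of `X` over an integral scheme with function field `K`, of dimension `r` over `ℚ`; then the
  restriction to the generic fibre `T (j+r) Y → T j X` is surjective on homology. -/
structure CycleTheory (E : Type) [Field E] where
  /-- the cycle class maps -/
  T : ∀ (K : Type) [Field K] [CharZero K], ℕ → Sch K → Arrow (ModuleCat.{w} E)
  iso : ∀ {X Y : Sch ℚ}, FT True X → Nonempty (X ≅ Y) → ∀ j, Nonempty (T ℚ j X ≅ T ℚ j Y)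
  exact : ∀ {Z X U : Sch ℚ} (i : Z ⟶ X) (u : U ⟶ X), FT True X → IsTriple i u →
    ∀ j, ∃ (f : T ℚ j Z ⟶ T ℚ j X) (g : T ℚ j X ⟶ T ℚ j U), RightExact f g
  torus : ∀ (B : Type) [CommRing B] [Algebra ℚ B] [Algebra.FiniteType ℚ B] (j : ℕ),
    ∃ (s : T ℚ j (aff ℚ B) ⟶ T ℚ (j + 1) (aff ℚ (LaurentPolynomial B)))
      (r : T ℚ (j + 1) (aff ℚ (LaurentPolynomial B)) ⟶ T ℚ j (aff ℚ B)), s ≫ r = 𝟙 _
  generic : ∀ (K : Type) [Field K] [CharZero K], FinGenField K → ∀ X : Sch K, FT True X →
    ∃ (Y : Sch ℚ) (r : ℕ), FT True Y ∧ ∀ j, ∃ q : T ℚ (j + r) Y ⟶ T K j X,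
      Function.Surjective q.right.hom

variable {E : Type} [Field E]

/-- **The Tate conjecture for `X`**: all cycle class maps
`CH_j(X) ⊗ E → H_{2j}(X̄, E(j))^{G_K}` are surjective. -/
def CycleTheory.Tate (D : CycleTheory.{w} E) (K : Type) [Field K] [CharZero K] (X : Sch K) : Prop :=
  ∀ j, Function.Surjective (D.T K j X).hom.hom

/-- **The Tate conjecture** for all schemes over all finitely generated fields of characteristic zero. -/
def CycleTheory.All (D : CycleTheory.{w} E) : Prop :=
  ∀ (K : Type) [Field K] [CharZero K], FinGenField K → ∀ X : Sch K, FT True X → D.Tate K X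

/-- The cycle class maps are surjective in the indices `j ≥ N` for the systems of bilinear equations
over `ℚ` with at most three terms in every equation. -/
def CycleTheory.Systems (D : CycleTheory.{w} E) (N : ℕ) : Prop :=
  ∀ (a b c : ℕ) (S : Fin c → Finset (Fin a × Fin b)), (∀ l, (S l).card ≤ 3) →
    ∀ j, N ≤ j → Function.Surjective (D.T ℚ j (sysS ℚ S)).hom.hom

lemma surj_of {A B : Arrow (ModuleCat.{w} E)} (q : A ⟶ B) (hq : Function.Surjective q.right.hom)
    (hA : Function.Surjective A.hom.hom) : Function.Surjective B.hom.hom := by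
  intro y
  obtain ⟨x, rfl⟩ := hq y
  obtain ⟨a, rfl⟩ := hA x
  exact ⟨q.left.hom a, congrArg (fun f => f.hom a) q.w⟩

lemma surj_split {A B : Arrow (ModuleCat.{w} E)} (s : A ⟶ B) (r : B ⟶ A) (h : s ≫ r = 𝟙 A)
    (hB : Function.Surjective B.hom.hom) : Function.Surjective A.hom.hom :=
  surj_of r (fun y => ⟨s.right.hom y, congrArg (fun f : A ⟶ A => f.right.hom y) h⟩) hB

lemma surj_mid {A B C : Arrow (ModuleCat.{w} E)} {f : A ⟶ B} {g : B ⟶ C} (h : RightExact f g)
    (hA : Function.Surjective A.hom.hom) (hC : Function.Surjective C.hom.hom) :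
    Function.Surjective B.hom.hom := by
  intro y
  obtain ⟨c, hc⟩ := hC (g.right.hom y)
  obtain ⟨b, rfl⟩ := h.1.2 c
  have h1 : C.hom.hom (g.left.hom b) = g.right.hom (B.hom.hom b) :=
    congrArg (fun f => f.hom b) g.w
  have h2 : g.right.hom (y - B.hom.hom b) = 0 := by
    rw [map_sub, ← h1, hc, sub_self]
  obtain ⟨z, hz⟩ := (h.2.1 _).mp h2
  obtain ⟨a, rfl⟩ := hA z
  refine ⟨f.left.hom a + b, ?_⟩
  have h3 : B.hom.hom (f.left.hom a) = f.right.hom (A.hom.hom a) :=
    congrArg (fun f => f.hom a) f.w
  rw [map_add, h3, hz, sub_add_cancel]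

/-- The maps of index `j = -i` are surjective. -/
def CycleTheory.Surj (D : CycleTheory.{w} E) (i : ℤ) (X : Sch ℚ) : Prop :=
  ∀ j : ℕ, (j : ℤ) = -i → Function.Surjective (D.T ℚ j X).hom.hom

lemma gclo (D : CycleTheory.{w} E) : GClo True D.Surj where
  iso hX e i h j hj := by
    obtain ⟨e⟩ := D.iso hX e j
    exact surj_split e.inv e.hom e.inv_hom_id (h j hj)
  total i u hX ht n hZ hU j hj := by
    obtain ⟨f, g, h⟩ := D.exact i u hX ht j
    exact surj_mid h (hZ j hj) (hU j hj)
  opened i u hX ht n _ hX' j hj := by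
    obtain ⟨f, g, h⟩ := D.exact i u hX ht j
    exact surj_of g h.2.2 (hX' j hj)
  torus B _ _ _ n h j hj := by
    obtain ⟨s, r, hsr⟩ := D.torus B j
    exact surj_split s r hsr (h (j + 1) (by push_cast; omega))

/-- The maps of index `j` are surjective for all `j` and all finitely generated fields if they are
surjective in the indices `j ≥ N` for the three-term bilinear systems over `ℚ`. -/
theorem iff_systems (D : CycleTheory.{w} E) (N : ℕ) : D.All ↔ D.Systems N := by
  have h0 := graded_iff short_rat (gclo D) (-N)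
  constructor
  · intro h a b c S _ j _
    refine h ℚ ?_ _ (ft_aff True) j
    have h1 : ∀ a : Algebra ℚ ℚ, (⊤ : @IntermediateField ℚ ℚ _ _ a).FG := by
      intro a
      obtain rfl : a = Algebra.id ℚ := Subsingleton.elim _ _
      have h2 : (⊤ : IntermediateField ℚ ℚ) = ⊥ := Subsingleton.elim _ _
      rw [h2]
      exact IntermediateField.fg_bot
    exact h1 _
  · intro h K _ _ hK X hX j
    obtain ⟨Y, r, hY, hq⟩ := D.generic K hK X hX
    obtain ⟨q, hq⟩ := hq j
    refine surj_of q hq (h0.mpr ?_ Y hY (-((j + r : ℕ) : ℤ)) (j + r) (by ring))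
    intro a b c S hS i hi j' hj'
    exact h a b c S hS j' (by omega)

end Run7.h798.Tate.CharZero
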