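import Pool.Agent.Run7.h798.Tate.Frob
import Mathlib.RingTheory.Radical.Basic
import Mathlib.RingTheory.Polynomial.UniqueFactorization
import Mathlib.AlgebraicGeometry.Morphisms.Proper

/-!
# Semisimplicity of Frobenius for complete varieties and cubic hypersurfaces over the prime field
-/

set_option autoImplicit false

open CategoryTheory AlgebraicGeometry MvPolynomial Pool.Agent.Y116.UV Pool.Agent.Q193.LT
  Pool.Agent.Q282.UK Pool.Agent.Q282.UZ Run7.h798.UV

namespace Run7.h798.Tate.Frob

variable {E : Type} [Field E]

/-- There is an injective linear map `A → B` which commutes with `F`. -/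
def Into (A B : FrobMod E) : Prop :=
  ∃ s : A.V →ₗ[E] B.V, Function.Injective s ∧ ∀ v, s (A.F v) = B.F (s v)

/-- `A` is a quotient of a subspace of `B`. -/
def Subquotient (A B : FrobMod E) : Prop := ∃ S : FrobMod E, Into S B ∧ Onto S A

/-- The direct sum of finitely many spaces with endomorphisms. -/
def FrobMod.sum {n : ℕ} (G : Fin n → FrobMod E) : FrobMod E where
  V := ∀ k, (G k).V
  F := LinearMap.pi fun k => (G k).F ∘ₗ LinearMap.proj k

/-- There is a pairing `A × B → E` without kernel on the side of `A` such that `⟨F x, F y⟩ = c ⟨x, y⟩`,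
and `F` is an automorphism of `B`: the space `A` is a subspace of the dual space of `B`, up to a twist. -/
def DualSub (A B : FrobMod E) : Prop :=
  ∃ (β : A.V →ₗ[E] B.V →ₗ[E] E) (c : E), Function.Injective β ∧ Function.Injective B.F ∧
    ∀ x y, β (A.F x) (B.F y) = c * β x y

lemma aeval_comm {A B : FrobMod E} (q : A.V →ₗ[E] B.V) (hc : ∀ v, q (A.F v) = B.F (q v))
    (P : Polynomial E) (v : A.V) : q (Polynomial.aeval A.F P v) = Polynomial.aeval B.F P (q v) := by
  induction P using Polynomial.induction_on' with
  | add P Q hP hQ => simp only [map_add, LinearMap.add_apply, hP, hQ]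
  | monomial n a =>
    simp only [Polynomial.aeval_monomial, Module.algebraMap_end_eq_smul_id,
      LinearMap.smul_apply, map_smul, Module.End.mul_apply, LinearMap.id_coe, id]
    congr 1
    induction n generalizing v with
    | zero => simp
    | succ n ih =>
      rw [pow_succ, pow_succ, Module.End.mul_apply, Module.End.mul_apply, ih, hc]

lemma Into.ss {A B : FrobMod E} (h : Into A B) (hB : B.Semisimple) : A.Semisimple := by
  obtain ⟨s, hs, hc⟩ := h
  refine Module.End.isSemisimple_of_squarefree_aeval_eq_zero
    (Module.End.IsSemisimple.minpoly_squarefree hB) ?_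
  ext v
  apply hs
  rw [aeval_comm s hc, minpoly.aeval]
  simp

lemma Subquotient.ss {A B : FrobMod E} (h : Subquotient A B) (hB : B.Semisimple) : A.Semisimple := by
  obtain ⟨S, h1, h2⟩ := h
  exact h2.ss (h1.ss hB)

lemma sum_ss {n : ℕ} {G : Fin n → FrobMod E} (h : ∀ k, (G k).Semisimple) :
    (FrobMod.sum G).Semisimple := by
  classical
  let P : Fin n → Polynomial E := fun k => minpoly E (G k).F
  have hP : ∀ k, Squarefree (P k) := fun k => Module.End.IsSemisimple.minpoly_squarefree (h k)
  have h0 : ∏ k, P k ≠ 0 := Finset.prod_ne_zero_iff.mpr fun k _ => (hP k).ne_zero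
  have h1 : ∀ k, P k ∣ UniqueFactorizationMonoid.radical (∏ k, P k) := fun k =>
    ((hP k).isRadical.dvd_radical (hP k).ne_zero).trans
      (UniqueFactorizationMonoid.radical_dvd_radical (Finset.dvd_prod_of_mem P (Finset.mem_univ k)) h0)
  refine Module.End.isSemisimple_of_squarefree_aeval_eq_zero
    (p := UniqueFactorizationMonoid.radical (∏ k, P k)) (UniqueFactorizationMonoid.squarefree_radical) ?_
  apply LinearMap.ext
  intro v
  funext k
  have h2 : ∀ w : (FrobMod.sum G).V, (LinearMap.proj k : (∀ k, (G k).V) →ₗ[E] (G k).V)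
      ((FrobMod.sum G).F w) = (G k).F ((LinearMap.proj k : (∀ k, (G k).V) →ₗ[E] (G k).V) w) :=
    fun w => rfl
  have h3 := aeval_comm (A := FrobMod.sum G) (B := G k) (LinearMap.proj k) h2
    (UniqueFactorizationMonoid.radical (∏ k, P k)) v
  obtain ⟨Q, hQ⟩ := h1 k
  have h4 : Polynomial.aeval (G k).F (UniqueFactorizationMonoid.radical (∏ k, P k)) = 0 := by
    rw [hQ, map_mul, minpoly.aeval, zero_mul]
  rw [h4] at h3
  exact h3

lemma inv_ss {V : Type} [AddCommGroup V] [Module E V] [FiniteDimensional E V] {F G : Module.End E V}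
    (h : F * G = 1) (hF : F.IsSemisimple) : G.IsSemisimple := by
  have h' : G * F = 1 := mul_eq_one_comm.mp h
  have hG : Function.Injective G := fun x y hxy => by
    have := congrArg F hxy
    rw [← Module.End.mul_apply, ← Module.End.mul_apply, h] at this
    simpa using this
  have hF' : Function.Injective F := fun x y hxy => by
    have := congrArg G hxy
    rw [← Module.End.mul_apply, ← Module.End.mul_apply, h'] at this
    simpa using this
  have key : ∀ {A B : Module.End E V}, A * B = 1 → Function.Injective B → ∀ {p : Submodule E V},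
      p ∈ B.invtSubmodule → p ∈ A.invtSubmodule := by
    intro A B hAB hB p hp
    rw [Module.End.mem_invtSubmodule] at hp ⊢
    have h1 : p.map B = p := by
      apply Submodule.eq_of_le_of_finrank_eq (Submodule.map_le_iff_le_comap.mpr hp)
      exact (Submodule.equivMapOfInjective B hB p).finrank_eq.symm
    intro x hx
    rw [← h1] at hx
    obtain ⟨y, hy, rfl⟩ := hx
    rw [Submodule.mem_comap, ← Module.End.mul_apply, hAB]
    exact hy
  rw [Module.End.isSemisimple_iff] at hF ⊢
  intro p hp
  obtain ⟨q, hq, hpq⟩ := hF p (key h hG hp)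
  exact ⟨q, key h' hF' hq, hpq⟩

lemma DualSub.ss [CharZero E] {A B : FrobMod E} (h : DualSub A B) (hB : B.Semisimple) :
    A.Semisimple := by
  obtain ⟨β, c, hβ, hF, hc⟩ := h
  have hu : IsUnit B.F := (Module.End.isUnit_iff _).mpr
    ⟨hF, LinearMap.injective_iff_surjective.mp hF⟩
  obtain ⟨u, hu⟩ := hu
  let G : Module.End E B.V := (u⁻¹ : (Module.End E B.V)ˣ)
  have h1 : B.F * G = 1 := by rw [← hu]; exact u.mul_inv
  have hG : G.IsSemisimple := inv_ss h1 hB
  have hcG : (c • G).IsSemisimple := Module.End.IsSemisimple_smul c hG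
  have h2 : ∀ x y, β (A.F x) y = β x ((c • G) y) := by
    intro x y
    have h3 : y = B.F (G y) := by rw [← Module.End.mul_apply, h1]; rfl
    conv_lhs => rw [h3, hc]
    simp
  have h3 : ∀ (P : Polynomial E) x y, β (Polynomial.aeval A.F P x) y =
      β x (Polynomial.aeval (c • G) P y) := by
    intro P
    induction P using Polynomial.induction_on' with
    | add P Q hP hQ => intro x y; simp only [map_add, LinearMap.add_apply, hP, hQ]
    | monomial n a =>
      intro x y
      simp only [Polynomial.aeval_monomial, Module.algebraMap_end_eq_smul_id,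
        LinearMap.smul_apply, map_smul, Module.End.mul_apply, LinearMap.id_coe, id]
      congr 1
      induction n generalizing x y with
      | zero => simp
      | succ n ih =>
        rw [pow_succ, pow_succ', Module.End.mul_apply, Module.End.mul_apply, ih, h2]
  refine Module.End.isSemisimple_of_squarefree_aeval_eq_zero
    (Module.End.IsSemisimple.minpoly_squarefree hcG) ?_
  ext x
  apply hβ
  ext y
  rw [h3, minpoly.aeval]
  simp

variable {p : ℕ} [Fact p.Prime]

/-- **The cohomology of complete schemes.** For a proper scheme `X` over a finite field `K` of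
characteristic `p` the space `C K i X` is `H^i(X̄, E)` with the Frobenius of `K`. Known properties:

* `weights`: `H^i(X̄)` is the direct sum of its parts of weights `w ≤ i`, and the part of weight `w` is a
  subquotient of `H^w` of a smooth projective scheme (proper hypercoverings, de Jong, Deligne);
* `dual`: for a proper scheme over the prime field the part of lowest weight of the homology
  `H_m(X̄, E)` is a subspace of the dual space of `H^m(X̄, E)` (up to a twist). -/
structure Complete (D : Theory p E) where
  /-- the cohomology of a proper scheme over a finite field -/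
  C : ∀ (K : Type) [Field K] [CharP K p] [Finite K], ℕ → Sch K → FrobMod E
  weights : ∀ (K : Type) [Field K] [CharP K p] [Finite K] (X : Sch K), IsProper X.hom → ∀ i,
    ∃ (n : ℕ) (G : Fin n → FrobMod E), Onto (FrobMod.sum G) (C K i X) ∧
      ∀ k, ∃ (Y : Sch K) (r : ℤ) (j : ℕ), SmoothProjective Y ∧ Subquotient (G k) (D.H K r j Y)
  dual : ∀ X : Sch (ZMod p), IsProper X.hom → ∀ (r : ℤ) (j : ℕ),
    ∃ i : ℕ, DualSub (D.h r j X) (C (ZMod p) i X)

variable {D : Theory p E}

/-- **Semisimplicity of Frobenius** on the cohomology of all complete varieties over all finite fields of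
characteristic `p`. -/
def Complete.AllComplete (L : Complete D) : Prop :=
  ∀ (K : Type) [Field K] [CharP K p] [Finite K] (X : Sch K), IsProper X.hom → ∀ i,
    (L.C K i X).Semisimple

/-- Semisimplicity of Frobenius on the cohomology of the cubic hypersurfaces in the projective spaces over
the prime field. -/
def Complete.CubicsComplete (L : Complete D) : Prop :=
  ∀ (n : ℕ) (F : Pol (ZMod p) n), IsCubic F → ∀ i, (L.C (ZMod p) i (projHyp (ZMod p) F)).Semisimple

lemma proper_projHyp {K : Type} [Field K] {n : ℕ} (F : Pol K n) : IsProper (projHyp K F).hom := by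
  have h1 : Function.Surjective (degZero K n) := by
    rintro ⟨p, hp⟩
    have hp := (MvPolynomial.mem_homogeneousSubmodule _ _).mp hp
    obtain ⟨c, hc⟩ : ∃ c, p = MvPolynomial.C c := ⟨_, MvPolynomial.totalDegree_eq_zero_iff_eq_C.mp
      (Nat.le_zero.mp hp.totalDegree_le)⟩
    exact ⟨c, Subtype.ext hc.symm⟩
  have h2 : IsClosedImmersion (Spec.map (CommRingCat.ofHom (degZero K n))) :=
    IsClosedImmersion.spec_of_surjective _ h1
  have h0 : IsScalarTower K (grad K n 0) (Pol K n) := ⟨fun a x y => smul_mul_assoc a x.1 y⟩
  have h3 : Algebra.FiniteType (grad K n 0) (Pol K n) :=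
    Algebra.FiniteType.of_restrictScalars_finiteType K _ _
  have h4 : IsProper (Proj.toSpecZero (grad K n)) := inferInstance
  have h5 : IsProper (projStr K n) := by
    change IsProper (Proj.toSpecZero (grad K n) ≫ Spec.map _)
    infer_instance
  change IsProper ((zeroIdeal K F).subschemeι ≫ projStr K n)
  infer_instance

theorem main_complete [CharZero E] (L : Complete D) (N : ℕ) :
    [L.AllComplete, ∀ r, D.SmoothProj r, L.CubicsComplete, ∀ r, D.Trilinear r N].TFAE := by
  tfae_have 1 → 3 := fun h n F _ i => h (ZMod p) _ (proper_projHyp F) i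
  tfae_have 3 → 4 := by
    intro h r n F hF j _
    obtain ⟨i, hi⟩ := L.dual (projHyp (ZMod p) F) (proper_projHyp F) r j
    exact hi.ss (h n F hF.hom i)
  tfae_have 4 → 2 := fun h r => ((main D r N).out 3 0).mp (h r)
  tfae_have 2 → 1 := by
    intro h K _ _ _ X hX i
    obtain ⟨n, G, hG, hs⟩ := L.weights K X hX i
    refine hG.ss (sum_ss fun k => ?_)
    obtain ⟨Y, r, j, hY, hq⟩ := hs k
    exact hq.ss (h r K Y hY j)
  tfae_finish

end Run7.h798.Tate.Frob
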