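import Pool.Agent.Q282.UZ.Sys

/-!
# Trilinear forms as cubic forms in one set of variables
-/

set_option autoImplicit false

open CategoryTheory AlgebraicGeometry MvPolynomial Pool.Agent.Y116.UV Pool.Agent.Q193.LT
  Pool.Agent.Q282.UK Pool.Agent.Q282.UZ

namespace Run7.h798.Tate

/-- The ring `A[z_1, …, z_c] / (∑ f_l z_l)`. -/
abbrev ConeRing {A : Type} [CommRing A] {c : ℕ} (f : Fin c → A) : Type :=
  MvPolynomial (Fin c) A ⧸ Ideal.span {∑ l, C (f l) * X l}

/-- The hypersurface `∑ f_l z_l = 0` in `Spec B × 𝔸^c`. -/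
noncomputable def cayS (K : Type) [Field K] (B : Type) [CommRing B] [Algebra K B] {c : ℕ}
    (f : Fin c → B) : Sch K := aff K (ConeRing f)

variable {R : Type} [CommRing R] {a b c m : ℕ}

/-- The monomial `x_i y_j z_l`, the variables being numbered by `e`. -/
noncomputable def triMon (R : Type) [CommRing R] (e : Fin a ⊕ (Fin b ⊕ Fin c) ≃ Fin m) (i : Fin a)
    (j : Fin b) (l : Fin c) : MvPolynomial (Fin m) R :=
  X (e (Sum.inl i)) * X (e (Sum.inr (Sum.inl j))) * X (e (Sum.inr (Sum.inr l)))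

/-- The cubic form `∑_l ∑_{(i, j) ∈ S_l} x_i y_j z_l` in the `m` variables `x_i`, `y_j`, `z_l`, which are
numbered by the bijection `e`. -/
noncomputable def triForm (R : Type) [CommRing R] (e : Fin a ⊕ (Fin b ⊕ Fin c) ≃ Fin m)
    (S : Fin c → Finset (Fin a × Fin b)) : MvPolynomial (Fin m) R :=
  ∑ l, ∑ h ∈ S l, triMon R e h.1 h.2 l

lemma triForm_hom (e : Fin a ⊕ (Fin b ⊕ Fin c) ≃ Fin m) (S : Fin c → Finset (Fin a × Fin b)) :
    (triForm R e S).IsHomogeneous 3 := by
  refine MvPolynomial.IsHomogeneous.sum _ _ _ fun l _ =>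
    MvPolynomial.IsHomogeneous.sum _ _ _ fun h _ => ?_
  exact (((isHomogeneous_X R _).mul (isHomogeneous_X R _)).mul (isHomogeneous_X R _))

/-- the numbering of the variables -/
def reord (e : Fin a ⊕ (Fin b ⊕ Fin c) ≃ Fin m) : Fin c ⊕ (Fin a ⊕ Fin b) ≃ Fin m :=
  (Equiv.sumComm _ _).trans ((Equiv.sumAssoc _ _ _).trans e)

/-- the isomorphism of polynomial rings -/
noncomputable def ringE (R : Type) [CommRing R] (e : Fin a ⊕ (Fin b ⊕ Fin c) ≃ Fin m) :
    MvPolynomial (Fin m) R ≃ₐ[R] MvPolynomial (Fin c) (MvPolynomial (Fin a ⊕ Fin b) R) :=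
  (renameEquiv R (reord e).symm).trans (sumAlgEquiv R (Fin c) (Fin a ⊕ Fin b))

lemma ringE_tri (e : Fin a ⊕ (Fin b ⊕ Fin c) ≃ Fin m) (S : Fin c → Finset (Fin a × Fin b)) :
    ringE R e (triForm R e S) = ∑ l, C (few R (S l)) * X l := by
  have h1 : ∀ i, ringE R e (X (e (Sum.inl i))) = C (X (Sum.inl i)) := by
    intro i
    simp [ringE, reord]
  have h2 : ∀ i, ringE R e (X (e (Sum.inr (Sum.inl i)))) = C (X (Sum.inr i)) := by
    intro i
    simp [ringE, reord]
  have h3 : ∀ i, ringE R e (X (e (Sum.inr (Sum.inr i)))) = X i := by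
    intro i
    simp [ringE, reord]
  simp only [triForm, triMon, map_sum, map_mul, h1, h2, h3, few, Finset.sum_mul]

/-- the isomorphism of quotients -/
noncomputable def coneE (e : Fin a ⊕ (Fin b ⊕ Fin c) ≃ Fin m) (S : Fin c → Finset (Fin a × Fin b)) :
    (MvPolynomial (Fin m) R ⧸ Ideal.span {triForm R e S}) ≃ₐ[R]
      ConeRing fun l => few R (S l) :=
  Ideal.quotientEquivAlg _ _ (ringE R e) (by
    rw [Ideal.map_span, Set.image_singleton]
    congr 2
    exact (ringE_tri e S).symm)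

lemma triForm_ne [Nontrivial R] (e : Fin a ⊕ (Fin b ⊕ Fin c) ≃ Fin m)
    (S : Fin c → Finset (Fin a × Fin b)) (h : ∃ l, (S l).Nonempty) : triForm R e S ≠ 0 := by
  classical
  obtain ⟨l, x, hx⟩ := h
  intro h0
  let v : Fin m → R := fun i => if i = e (Sum.inl x.1) ∨ i = e (Sum.inr (Sum.inl x.2)) ∨
    i = e (Sum.inr (Sum.inr l)) then 1 else 0
  have h1 : eval v (triForm R e S) = 1 := by
    rw [triForm, map_sum, Finset.sum_eq_single l, map_sum, Finset.sum_eq_single x]
    · simp [triMon, v]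
    · intro y _ hy
      have : y.1 ≠ x.1 ∨ y.2 ≠ x.2 := by
        by_contra hcon
        push Not at hcon
        exact hy (Prod.ext hcon.1 hcon.2)
      rcases this with h | h <;> simp [triMon, v, h]
    · intro h
      exact absurd hx h
    · intro k _ hk
      rw [map_sum]
      apply Finset.sum_eq_zero
      intro y _
      simp [triMon, v, hk]
    · intro h
      exact absurd (Finset.mem_univ l) h
  rw [h0, map_zero] at h1
  exact zero_ne_one h1

end Run7.h798.Tate
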