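import Pool.Agent.Run7.h798.Tate.SmoothProj
import Mathlib.AlgebraicGeometry.IdealSheaf.Subscheme

/-!
# Hypersurfaces in projective space
-/

set_option autoImplicit false

open CategoryTheory AlgebraicGeometry Pool.Agent.Y116.UV Pool.Agent.Q193.LT Pool.Agent.Q282.UK
  Pool.Agent.Q282.UZ Run7.h798.UV

namespace Run7.h798.Tate

variable (K : Type) [Field K]

lemma ft_projSpace (n : ℕ) : FT True (projSpace K n) := by
  have h1 : Function.Surjective (degZero K n) := by
    rintro ⟨p, hp⟩
    have hp := (MvPolynomial.mem_homogeneousSubmodule _ _).mp hp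
    obtain ⟨c, hc⟩ : ∃ c, p = MvPolynomial.C c := ⟨_, MvPolynomial.totalDegree_eq_zero_iff_eq_C.mp
      (Nat.le_zero.mp hp.totalDegree_le)⟩
    exact ⟨c, Subtype.ext hc.symm⟩
  have h2 : IsClosedImmersion (Spec.map (CommRingCat.ofHom (degZero K n))) :=
    IsClosedImmersion.spec_of_surjective _ h1
  have h0 : IsScalarTower K (grad K n 0) (Pol K n) := ⟨fun a x y => smul_mul_assoc a x.1 y⟩
  have h3 : Algebra.FiniteType (grad K n 0) (Pol K n) :=
    Algebra.FiniteType.of_restrictScalars_finiteType K _ _
  have h4 : IsProper (Proj.toSpecZero (grad K n)) := inferInstance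
  have h5 : IsProper (projSpace K n).hom := by
    change IsProper (Proj.toSpecZero (grad K n) ≫ Spec.map _)
    infer_instance
  exact ⟨inferInstance, inferInstance, fun _ => inferInstance⟩

/-- The closed subset `F = 0` of the projective space. -/
noncomputable def zeroSet {n : ℕ} (F : Pol K n) : TopologicalSpace.Closeds (projS K n) :=
  ⟨ProjectiveSpectrum.zeroLocus (grad K n) {F}, ProjectiveSpectrum.isClosed_zeroLocus _ _⟩

/-- The ideal sheaf of the closed subset `F = 0` (with the reduced structure). -/
noncomputable def zeroIdeal {n : ℕ} (F : Pol K n) : (projS K n).IdealSheafData :=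
  Scheme.IdealSheafData.vanishingIdeal (zeroSet K F)

/-- The hypersurface `F = 0` in the projective space (with the reduced structure). -/
noncomputable def projHyp {n : ℕ} (F : Pol K n) : Sch K :=
  Over.mk ((zeroIdeal K F).subschemeι ≫ projStr K n)

lemma ft_projHyp {n : ℕ} (F : Pol K n) : FT True (projHyp K F) := by
  have h := ft_projSpace K n
  have h1 : LocallyOfFiniteType (projStr K n) := h.locallyOfFiniteType
  have h2 : QuasiCompact (projStr K n) := h.quasiCompact
  have h3 : IsSeparated (projStr K n) := h.separated trivial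
  let ι := (zeroIdeal K F).subschemeι
  have h4 : LocallyOfFiniteType ι := inferInstance
  have h5 : QuasiCompact ι := inferInstance
  have h6 : IsSeparated ι := inferInstance
  exact ⟨MorphismProperty.comp_mem @LocallyOfFiniteType ι (projStr K n) h4 h1,
    MorphismProperty.comp_mem @QuasiCompact ι (projStr K n) h5 h2,
    fun _ => MorphismProperty.comp_mem @IsSeparated ι (projStr K n) h6 h3⟩

variable {K}

/-- `F` is a nonzero cubic form. -/
def IsCubic {n : ℕ} (F : Pol K n) : Prop := F.IsHomogeneous 3 ∧ F ≠ 0

variable (K)

/-- The affine space of dimension `n`. -/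
noncomputable def affSpace (n : ℕ) : Sch K := aff K (MvPolynomial (Fin n) K)

/-- The affine cone `F = 0` over a projective hypersurface. -/
noncomputable def affCone {n : ℕ} (F : Pol K n) : Sch K := aff K (Pol K n ⧸ Ideal.span {F})

/-- The closed subscheme `f_1 = ⋯ = f_c = 0` of `Spec B`. -/
noncomputable def zeroS (B : Type) [CommRing B] [Algebra K B] {c : ℕ} (f : Fin c → B) : Sch K :=
  aff K (B ⧸ Ideal.span (Set.range f))

end Run7.h798.Tate
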