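import Pool.Agent.Run7.h798.Tate.ConeRing
import Pool.Agent.Run7.h798.Tate.CubicV
import Pool.Agent.Run7.h798.UV.Geom

/-!
# From projective cubic hypersurfaces to systems of bilinear equations
-/

set_option autoImplicit false

open CategoryTheory AlgebraicGeometry MvPolynomial Pool.Agent.Y116.UV Pool.Agent.Q193.LT
  Pool.Agent.Q282.UK Pool.Agent.Q282.UZ Run7.h798.UV

namespace Run7.h798.Tate

variable {K : Type} [Field K]

/-- `F` is a nonzero trilinear form with coefficients `0` and `1`: the variables are divided into three groups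
`x`, `y`, `z`, and `F = ∑_l z_l f_l(x, y)` where every `f_l` is a sum of at most three distinct monomials
`x_i y_j`. -/
def IsTrilinear {n : ℕ} (F : Pol K n) : Prop :=
  F ≠ 0 ∧ ∃ (a b c : ℕ) (e : Fin a ⊕ (Fin b ⊕ Fin c) ≃ Fin (n + 1))
    (S : Fin c → Finset (Fin a × Fin b)), (∀ l, (S l).card ≤ 3) ∧ F = triForm K e S

lemma IsTrilinear.hom {n : ℕ} {F : Pol K n} (h : IsTrilinear F) : IsCubic F := by
  obtain ⟨h0, a, b, c, e, S, _, rfl⟩ := h
  exact ⟨triForm_hom e S, h0⟩

/-- the closure properties which lead from cubic hypersurfaces to bilinear systems -/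
structure CubicClo (Q : ℕ → Sch K → Prop) : Prop where
  iso : ∀ {X Y : Sch K}, FT True X → Nonempty (X ≅ Y) → ∀ j, Q j X → Q j Y
  space : ∀ (n j : ℕ), Q j (affSpace K n)
  cayley : ∀ (B : Type) [CommRing B] [Algebra K B] [Algebra.FiniteType K B] (c : ℕ) (f : Fin c → B)
    (j : ℕ), Q (j + c) (cayS K B f) → Q j (zeroS K B f)
  cone : ∀ (n : ℕ) (F : Pol K n), 1 ≤ n → IsCubic F → ∀ j, Q j (projHyp K F) → Q (j + 1) (affCone K F)

/-- the isomorphism with affine space if there are no equations -/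
noncomputable def emptyE {a b c : ℕ} (S : Fin c → Finset (Fin a × Fin b)) (h : ∀ l, S l = ∅) :
    MvPolynomial (Fin (a + b)) K ≃ₐ[K]
      (MvPolynomial (Fin a ⊕ Fin b) K ⧸ Ideal.span (Set.range fun l => few K (S l))) :=
  (renameEquiv K finSumFinEquiv.symm).trans
    ((AlgEquiv.quotientBot K (MvPolynomial (Fin a ⊕ Fin b) K)).symm.trans
      (Ideal.quotientEquivAlgOfEq K (by
        symm
        rw [Ideal.span_eq_bot]
        rintro _ ⟨l, rfl⟩
        simp [few, h l])))

theorem CubicClo.sys {Q : ℕ → Sch K → Prop} (hQ : CubicClo Q) (N : ℕ)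
    (h : ∀ (n : ℕ) (F : Pol K n), IsTrilinear F → ∀ j, N ≤ j → Q j (projHyp K F))
    (a b c : ℕ) (S : Fin c → Finset (Fin a × Fin b)) (hS : ∀ l, (S l).card ≤ 3) (j : ℕ)
    (hj : N ≤ j) : Q j (sysS K S) := by
  by_cases hne : ∃ l, (S l).Nonempty
  · have hc : 1 ≤ c := by
      obtain ⟨l, _⟩ := hne
      exact Nat.one_le_iff_ne_zero.mpr (by rintro rfl; exact l.elim0)
    have ha : 1 ≤ a := by
      obtain ⟨l, x, _⟩ := hne
      exact Nat.one_le_iff_ne_zero.mpr (by rintro rfl; exact x.1.elim0)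
    obtain ⟨c, rfl⟩ : ∃ c', c = c' + 1 := ⟨c - 1, by omega⟩
    refine hQ.cayley _ (c + 1) _ j ?_
    let e : Fin a ⊕ (Fin b ⊕ Fin (c + 1)) ≃ Fin (a + b + c + 1) :=
      (Equiv.sumCongr (Equiv.refl _) finSumFinEquiv).trans (finSumFinEquiv.trans
        (finCongr (by ring)))
    have h1 : IsTrilinear (triForm K e S) := ⟨triForm_ne e S hne, a, b, c + 1, e, S, hS, rfl⟩
    have h3 := hQ.cone _ _ (by omega) h1.hom (j + c) (h _ _ h1 (j + c) (by omega))
    exact hQ.iso (ft_aff True) ⟨(affIso (coneE (R := K) e S)).symm⟩ _ h3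
  · push Not at hne
    exact hQ.iso (ft_aff True) ⟨(affIso (emptyE S hne)).symm⟩ _ (hQ.space _ _)

/-- closure properties of a family of properties `Q j` of schemes with a homological index `j ≥ 0` -/
structure HomClo (Q : ℕ → Sch K → Prop) : Prop extends CubicClo Q where
  total : ∀ {Z X U : Sch K} (f : Z ⟶ X) (g : U ⟶ X), FT True X → IsTriple f g → ∀ j, Q j Z → Q j U →
    Q j X
  opened : ∀ {Z X U : Sch K} (f : Z ⟶ X) (g : U ⟶ X), FT True X → IsTriple f g → ∀ j, Q j X → Q j U
  torus : ∀ (A : Type) [CommRing A] [Algebra K A] [Algebra.FiniteType K A] (j : ℕ),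
    Q (j + 1) (aff K (LaurentPolynomial A)) → Q j (aff K A)

/-- The property `Q` with the opposite index. -/
def Opp (Q : ℕ → Sch K → Prop) (i : ℤ) (X : Sch K) : Prop := ∀ j : ℕ, (j : ℤ) = -i → Q j X

lemma HomClo.gclo {Q : ℕ → Sch K → Prop} (hQ : HomClo Q) : GClo True (Opp Q) where
  iso hX e i h j hj := hQ.iso hX e j (h j hj)
  total i u hX ht n hZ hU j hj := hQ.total i u hX ht j (hZ j hj) (hU j hj)
  opened i u hX ht n _ hX' j hj := hQ.opened i u hX ht j (hX' j hj)
  torus B _ _ _ n h j hj := hQ.torus B j (h (j + 1) (by push_cast; omega))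

/-- **Theorem.** If `Q` has the closure properties, then it is true for all separated schemes of finite
type and all `j` as soon as it is true for the trilinear cubic hypersurfaces and the indices `j ≥ N`. -/
theorem HomClo.all {Q : ℕ → Sch K → Prop} (hQ : HomClo Q) (hS : ShortPresents K) (N : ℕ)
    (h : ∀ (n : ℕ) (F : Pol K n), IsTrilinear F → ∀ j, N ≤ j → Q j (projHyp K F)) (X : Sch K)
    (hX : FT True X) (j : ℕ) : Q j X := by
  refine (graded_iff hS hQ.gclo (-N)).mpr ?_ X hX (-(j : ℤ)) j (by ring)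
  intro a b c S hS i hi j' hj'
  exact hQ.toCubicClo.sys N h a b c S hS j' (by omega)

end Run7.h798.Tate
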