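import Pool.Agent.Run7.h798.UV.Geom

/-!
# The graded reduction to systems of bilinear equations with arbitrary coefficients
-/

set_option autoImplicit false

open CategoryTheory CategoryTheory.Limits AlgebraicGeometry MvPolynomial Pool.Agent.Y116.UV
  Pool.Agent.Q282.UK Pool.Agent.Q282.UZ Run7.h798.UV

namespace Run7.h798.Tate

variable {R : Type} [CommRing R]

/-- `X` is isomorphic to a system of bilinear equations. -/
def IsBilS (X : Sch R) : Prop :=
  ∃ (a b c : ℕ) (T : Fin a → Fin b → Fin c → R), Nonempty (bilS T ≅ X)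

lemma isBilS_bil {β γ κ : Type} [Fintype β] [Fintype γ] [Fintype κ] (f : κ → MvPolynomial (β ⊕ γ) R)
    (hf : ∀ k, f k ∈ bilIn (Set.univ : Set R) β γ) :
    IsBilS (aff R (MvPolynomial (β ⊕ γ) R ⧸ Ideal.span (Set.range f))) := by
  choose T hTS hT using hf
  have h2 : f = fun k => bil β γ (T k) := by
    funext k
    exact (hT k).symm
  rw [h2]
  exact ⟨_, _, _, _, ⟨(affIso (bilRename (Fintype.equivFin β).symm (Fintype.equivFin γ).symm
    (Fintype.equivFin κ).symm T)).symm⟩⟩

lemma IsBilS.of_alg {A B : Type} [CommRing A] [CommRing B] [Algebra R A] [Algebra R B]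
    (e : A ≃ₐ[R] B) (h : IsBilS (aff R A)) : IsBilS (aff R B) := by
  obtain ⟨a, b, c, T, ⟨f⟩⟩ := h
  exact ⟨a, b, c, T, ⟨f ≪≫ (affIso e).symm⟩⟩

/-- For every algebra `A` of finite type there is a bilinear system `X` and a closed subscheme `Z`,
also a bilinear system, whose complement is isomorphic to `Spec A × 𝔾_m × 𝔾_m`. -/
theorem geomB (hS : Presents (Set.univ : Set R)) (sep : Prop) (A : Type) [CommRing A] [Algebra R A]
    [Algebra.FiniteType R A] :
    ∃ (Z X U : Sch R) (i : Z ⟶ X) (j : U ⟶ X), FT sep X ∧ IsTriple i j ∧ IsBilS Z ∧ IsBilS X ∧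
      FT sep U ∧ Nonempty (U ≅ aff R (LaurentPolynomial (LaurentPolynomial A))) := by
  classical
  obtain ⟨n, φ, G, hs, hK, hc⟩ := hS A
  let D : ℕ := 1 + ∑ g ∈ G, ∑ m ∈ g.support, m.degree
  have hD : 1 ≤ D := by omega
  have hd : ∀ g ∈ G, ∀ m ∈ g.support, m.degree ≤ D := by
    intro g hg m hm
    have h1 : m.degree ≤ ∑ m ∈ g.support, m.degree :=
      Finset.single_le_sum (f := fun m : Fin n →₀ ℕ => m.degree) (fun _ _ => Nat.zero_le _) hm
    have h2 : ∑ m ∈ g.support, m.degree ≤ ∑ g ∈ G, ∑ m ∈ g.support, m.degree :=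
      Finset.single_le_sum (f := fun g : MvPolynomial (Fin n) R => ∑ m ∈ g.support, m.degree)
        (fun _ _ => Nat.zero_le _) hg
    omega
  have hG : ∀ g ∈ G, φ g = 0 := by
    intro g hg
    have : g ∈ RingHom.ker φ := by
      rw [hK]
      exact Ideal.subset_span hg
    exact this
  have hm : ∀ k, eqs hD G k ∈ bilIn (Set.univ : Set R) (Mon n D) (Mon n D) :=
    eqs_mem hD G (Set.mem_univ _) (Set.mem_univ _) hc
  have hA : IsBilS (aff R (Cone hD G)) := isBilS_bil (eqs hD G) hm
  let f' : Option (Mon n D ⊕ (Mon n D × Fin n) ⊕ G) → UVRing R n D := fun k =>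
    k.elim (uu R (mo n D) * vv R (mo n D)) (eqs hD G)
  have h2 : IsBilS (aff R (UVRing R n D ⧸ Ideal.span (Set.range f'))) := by
    apply isBilS_bil f'
    rintro (_ | k)
    · exact single_mem (Set.mem_univ _) (Set.mem_univ _) _ _
    · exact hm k
  have h3 : Ideal.span (Set.range f') =
      eqI hD G ⊔ Ideal.span {uu R (mo n D) * vv R (mo n D)} := by
    rw [eqI, ← Ideal.span_union]
    congr 1
    ext x
    constructor
    · rintro ⟨_ | k, rfl⟩
      · exact Or.inr rfl
      · exact Or.inl ⟨k, rfl⟩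
    · rintro (⟨k, rfl⟩ | rfl)
      · exact ⟨some k, rfl⟩
      · exact ⟨none, rfl⟩
  rw [h3] at h2
  have h4 : IsBilS (aff R (Cone hD G ⧸ Ideal.span {cw hD G})) := by
    have e := (DoubleQuot.quotQuotEquivQuotSupₐ R (eqI hD G)
      (Ideal.span {uu R (mo n D) * vv R (mo n D)})).symm
    have h5 := h2.of_alg (B := Cone hD G ⧸ Ideal.map (Ideal.Quotient.mkₐ R (eqI hD G))
      (Ideal.span {uu R (mo n D) * vv R (mo n D)})) e
    have h6 : Ideal.map (Ideal.Quotient.mkₐ R (eqI hD G))
        (Ideal.span {uu R (mo n D) * vv R (mo n D)}) = Ideal.span {cw hD G} := by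
      rw [Ideal.map_span, Set.image_singleton]
      rfl
    rw [← h6]
    exact h5
  have h6 : Algebra.FiniteType R (LCone hD G) :=
    Algebra.FiniteType.trans (S := Cone hD G) inferInstance inferInstance
  exact ⟨_, _, _, _, _, ft_aff sep, triple_away (cw hD G), h4, hA, ft_aff sep,
    ⟨(affIso (coneEquiv hD G φ hG hd hs hK)).symm⟩⟩

/-- `P i` is true in the degrees `i ≤ N` for the bilinear systems. -/
def BilBelow (P : ℤ → Sch R → Prop) (N : ℤ) : Prop :=
  ∀ (a b c : ℕ) (T : Fin a → Fin b → Fin c → R), ∀ i ≤ N, P i (bilS T)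

variable {sep : Prop} {P : ℤ → Sch R → Prop}

lemma bil_step (hS : Presents (Set.univ : Set R)) (hP : GClo sep P) {N : ℤ} (h : BilBelow P N)
    (A : Type) [CommRing A] [Algebra R A] [Algebra.FiniteType R A] (i : ℤ) (hi : i ≤ N + 1) :
    P i (aff R A) := by
  obtain ⟨Z, X, U, f, g, hX, ht, ⟨a, b, c, T, hZ⟩, ⟨a', b', c', T', hX'⟩, hU, e⟩ :=
    geomB hS sep A
  have h1 : P (i - 2) U := by
    refine hP.opened f g hX ht _ (hP.iso (ft_aff sep) hZ _ (h a b c T _ ?_))
      (hP.iso (ft_aff sep) hX' _ (h a' b' c' T' _ ?_)) <;> omega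
  have h2 := hP.iso hU e _ h1
  have h7 := ft_laurent (R := R) A
  refine hP.torus A i (hP.torus _ _ ?_)
  have h3 : i - 1 - 1 = i - 2 := by ring
  rw [h3]
  exact h2

/-- **Theorem.** A family of properties with the graded closure properties is true in all degrees for
all (separated) schemes of finite type as soon as it is true for the bilinear systems in the degrees
`i ≤ N` for one integer `N`. -/
theorem graded_bil (hS : Presents (Set.univ : Set R)) (hP : GClo sep P) (N : ℤ)
    (h : BilBelow P N) (X : Sch R) (hX : FT sep X) (i : ℤ) : P i X := by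
  have h1 : ∀ n : ℕ, BilBelow P (N + n) := by
    intro n
    induction n with
    | zero => simpa using h
    | succ n ih =>
      intro a b c T i hi
      exact bil_step hS hP ih _ i (by push_cast at hi; omega)
  have h2 : ∀ (A : Type) [CommRing A] [Algebra R A] [Algebra.FiniteType R A], ∀ i, P i (aff R A) := by
    intro A _ _ _ i
    exact bil_step hS hP (h1 (i - N).toNat) A i (by omega)
  exact of_affine' (P := fun X => ∀ i, P i X) (fun hX e h i => hP.iso hX e i (h i))
    (fun f g hX ht h h' i => hP.total f g hX ht i (h _) (h' _)) (fun A _ _ _ => h2 A) X hX i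

end Run7.h798.Tate
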