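import Pool.Agent.Run7.h798.Tate.Core
import Pool.Agent.Run7.h798.Tate.GeomB

/-!
# From trilinear cubic hypersurfaces with arbitrary coefficients to systems of bilinear equations
-/

set_option autoImplicit false

open CategoryTheory AlgebraicGeometry MvPolynomial Pool.Agent.Y116.UV Pool.Agent.Q193.LT
  Pool.Agent.Q282.UK Pool.Agent.Q282.UZ Run7.h798.UV

namespace Run7.h798.Tate

variable {R : Type} [CommRing R] {a b c m : ℕ}

/-- The trilinear form `∑ T_{ijl} x_i y_j z_l` in the `m` variables `x_i`, `y_j`, `z_l`, which are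
numbered by the bijection `e`. -/
noncomputable def triT (e : Fin a ⊕ (Fin b ⊕ Fin c) ≃ Fin m) (T : Fin a → Fin b → Fin c → R) :
    MvPolynomial (Fin m) R :=
  ∑ l, ∑ i, ∑ j, C (T i j l) * triMon R e i j l

lemma triT_hom (e : Fin a ⊕ (Fin b ⊕ Fin c) ≃ Fin m) (T : Fin a → Fin b → Fin c → R) :
    (triT e T).IsHomogeneous 3 := by
  refine MvPolynomial.IsHomogeneous.sum _ _ _ fun l _ =>
    MvPolynomial.IsHomogeneous.sum _ _ _ fun i _ =>
      MvPolynomial.IsHomogeneous.sum _ _ _ fun j _ => ?_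
  have h := ((isHomogeneous_X R (e (Sum.inl i))).mul
    (isHomogeneous_X R (e (Sum.inr (Sum.inl j))))).mul (isHomogeneous_X R (e (Sum.inr (Sum.inr l))))
  have h2 := (isHomogeneous_C (Fin m) (T i j l)).mul h
  simpa [triMon] using h2

lemma ringE_triT (e : Fin a ⊕ (Fin b ⊕ Fin c) ≃ Fin m) (T : Fin a → Fin b → Fin c → R) :
    ringE R e (triT e T) = ∑ l, C (bform T l) * X l := by
  have h1 : ∀ i, ringE R e (X (e (Sum.inl i))) = C (X (Sum.inl i)) := by
    intro i
    simp [ringE, reord]
  have h2 : ∀ i, ringE R e (X (e (Sum.inr (Sum.inl i)))) = C (X (Sum.inr i)) := by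
    intro i
    simp [ringE, reord]
  have h3 : ∀ i, ringE R e (X (e (Sum.inr (Sum.inr i)))) = X i := by
    intro i
    simp [ringE, reord]
  have h4 : ∀ r : R, ringE R e (C r) = C (C r) := fun r => (ringE R e).commutes r
  simp only [triT, triMon, bform, map_sum, map_mul, h1, h2, h3, h4, Finset.sum_mul]
  refine Finset.sum_congr rfl fun l _ => Finset.sum_congr rfl fun i _ =>
    Finset.sum_congr rfl fun j _ => ?_
  ring

/-- the isomorphism of quotients -/
noncomputable def coneET (e : Fin a ⊕ (Fin b ⊕ Fin c) ≃ Fin m) (T : Fin a → Fin b → Fin c → R) :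
    (MvPolynomial (Fin m) R ⧸ Ideal.span {triT e T}) ≃ₐ[R] ConeRing (bform T) :=
  Ideal.quotientEquivAlg _ _ (ringE R e) (by
    rw [Ideal.map_span, Set.image_singleton]
    congr 2
    exact (ringE_triT e T).symm)

lemma bform_zero (e : Fin a ⊕ (Fin b ⊕ Fin c) ≃ Fin m) (T : Fin a → Fin b → Fin c → R)
    (h : triT e T = 0) (l : Fin c) : bform T l = 0 := by
  classical
  have h1 := ringE_triT e T
  rw [h, map_zero] at h1
  have h2 := congrArg (coeff (Finsupp.single l 1)) h1
  rw [coeff_zero, coeff_sum, Finset.sum_eq_single l] at h2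
  · rw [coeff_C_mul, coeff_X, if_pos rfl, mul_one] at h2
    exact h2.symm
  · intro k _ hk
    rw [coeff_C_mul, coeff_X, if_neg, mul_zero]
    intro h3
    exact hk (Finsupp.single_left_injective one_ne_zero h3)
  · intro h3
    exact absurd (Finset.mem_univ l) h3

variable {K : Type} [Field K]

/-- `F` is a nonzero trilinear form: the variables are divided into three groups `x`, `y`, `z`, and
`F = ∑ T_{ijl} x_i y_j z_l`. -/
def IsTriB {n : ℕ} (F : Pol K n) : Prop :=
  F ≠ 0 ∧ ∃ (a b c : ℕ) (e : Fin a ⊕ (Fin b ⊕ Fin c) ≃ Fin (n + 1)) (T : Fin a → Fin b → Fin c → K),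
    F = triT e T

lemma IsTriB.hom {n : ℕ} {F : Pol K n} (h : IsTriB F) : IsCubic F := by
  obtain ⟨h0, a, b, c, e, T, rfl⟩ := h
  exact ⟨triT_hom e T, h0⟩

/-- the isomorphism with affine space if there are no equations -/
noncomputable def emptyT (T : Fin a → Fin b → Fin c → K) (h : ∀ l, bform T l = 0) :
    MvPolynomial (Fin (a + b)) K ≃ₐ[K]
      (MvPolynomial (Fin a ⊕ Fin b) K ⧸ Ideal.span (Set.range (bform T))) :=
  (renameEquiv K finSumFinEquiv.symm).trans
    ((AlgEquiv.quotientBot K (MvPolynomial (Fin a ⊕ Fin b) K)).symm.trans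
      (Ideal.quotientEquivAlgOfEq K (by
        symm
        rw [Ideal.span_eq_bot]
        rintro _ ⟨l, rfl⟩
        exact h l)))

theorem CubicClo.bil {Q : ℕ → Sch K → Prop} (hQ : CubicClo Q) (N : ℕ)
    (h : ∀ (n : ℕ) (F : Pol K n), IsTriB F → ∀ j, N ≤ j → Q j (projHyp K F))
    (a b c : ℕ) (T : Fin a → Fin b → Fin c → K) (j : ℕ) (hj : N ≤ j) : Q j (bilS T) := by
  by_cases hne : ∃ l, bform T l ≠ 0
  · have hc : 1 ≤ c := by
      obtain ⟨l, _⟩ := hne
      exact Nat.one_le_iff_ne_zero.mpr (by rintro rfl; exact l.elim0)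
    have ha : 1 ≤ a := by
      obtain ⟨l, hl⟩ := hne
      refine Nat.one_le_iff_ne_zero.mpr ?_
      rintro rfl
      exact hl (by simp [bform])
    obtain ⟨c, rfl⟩ : ∃ c', c = c' + 1 := ⟨c - 1, by omega⟩
    refine hQ.cayley _ (c + 1) (bform T) j ?_
    let e : Fin a ⊕ (Fin b ⊕ Fin (c + 1)) ≃ Fin (a + b + c + 1) :=
      (Equiv.sumCongr (Equiv.refl _) finSumFinEquiv).trans (finSumFinEquiv.trans
        (finCongr (by ring)))
    have h1 : IsTriB (triT e T) := by
      refine ⟨fun h0 => ?_, a, b, c + 1, e, T, rfl⟩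
      obtain ⟨l, hl⟩ := hne
      exact hl (bform_zero e T h0 l)
    have h3 := hQ.cone _ _ (by omega) h1.hom (j + c) (h _ _ h1 (j + c) (by omega))
    exact hQ.iso (ft_aff True) ⟨(affIso (coneET e T)).symm⟩ _ h3
  · push Not at hne
    exact hQ.iso (ft_aff True) ⟨(affIso (emptyT T hne)).symm⟩ _ (hQ.space _ _)

/-- **Theorem.** If `Q` has the closure properties, then it is true for all separated schemes of finite
type over the field `K` and all `j` as soon as it is true for the trilinear cubic hypersurfaces over `K`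
(with arbitrary coefficients) and the indices `j ≥ N`. -/
theorem HomClo.all_field {Q : ℕ → Sch K → Prop} (hQ : HomClo Q) (N : ℕ)
    (h : ∀ (n : ℕ) (F : Pol K n), IsTriB F → ∀ j, N ≤ j → Q j (projHyp K F)) (X : Sch K)
    (hX : FT True X) (j : ℕ) : Q j X := by
  refine graded_bil presents_univ hQ.gclo (-N) ?_ X hX (-(j : ℤ)) j (by ring)
  intro a b c T i hi j' hj'
  exact hQ.toCubicClo.bil N h a b c T j' (by omega)

end Run7.h798.Tate
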