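import Pool.Agent.Run7.h798.Tate.Core
import Pool.Agent.Run7.h798.Tate.CharZero

/-!
# Cycle class maps in characteristic zero and cubic hypersurfaces over `ℚ`
-/

set_option autoImplicit false

open CategoryTheory AlgebraicGeometry MvPolynomial Pool.Agent.Y116.UV Pool.Agent.Q193.LT
  Pool.Agent.Q282.UK Pool.Agent.Q282.UZ Run7.h798.UV

universe w

namespace Run7.h798.Tate.CharZero

variable {E : Type} [Field E]

/-- The cycle class map `T ℚ j X` for a scheme over `ℚ`. -/
def CycleTheory.Q (D : CycleTheory.{w} E) (j : ℕ) (X : Sch ℚ) : Arrow (ModuleCat.{w} E) := D.T ℚ j X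

/-- The cycle class map `T ℚ j X` is surjective. -/
def CycleTheory.SurjQ (D : CycleTheory.{w} E) (j : ℕ) (X : Sch ℚ) : Prop :=
  Function.Surjective (D.Q j X).hom.hom

/-- Further properties of the cycle class maps `T ℚ j X`:

* `space`: they are surjective for affine spaces;
* `cayley`: for elements `f_1, …, f_c` of a finitely generated `ℚ`-algebra `B` the object
  `T j (Spec B/(f_1, …, f_c))` is a direct factor of `T (j+c) (Spec B[z_1, …, z_c]/(∑ f_l z_l))`; this is
  the splitting `M^c(W) = M^c(Z)(c)[2c] ⊕ M^c(U)(c-1)[2c-2]` for the hypersurface `W : ∑ f_l z_l = 0`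
  in `Spec B × 𝔸^c`, the closed subscheme `Z : f_1 = ⋯ = f_c = 0` of `Spec B` and its complement `U`;
* `cone`: for a nonzero cubic form `F` the projective hypersurface `V : F = 0` and its affine cone `C`
  are related by a map `T j V → T (j+1) C` (the cone over a cycle) which is surjective on homology
  (`C` minus the vertex is the complement of the zero section in a line bundle on `V`). -/
structure CycleTheory.Geometric (D : CycleTheory.{w} E) : Prop where
  space : ∀ n j : ℕ, D.SurjQ j (affSpace ℚ n)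
  cayley : ∀ (B : Type) [CommRing B] [Algebra ℚ B] [Algebra.FiniteType ℚ B] (c : ℕ) (f : Fin c → B)
    (j : ℕ), ∃ (s : D.Q j (zeroS ℚ B f) ⟶ D.Q (j + c) (cayS ℚ B f))
      (r : D.Q (j + c) (cayS ℚ B f) ⟶ D.Q j (zeroS ℚ B f)), s ≫ r = 𝟙 _
  cone : ∀ (n : ℕ) (F : Pol ℚ n), IsCubic F → ∀ j,
    ∃ q : D.Q j (projHyp ℚ F) ⟶ D.Q (j + 1) (affCone ℚ F), Function.Surjective q.right.hom

/-- The cycle class maps are surjective in the dimensions `j ≥ N` for all cubic hypersurfaces in the
projective spaces over `ℚ`. -/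
def CycleTheory.Cubics (D : CycleTheory.{w} E) (N : ℕ) : Prop :=
  ∀ (n : ℕ) (F : Pol ℚ n), IsCubic F → ∀ j, N ≤ j → D.SurjQ j (projHyp ℚ F)

/-- The cycle class maps are surjective in the dimensions `j ≥ N` for the cubic hypersurfaces over `ℚ`
given by trilinear forms `∑_l z_l f_l(x, y)` in which every `f_l` is a sum of at most three monomials
`x_i y_j`. -/
def CycleTheory.Trilinear (D : CycleTheory.{w} E) (N : ℕ) : Prop :=
  ∀ (n : ℕ) (F : Pol ℚ n), IsTrilinear F → ∀ j, N ≤ j → D.SurjQ j (projHyp ℚ F)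

lemma cubicClo {D : CycleTheory.{w} E} (h : D.Geometric) :
    CubicClo (K := ℚ) fun j X => D.SurjQ j X where
  iso hX e j h := by
    obtain ⟨e⟩ := D.iso hX e j
    exact surj_split e.inv e.hom e.inv_hom_id h
  space n j := h.space n j
  cayley B _ _ _ c f j hW := by
    obtain ⟨s, r, hsr⟩ := h.cayley B c f j
    exact surj_split s r hsr hW
  cone n F _ hF j hV := by
    obtain ⟨q, hq⟩ := h.cone n F hF j
    exact surj_of q hq hV

lemma all_q (D : CycleTheory.{w} E) (h : D.All) (X : Sch ℚ) (hX : FT True X) : D.Tate ℚ X := by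
  refine h ℚ ?_ _ hX
  have h1 : ∀ a : Algebra ℚ ℚ, (⊤ : @IntermediateField ℚ ℚ _ _ a).FG := by
    intro a
    obtain rfl : a = Algebra.id ℚ := Subsingleton.elim _ _
    have h2 : (⊤ : IntermediateField ℚ ℚ) = ⊥ := Subsingleton.elim _ _
    rw [h2]
    exact IntermediateField.fg_bot
  exact h1 _

theorem iff_cubics (D : CycleTheory.{w} E) (h : D.Geometric) (N : ℕ) :
    (D.All ↔ D.Cubics N) ∧ (D.All ↔ D.Trilinear N) := by
  have h1 : D.All → D.Cubics N := fun h1 n F _ j _ => all_q D h1 _ (ft_projHyp ℚ F) j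
  have h2 : D.Cubics N → D.Trilinear N := fun h2 n F hF j hj => h2 n F hF.hom j hj
  have h3 : D.Trilinear N → D.All := fun h3 => (iff_systems D N).mpr fun a b c S hS j hj =>
    (cubicClo h).sys N h3 a b c S hS j hj
  exact ⟨⟨h1, fun h => h3 (h2 h)⟩, ⟨fun h => h2 (h1 h), h3⟩⟩

end Run7.h798.Tate.CharZero
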