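import Pool.Agent.Run7.h798.Tate.Quo
import Pool.Agent.Run7.h798.Tate.CoreB

/-!
# Domination by trilinear cubic hypersurfaces over an arbitrary field
-/

set_option autoImplicit false

open CategoryTheory AlgebraicGeometry MvPolynomial Pool.Agent.Y116.UV Pool.Agent.Q193.LT
  Pool.Agent.Q282.UK Pool.Agent.Q282.UZ Run7.h798.UV

namespace Run7.h798.Tate

variable {K : Type} [Field K]

lemma QClo.stepB {Q : ℕ → Sch K → Prop} (hQ : QClo Q) {N m : ℕ}
    (h : ∀ (a b c : ℕ) (T : Fin a → Fin b → Fin c → K), ∀ j, N ≤ j + m → Q j (bilS T))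
    (A : Type) [CommRing A] [Algebra K A] [Algebra.FiniteType K A]
    (j : ℕ) (hj : N ≤ j + (m + 2)) : Q j (aff K A) := by
  obtain ⟨Z, X, U, f, g, hX, ht, _, ⟨a, b, c, T, hX'⟩, hU, e⟩ := geomB (R := K) presents_univ True A
  have h1 : Q (j + 2) U := hQ.opened f g hX ht _ (hQ.iso (ft_aff True) hX' _ (h a b c T _ (by omega)))
  have h2 := hQ.iso hU e _ h1
  have h7 := ft_laurent (R := K) A
  exact hQ.torus A j (hQ.torus _ _ h2)

/-- **Theorem.** Over an arbitrary field `K`, a property which passes to quotients is true for all affine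
schemes of finite type and all `j` as soon as it is true for the trilinear cubic hypersurfaces over `K` (with
arbitrary coefficients) and the indices `j ≥ N`. -/
theorem QClo.all_field {Q : ℕ → Sch K → Prop} (hQ : QClo Q) (N : ℕ)
    (h : ∀ (n : ℕ) (F : Pol K n), IsTriB F → ∀ j, N ≤ j → Q j (projHyp K F)) (A : Type)
    [CommRing A] [Algebra K A] [Algebra.FiniteType K A] (j : ℕ) : Q j (aff K A) := by
  have h1 : ∀ m : ℕ, ∀ (a b c : ℕ) (T : Fin a → Fin b → Fin c → K), ∀ j, N ≤ j + 2 * m →
      Q j (bilS T) := by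
    intro m
    induction m with
    | zero => intro a b c T j hj; exact hQ.toCubicClo.bil N h a b c T j (by omega)
    | succ m ih => intro a b c T j hj; exact hQ.stepB ih _ j (by omega)
  exact hQ.stepB (h1 N) A j (by omega)

/-- **The known properties of a realization.** `h j X` is (the semisimplification is not taken) the part of
lowest weight `r - 2j` of the homology with closed supports `H_{2j-r}` of the scheme `X` over the field `K`,
for a fixed `r`, with values in a category; `le A B` means that `A` is isomorphic to a subquotient of `B`.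

* `iso`, `opened`: isomorphic schemes have isomorphic homology, and the restriction to open subschemes is
  surjective on the part of lowest weight;
* `torus`: for affine `X` the restriction `h (j+1) (X × 𝔾_m) → h j X` to the point `1` is surjective;
* `cayley`: `h j V → h (j+c) X` is injective for `V = Spec B/(f_1, …, f_c)` and
  `X = Spec B[z_1, …, z_c]/(∑ f_l z_l)`, which contains `V × 𝔸^c`;
* `cone`: for a cubic form in at least two variables `h (j+1)` of the affine cone is a subquotient of `h j` of
  the projective hypersurface;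
* `space`: for every `N` the homology of an affine space occurs in `h j'`, `j' ≥ N`, of a union of three
  hyperplanes (a trilinear cubic hypersurface). -/
structure Dom {Ob : Type 1} (le : Ob → Ob → Prop) (h : ℕ → Sch K → Ob) : Prop where
  iso : ∀ {X Y : Sch K}, FT True X → Nonempty (X ≅ Y) → ∀ j, le (h j Y) (h j X)
  opened : ∀ {Z X U : Sch K} (f : Z ⟶ X) (u : U ⟶ X), FT True X → IsTriple f u →
    ∀ j, le (h j U) (h j X)
  torus : ∀ (B : Type) [CommRing B] [Algebra K B] [Algebra.FiniteType K B] (j : ℕ),
    le (h j (aff K B)) (h (j + 1) (aff K (LaurentPolynomial B)))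
  cayley : ∀ (B : Type) [CommRing B] [Algebra K B] [Algebra.FiniteType K B] (c : ℕ)
    (f : Fin c → B) (j : ℕ), le (h j (zeroS K B f)) (h (j + c) (cayS K B f))
  cone : ∀ (n : ℕ) (F : Pol K n), 1 ≤ n → IsCubic F → ∀ j,
    le (h (j + 1) (affCone K F)) (h j (projHyp K F))
  space : ∀ (N n j : ℕ), ∃ (m : ℕ) (F : Pol K m) (j' : ℕ), IsTriB F ∧ N ≤ j' ∧
    le (h j (affSpace K n)) (h j' (projHyp K F))

theorem Dom.dominated {Ob : Type 1} {le : Ob → Ob → Prop} {h : ℕ → Sch K → Ob} (D : Dom le h)
    (refl : ∀ A, le A A) (trans : ∀ {A B C}, le A B → le B C → le A C) (N : ℕ) (A : Type)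
    [CommRing A] [Algebra K A] [Algebra.FiniteType K A] (j : ℕ) :
    ∃ (m : ℕ) (F : Pol K m) (j' : ℕ), IsTriB F ∧ N ≤ j' ∧ le (h j (aff K A)) (h j' (projHyp K F)) := by
  have h0 : QClo (K := K) fun j X => ∃ (m : ℕ) (F : Pol K m) (j' : ℕ), IsTriB F ∧ N ≤ j' ∧
      le (h j X) (h j' (projHyp K F)) :=
    { iso := by
        rintro X Y hX e j ⟨m, F, j', hF, hj, h⟩
        exact ⟨m, F, j', hF, hj, trans (D.iso hX e j) h⟩
      space := fun n j => D.space N n j
      cayley := by
        rintro B _ _ _ c f j ⟨m, F, j', hF, hj, h⟩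
        exact ⟨m, F, j', hF, hj, trans (D.cayley B c f j) h⟩
      cone := by
        rintro n F' hn hF' j ⟨m, F, j', hF, hj, h⟩
        exact ⟨m, F, j', hF, hj, trans (D.cone n F' hn hF' j) h⟩
      opened := by
        rintro Z X U f u hX ht j ⟨m, F, j', hF, hj, h⟩
        exact ⟨m, F, j', hF, hj, trans (D.opened f u hX ht j) h⟩
      torus := by
        rintro B _ _ _ j ⟨m, F, j', hF, hj, h⟩
        exact ⟨m, F, j', hF, hj, trans (D.torus B j) h⟩ }
  exact h0.all_field N (fun n F hF j hj => ⟨n, F, j, hF, hj, refl _⟩) A j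

end Run7.h798.Tate
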