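import Pool.Agent.Run7.h798.Tate.FM

/-!
# Subquotients of `H^i(X̄)` without twists and the niveau filtration of cubic hypersurfaces over `ℚ`
-/

set_option autoImplicit false

open CategoryTheory AlgebraicGeometry MvPolynomial Pool.Agent.Y116.UV Pool.Agent.Q193.LT
  Pool.Agent.Q282.UK Pool.Agent.Q282.UZ Run7.h798.UV Run7.h798.Tate.Gal

namespace Run7.h798.Tate.Eff

lemma sub_refl {E : Type} [Field E] {G : Type} [Group G] (A : GRep E G) : Subquotient A A :=
  (Onto.refl A).sub

/-- The scheme `X` over `K` is proper and smooth. -/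
def ProperSmooth {K : Type} [Field K] (X : Sch K) : Prop := IsProper X.hom ∧ Smooth X.hom

/-- **The `l`-adic cohomology of the schemes over number fields without Tate twists.** `H K i X` is the
representation `H^i(X̄, E)` of `Gal(K̄/K)`, for a proper smooth scheme `X` over a number field `K`. For a scheme
`X` of finite type over `ℚ` the representation `h i j X` is
`Gr^W_{i-2j} N_j H_{2j-i}(X̄, E)(-j)`: the part of lowest weight of the classes in the homology with closed
supports which are supported in dimension at most `j` (twisted by `-j`, it has weight `i`); for `X` smooth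
projective of pure dimension `j` it is `H^i(X̄, E)`. Known properties (`Subquotient A B`: `A` is isomorphic to
a subquotient of `B`):

* `iso`, `opened`: isomorphic schemes have isomorphic homology, and the restriction to an open subscheme is
  surjective on the part of lowest weight (take closures of the supports);
* `torus`: the restriction `h i (j+1) (X × 𝔾_m) → h i j X` to the point `1` is surjective;
* `cayley`: `h i j V → h i (j+c) X` is injective for `V = Spec B/(f_1, …, f_c)` and
  `X = Spec B[z_1, …, z_c]/(∑ f_l z_l)`, which contains `V × 𝔸^c`;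
* `cone`: for a cubic form in at least two variables `h i (j+1)` of the affine cone is a subrepresentation of
  a quotient of `h i j` of the projective hypersurface;
* `space`: the homology of an affine space occurs in the homology, of large dimension, of a union of three
  hyperplanes (a trilinear cubic hypersurface);
* `affine`: for smooth projective `Y` over `ℚ` there is an affine scheme which is a torsor under a vector
  bundle on `Y` (or on a scheme `∐ Y_a × ℙ^{d_a}` of pure dimension, `Y = ∐ Y_a`) (Jouanolou);
* `cover`: the finitely many closed subschemes of dimension at most `j` which support the classes are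
  dominated by smooth projective schemes of pure dimension `j` (Hironaka);
* `base`: a smooth projective scheme `Y` over `ℚ` has a base change `X` to `K`;
* `down`: a proper smooth scheme `X` over `K` is dominated by a smooth projective one (Chow, Hironaka), which
  is also a smooth projective scheme `Y` over `ℚ`; `H^i(X̄)` occurs in the restriction of `H^i(Ȳ)`.

`φ` is the restriction from `Gal(K̄/K)` to `Gal(ℚ̄/ℚ)`. For a representation `V` of `Gal(K̄/K)`: `geo K V` means
that `V` is finite-dimensional, continuous, irreducible and unramified outside a finite set of places;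
`hodge K V` is condition 1 of the problem (de Rham with Hodge–Tate weights `≥ 0`), and `pure K V` is
condition 2 (integral and pure of some weight at the finite places not above `l`). -/
structure Theory (E : Type) [Field E] where
  /-- the restriction of Galois groups -/
  φ : ∀ (K : Type) [Field K] [NumberField K], AbsGal K →* AbsGal ℚ
  /-- the part of lowest weight of the homology supported in dimension at most `j` -/
  h : ℕ → ℕ → Sch ℚ → GRep E (AbsGal ℚ)
  /-- the cohomology of a proper smooth scheme over a number field -/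
  H : ∀ (K : Type) [Field K] [NumberField K], ℕ → Sch K → GRep E (AbsGal K)
  iso : ∀ {X Y : Sch ℚ}, FT True X → Nonempty (X ≅ Y) → ∀ i j, Subquotient (h i j Y) (h i j X)
  opened : ∀ {Z X U : Sch ℚ} (f : Z ⟶ X) (u : U ⟶ X), FT True X → IsTriple f u →
    ∀ i j, Subquotient (h i j U) (h i j X)
  torus : ∀ (B : Type) [CommRing B] [Algebra ℚ B] [Algebra.FiniteType ℚ B] (i j : ℕ),
    Subquotient (h i j (aff ℚ B)) (h i (j + 1) (aff ℚ (LaurentPolynomial B)))
  cayley : ∀ (B : Type) [CommRing B] [Algebra ℚ B] [Algebra.FiniteType ℚ B] (c : ℕ)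
    (f : Fin c → B) (i j : ℕ), Subquotient (h i j (zeroS ℚ B f)) (h i (j + c) (cayS ℚ B f))
  cone : ∀ (n : ℕ) (F : Pol ℚ n), 1 ≤ n → IsCubic F → ∀ i j,
    Subquotient (h i (j + 1) (affCone ℚ F)) (h i j (projHyp ℚ F))
  space : ∀ (N n i j : ℕ), ∃ (m : ℕ) (F : Pol ℚ m) (j' : ℕ), IsTrilinear F ∧ N ≤ j' ∧
    Subquotient (h i j (affSpace ℚ n)) (h i j' (projHyp ℚ F))
  affine : ∀ Y : Sch ℚ, SmoothProjective Y → ∃ (A : Type) (_ : CommRing A)
    (_ : Algebra ℚ A) (_ : Algebra.FiniteType ℚ A) (j : ℕ), ∀ i,
      Subquotient (H ℚ i Y) (h i j (aff ℚ A))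
  cover : ∀ X : Sch ℚ, FT True X → ∀ i j, ∃ Y : Sch ℚ, SmoothProjective Y ∧
    Subquotient (h i j X) (H ℚ i Y)
  base : ∀ (K : Type) [Field K] [NumberField K] (Y : Sch ℚ), SmoothProjective Y →
    ∃ X : Sch K, ProperSmooth X ∧ ∀ i, Subquotient ((H ℚ i Y).res (φ K)) (H K i X)
  down : ∀ (K : Type) [Field K] [NumberField K] (X : Sch K), ProperSmooth X →
    ∃ Y : Sch ℚ, SmoothProjective Y ∧ ∀ i, Subquotient (H K i X) ((H ℚ i Y).res (φ K))
  /-- finite-dimensional, continuous, irreducible, unramified outside a finite set -/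
  geo : ∀ (K : Type) [Field K] [NumberField K], GRep E (AbsGal K) → Prop
  /-- condition 1: de Rham above `l` with Hodge–Tate weights `≥ 0` -/
  hodge : ∀ (K : Type) [Field K] [NumberField K], GRep E (AbsGal K) → Prop
  /-- condition 2: integral and pure of some weight -/
  pure : ∀ (K : Type) [Field K] [NumberField K], GRep E (AbsGal K) → Prop

variable {E : Type} [Field E] (D : Theory E)

/-- Condition 3: `V` is a subquotient of `H^i(X̄, E)` for a proper smooth scheme `X` over `K`. -/
def Theory.Origin (K : Type) [Field K] [NumberField K] (i : ℕ) (V : GRep E (AbsGal K)) : Prop :=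
  ∃ X : Sch K, ProperSmooth X ∧ Subquotient V (D.H K i X)

/-- `V` is a subquotient of the restriction to `Gal(K̄/K)` of
`Gr^W_{i-2j} N_j H_{2j-i}(C̄, E)(-j)`, for some `j ≥ N` and a cubic hypersurface `C` over `ℚ` given by a
trilinear form `∑_l z_l f_l(x, y)` in which every `f_l` is a sum of at most three monomials `x_i y_j`. -/
def Theory.Cubic (N : ℕ) (K : Type) [Field K] [NumberField K] (i : ℕ) (V : GRep E (AbsGal K)) : Prop :=
  ∃ (n : ℕ) (F : Pol ℚ n) (j : ℕ), IsTrilinear F ∧ N ≤ j ∧
    Subquotient V ((D.h i j (projHyp ℚ F)).res (D.φ K))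

/-- **The integral refinement of the Fontaine–Mazur conjecture** for `K`: for every irreducible `V` which is
unramified outside a finite set, the conditions 1, 2 and 3 are equivalent. -/
def Theory.Integral (K : Type) [Field K] [NumberField K] : Prop :=
  ∀ V : GRep E (AbsGal K), D.geo K V → (D.hodge K V ↔ D.pure K V) ∧
    (D.pure K V ↔ ∃ i, D.Origin K i V)

/-- The same with cubic hypersurfaces over `ℚ` in condition 3. -/
def Theory.IntegralCubic (N : ℕ) (K : Type) [Field K] [NumberField K] : Prop :=
  ∀ V : GRep E (AbsGal K), D.geo K V → (D.hodge K V ↔ D.pure K V) ∧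
    (D.pure K V ↔ ∃ i, D.Cubic N K i V)

lemma dominated (N i : ℕ) (A : Type) [CommRing A] [Algebra ℚ A] [Algebra.FiniteType ℚ A]
    (j : ℕ) : ∃ (m : ℕ) (F : Pol ℚ m) (j' : ℕ), IsTrilinear F ∧ N ≤ j' ∧
      Subquotient (D.h i j (aff ℚ A)) (D.h i j' (projHyp ℚ F)) := by
  have h0 : QClo (K := ℚ) fun j X => ∃ (m : ℕ) (F : Pol ℚ m) (j' : ℕ), IsTrilinear F ∧ N ≤ j' ∧
      Subquotient (D.h i j X) (D.h i j' (projHyp ℚ F)) :=
    { iso := by
        rintro X Y hX e j ⟨m, F, j', hF, hj, h⟩
        exact ⟨m, F, j', hF, hj, (D.iso hX e i j).trans h⟩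
      space := fun n j => D.space N n i j
      cayley := by
        rintro B _ _ _ c f j ⟨m, F, j', hF, hj, h⟩
        exact ⟨m, F, j', hF, hj, (D.cayley B c f i j).trans h⟩
      cone := by
        rintro n F' hn hF' j ⟨m, F, j', hF, hj, h⟩
        exact ⟨m, F, j', hF, hj, (D.cone n F' hn hF' i j).trans h⟩
      opened := by
        rintro Z X U f u hX ht j ⟨m, F, j', hF, hj, h⟩
        exact ⟨m, F, j', hF, hj, (D.opened f u hX ht i j).trans h⟩
      torus := by
        rintro B _ _ _ j ⟨m, F, j', hF, hj, h⟩
        exact ⟨m, F, j', hF, hj, (D.torus B i j).trans h⟩ }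
  exact h0.all short_rat N (fun n F hF j hj => ⟨n, F, j, hF, hj, sub_refl _⟩) A j

theorem origin_iff (N : ℕ) (K : Type) [Field K] [NumberField K] (i : ℕ) (V : GRep E (AbsGal K)) :
    D.Origin K i V ↔ D.Cubic N K i V := by
  constructor
  · rintro ⟨X, hX, hV⟩
    obtain ⟨Y, hY, hd⟩ := D.down K X hX
    obtain ⟨A, _, _, _, j, hA⟩ := D.affine Y hY
    obtain ⟨m, F, j', hF, hj, h⟩ := dominated D N i A j
    exact ⟨m, F, j', hF, hj, hV.trans ((hd i).trans (((hA i).trans h).res (D.φ K)))⟩
  · rintro ⟨n, F, j, hF, _, hV⟩
    obtain ⟨Y, hY, hq⟩ := D.cover _ (ft_projHyp ℚ F) i j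
    obtain ⟨X, hX, hb⟩ := D.base K Y hY
    exact ⟨X, hX, hV.trans ((hq.res (D.φ K)).trans (hb i))⟩

theorem integral_iff (N : ℕ) (K : Type) [Field K] [NumberField K] :
    D.Integral K ↔ D.IntegralCubic N K := by
  refine forall_congr' fun V => imp_congr_right fun _ => and_congr_right fun _ => ?_
  rw [exists_congr fun i => origin_iff D N K i V]

end Run7.h798.Tate.Eff
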