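import Pool.Agent.Run7.h798.Tate.Gal

/-!
# Representations which come from geometry and cubic hypersurfaces over `ℚ`
-/

set_option autoImplicit false

open CategoryTheory AlgebraicGeometry MvPolynomial Pool.Agent.Y116.UV Pool.Agent.Q193.LT
  Pool.Agent.Q282.UK Pool.Agent.Q282.UZ Run7.h798.UV

namespace Run7.h798.Tate.Gal

variable {E : Type} [Field E] {G : Type} [Group G] {G' : Type} [Group G']

/-- The restriction of a representation along `φ : G → G'`. -/
def GRep.res (φ : G →* G') (A : GRep E G') : GRep E G where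
  V := A.V
  ρ := A.ρ.comp φ

/-- `A` is isomorphic to a subquotient of `B`: there is a stable subspace `R` of `B × A` which is the graph
of a surjective map from a subspace of `B` onto `A`. -/
def Subquotient (A B : GRep E G) : Prop :=
  ∃ R : Submodule E (B.V × A.V), (∀ g x, x ∈ R → (B.act g x.1, A.act g x.2) ∈ R) ∧
    (∀ a, (0, a) ∈ R → a = 0) ∧ ∀ a, ∃ b, (b, a) ∈ R

lemma Onto.sub {A B : GRep E G} (h : Onto B A) : Subquotient A B := by
  obtain ⟨q, hq, hc⟩ := h
  refine ⟨LinearMap.graph q, fun g x hx => ?_, fun a ha => ?_, fun a => ?_⟩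
  · rw [LinearMap.mem_graph_iff] at hx ⊢
    change A.act g x.2 = q (B.act g x.1)
    rw [hc, hx]
  · rw [LinearMap.mem_graph_iff] at ha
    exact ha.trans (map_zero q)
  · obtain ⟨b, hb⟩ := hq a
    exact ⟨b, (LinearMap.mem_graph_iff q (b, a)).mpr hb.symm⟩

lemma Subquotient.trans {A B C : GRep E G} (h : Subquotient A B) (h' : Subquotient B C) :
    Subquotient A C := by
  obtain ⟨R, h1, h2, h3⟩ := h
  obtain ⟨S, h4, h5, h6⟩ := h'
  refine ⟨{ carrier := {x | ∃ b, (x.1, b) ∈ S ∧ (b, x.2) ∈ R}
            zero_mem' := ⟨0, S.zero_mem, R.zero_mem⟩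
            add_mem' := ?_
            smul_mem' := ?_ }, ?_, ?_, ?_⟩
  · rintro x y ⟨b, hb, hb'⟩ ⟨c, hc, hc'⟩
    exact ⟨b + c, S.add_mem hb hc, R.add_mem hb' hc'⟩
  · rintro e x ⟨b, hb, hb'⟩
    exact ⟨e • b, S.smul_mem e hb, R.smul_mem e hb'⟩
  · rintro g x ⟨b, hb, hb'⟩
    exact ⟨B.act g b, h4 g _ hb, h1 g _ hb'⟩
  · rintro a ⟨b, hb, hb'⟩
    have h7 : b = 0 := h5 b hb
    rw [h7] at hb'
    exact h2 a hb'
  · intro a
    obtain ⟨b, hb⟩ := h3 a
    obtain ⟨c, hc⟩ := h6 b
    exact ⟨c, b, hc, hb⟩

lemma Subquotient.res (φ : G →* G') {A B : GRep E G'} (h : Subquotient A B) :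
    Subquotient (A.res φ) (B.res φ) := by
  obtain ⟨R, h1, h2, h3⟩ := h
  exact ⟨R, fun g x hx => h1 (φ g) x hx, h2, h3⟩

lemma Onto.comp {A B C : GRep E G} (h : Onto A B) (h' : Onto B C) : Onto A C := by
  obtain ⟨q, hq, hc⟩ := h
  obtain ⟨q', hq', hc'⟩ := h'
  exact ⟨q' ∘ₗ q, hq'.comp hq, fun g v => by
    change q' (q (A.act g v)) = C.act g (q' (q v))
    rw [hc, hc']⟩

lemma Onto.refl (A : GRep E G) : Onto A A := ⟨LinearMap.id, Function.surjective_id, fun _ _ => rfl⟩

/-- **Representations which come from geometry.** Further known properties of the cohomology of schemes: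

* `φ`: the restriction from the Galois group of a number field `K` to the Galois group of `ℚ` (an
  embedding of `Gal(K̄/K)` as a subgroup of finite index);
* `space`: the homology of affine spaces is zero or spanned by a fundamental class; the same
  one-dimensional representation is a quotient of the homology, of large dimension, of a union of three
  hyperplanes (a trilinear cubic hypersurface);
* `base`: a smooth projective scheme `Y` over `ℚ` has a base change `X` to `K`, and its representations are
  the restrictions of those of `Y`;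
* `down`: a smooth projective scheme `X` over `K` is also a smooth projective scheme `Y` over `ℚ`, and the
  representations for `X` are quotients of the restrictions of those for `Y` (which are induced);
* `geo K V`: the representation `V` of `Gal(K̄/K)` is finite-dimensional, continuous, irreducible,
  unramified at almost all places and de Rham at the places above `p`. -/
structure Geometry (D : Theory E) where
  /-- the restriction of Galois groups -/
  φ : ∀ (K : Type) [Field K] [NumberField K], AbsGal K →* AbsGal ℚ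
  space : ∀ (N n : ℕ) (r : ℤ) (j : ℕ), ∃ (m : ℕ) (F : Pol ℚ m) (j' : ℕ), IsTrilinear F ∧ N ≤ j' ∧
    Onto (D.h r j' (projHyp ℚ F)) (D.h r j (affSpace ℚ n))
  base : ∀ (K : Type) [Field K] [NumberField K] (Y : Sch ℚ), SmoothProjective Y →
    ∃ X : Sch K, SmoothProjective X ∧ ∀ r j, Onto (D.H K r j X) ((D.h r j Y).res (φ K))
  down : ∀ (K : Type) [Field K] [NumberField K] (X : Sch K), SmoothProjective X →
    ∃ Y : Sch ℚ, SmoothProjective Y ∧ ∀ r j, Onto ((D.h r j Y).res (φ K)) (D.H K r j X)
  /-- finite-dimensional, continuous, irreducible, unramified at almost all places and de Rham at the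
  places above `p` -/
  geo : ∀ (K : Type) [Field K] [NumberField K], GRep E (AbsGal K) → Prop

variable {D : Theory E} (L : Geometry D)

/-- `V` comes from geometry: it is a subquotient of the representation `H^i(X̄, E)(m)` for a smooth
projective scheme `X` over `K` (here `H K r j X = H^i(X̄, E)(d-j)`; all twists occur, since `X` can be
replaced by `X × ℙ^n`). -/
def Theory.Origin (D : Theory E) (K : Type) [Field K] [NumberField K] (V : GRep E (AbsGal K)) : Prop :=
  ∃ (X : Sch K) (r : ℤ) (j : ℕ), SmoothProjective X ∧ Subquotient V (D.H K r j X)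

/-- `V` comes from a cubic hypersurface over `ℚ`: it is a subquotient of the restriction to `Gal(K̄/K)` of
the part of lowest weight of the homology `H_{2j-r}` of the cubic hypersurface over `ℚ` given by a trilinear
form `∑_l z_l f_l(x, y)` in which every `f_l` is a sum of at most three monomials `x_i y_j`, for some
`j ≥ N`. -/
def Geometry.CubicOrigin (N : ℕ) (K : Type) [Field K] [NumberField K] (V : GRep E (AbsGal K)) : Prop :=
  ∃ (n : ℕ) (F : Pol ℚ n) (r : ℤ) (j : ℕ), IsTrilinear F ∧ N ≤ j ∧
    Subquotient V ((D.h r j (projHyp ℚ F)).res (L.φ K))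

/-- **The Fontaine–Mazur conjecture** for the number field `K`: the irreducible geometric representations of
`Gal(K̄/K)` come from geometry. -/
def Geometry.FontaineMazur (K : Type) [Field K] [NumberField K] : Prop :=
  ∀ V : GRep E (AbsGal K), L.geo K V → D.Origin K V

/-- The irreducible geometric representations of `Gal(K̄/K)` come from cubic hypersurfaces over `ℚ`. -/
def Geometry.FontaineMazurCubic (N : ℕ) (K : Type) [Field K] [NumberField K] : Prop :=
  ∀ V : GRep E (AbsGal K), L.geo K V → L.CubicOrigin N K V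

include L in
/-- Every `h r j X` with `X` affine is a quotient of `h r j'` of a trilinear cubic hypersurface. -/
lemma dominated (N : ℕ) (r : ℤ) (A : Type) [CommRing A] [Algebra ℚ A] [Algebra.FiniteType ℚ A]
    (j : ℕ) : ∃ (m : ℕ) (F : Pol ℚ m) (j' : ℕ), IsTrilinear F ∧ N ≤ j' ∧
      Onto (D.h r j' (projHyp ℚ F)) (D.h r j (aff ℚ A)) := by
  have h0 : QClo (K := ℚ) fun j X => ∃ (m : ℕ) (F : Pol ℚ m) (j' : ℕ), IsTrilinear F ∧ N ≤ j' ∧
      Onto (D.h r j' (projHyp ℚ F)) (D.h r j X) :=
    { iso := by
        rintro X Y hX e j ⟨m, F, j', hF, hj, h⟩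
        exact ⟨m, F, j', hF, hj, h.comp (D.iso hX e r j)⟩
      space := fun n j => L.space N n r j
      cayley := by
        rintro B _ _ _ c f j ⟨m, F, j', hF, hj, h⟩
        exact ⟨m, F, j', hF, hj, h.comp (D.cayley B c f r j)⟩
      cone := by
        rintro n F' hn hF' j ⟨m, F, j', hF, hj, h⟩
        exact ⟨m, F, j', hF, hj, h.comp (D.cone n F' hn hF' r j)⟩
      opened := by
        rintro Z X U i u hX ht j ⟨m, F, j', hF, hj, h⟩
        exact ⟨m, F, j', hF, hj, h.comp (D.opened i u hX ht r j)⟩
      torus := by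
        rintro B _ _ _ j ⟨m, F, j', hF, hj, h⟩
        exact ⟨m, F, j', hF, hj, h.comp (D.torus B r j)⟩ }
  exact h0.all short_rat N (fun n F hF j hj => ⟨n, F, j, hF, hj, Onto.refl _⟩) A j

theorem origin_iff (N : ℕ) (K : Type) [Field K] [NumberField K] (V : GRep E (AbsGal K)) :
    D.Origin K V ↔ L.CubicOrigin N K V := by
  constructor
  · rintro ⟨X, r, j, hX, hV⟩
    obtain ⟨Y, hY, hd⟩ := L.down K X hX
    obtain ⟨A, _, _, _, e, hA⟩ := D.affine Y hY
    obtain ⟨m, F, j', hF, hj, h⟩ := dominated L N r A (j + e)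
    exact ⟨m, F, r, j', hF, hj, hV.trans ((hd r j).sub.trans ((h.comp (hA r j)).sub.res (L.φ K)))⟩
  · rintro ⟨n, F, r, j, hF, _, hV⟩
    obtain ⟨Y, hY, hq⟩ := D.cover _ (ft_projHyp ℚ F)
    obtain ⟨X, hX, hb⟩ := L.base K Y hY
    exact ⟨X, r, j, hX, hV.trans (((hq r j).sub.res (L.φ K)).trans (hb r j).sub)⟩

theorem fm_iff (N : ℕ) (K : Type) [Field K] [NumberField K] :
    L.FontaineMazur K ↔ L.FontaineMazurCubic N K :=
  forall_congr' fun V => imp_congr_right fun _ => origin_iff L N K V

end Run7.h798.Tate.Gal
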