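import Pool.Agent.Run7.h798.Tate.Quo
import Mathlib.LinearAlgebra.Semisimple
import Mathlib.FieldTheory.Perfect

/-!
# Semisimplicity of Frobenius and cubic hypersurfaces over the prime field
-/

set_option autoImplicit false

open CategoryTheory AlgebraicGeometry MvPolynomial Pool.Agent.Y116.UV Pool.Agent.Q193.LT
  Pool.Agent.Q282.UK Pool.Agent.Q282.UZ Run7.h798.UV

namespace Run7.h798.Tate.Frob

/-- A finite-dimensional vector space over `E` with an endomorphism `F` (the Frobenius). -/
structure FrobMod (E : Type) [Field E] where
  /-- the underlying space -/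
  V : Type
  /-- the addition -/
  [grp : AddCommGroup V]
  /-- the scalar multiplication -/
  [mod : Module E V]
  [fin : FiniteDimensional E V]
  /-- the endomorphism -/
  F : Module.End E V

attribute [instance] FrobMod.grp FrobMod.mod FrobMod.fin

variable {E : Type} [Field E]

/-- There is a surjective linear map `A → B` which commutes with `F`. -/
def Onto (A B : FrobMod E) : Prop :=
  ∃ q : A.V →ₗ[E] B.V, Function.Surjective q ∧ ∀ v, q (A.F v) = B.F (q v)

/-- The same space with the endomorphism `F^d`. -/
def FrobMod.pow (A : FrobMod E) (d : ℕ) : FrobMod E where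
  V := A.V
  F := A.F ^ d

/-- `F` is semisimple (every stable subspace has a stable complement). -/
def FrobMod.Semisimple (A : FrobMod E) : Prop := A.F.IsSemisimple

lemma Onto.ss {A B : FrobMod E} (h : Onto A B) (hA : A.Semisimple) : B.Semisimple := by
  obtain ⟨q, hq, hc⟩ := h
  refine Module.End.isSemisimple_of_squarefree_aeval_eq_zero
    (Module.End.IsSemisimple.minpoly_squarefree hA) ?_
  have h1 : ∀ (P : Polynomial E) (v : A.V),
      q (Polynomial.aeval A.F P v) = Polynomial.aeval B.F P (q v) := by
    intro P
    induction P using Polynomial.induction_on' with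
    | add P Q hP hQ => intro v; simp only [map_add, LinearMap.add_apply, hP, hQ]
    | monomial n a =>
      intro v
      simp only [Polynomial.aeval_monomial, Module.algebraMap_end_eq_smul_id,
        LinearMap.smul_apply, map_smul, Module.End.mul_apply, LinearMap.id_coe, id]
      congr 1
      induction n generalizing v with
      | zero => simp
      | succ n ih =>
        rw [pow_succ, pow_succ, Module.End.mul_apply, Module.End.mul_apply, ih, hc]
  ext w
  obtain ⟨v, rfl⟩ := hq w
  rw [← h1, minpoly.aeval]
  simp

lemma FrobMod.Semisimple.pow [CharZero E] {A : FrobMod E} (hA : A.Semisimple) (d : ℕ) :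
    (A.pow d).Semisimple := Module.End.IsSemisimple.pow hA d

/-- **The cohomology of schemes in characteristic `p` with the Frobenius endomorphism.** For a scheme `X`
over the prime field `h r j X` is the part of lowest weight `r - 2j` of the homology with closed supports
`H_{2j-r}(X̄, E)`, twisted by `-j`: a space of weight `r`; for `X` smooth projective of dimension `d` it is
`H^i(X̄, E)(d-j)` with `i = 2(d-j) + r`. For a smooth projective scheme `X` over a finite field `K` of
characteristic `p` the space `H K r j X` is `H^i(X̄, E)(d-j)` with the Frobenius of `K`. Known properties: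

* `iso`, `opened`: isomorphic schemes have isomorphic homology, and the restriction to open subschemes is
  surjective on the part of lowest weight;
* `torus`: for affine `X` the space `h r j X` is a direct factor of `h r (j+1) (X × 𝔾_m)`;
* `cayley`: for elements `f_1, …, f_c` of a finitely generated algebra `B` the space
  `h r j (Spec B/(f_1, …, f_c))` is a direct factor of `h r (j+c) (Spec B[z_1, …, z_c]/(∑ f_l z_l))`;
* `cone`: for a cubic form in at least two variables there is a surjection from the space `h r j V` of the
  projective hypersurface to the space `h r (j+1) C` of the affine cone;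
* `space`: Frobenius is semisimple on the (at most one-dimensional) homology of affine spaces;
* `affine`: for every smooth projective `X` there is an affine scheme which is a torsor under a vector
  bundle of rank `e` on `X` (Jouanolou);
* `cover`: every `X` has a compactification which is dominated by a smooth projective scheme `Y` (de Jong),
  and `h r j Y → h r j X` is surjective (by weights);
* `prime`: for smooth projective schemes over the prime field both definitions agree;
* `field`: a smooth projective scheme `X` over a finite field `K` is also a smooth projective scheme `Y`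
  over the prime field, and the space for `X` with the Frobenius of `K` is a direct factor of the space for
  `Y` with the power `F^d` of Frobenius, `d = [K : 𝔽_p]`. -/
structure Theory (p : ℕ) [Fact p.Prime] (E : Type) [Field E] where
  /-- the part of lowest weight of the homology of a scheme over the prime field -/
  h : ℤ → ℕ → Sch (ZMod p) → FrobMod E
  /-- the cohomology of a smooth projective scheme over a finite field -/
  H : ∀ (K : Type) [Field K] [CharP K p] [Finite K], ℤ → ℕ → Sch K → FrobMod E
  iso : ∀ {X Y : Sch (ZMod p)}, FT True X → Nonempty (X ≅ Y) → ∀ r j, Onto (h r j X) (h r j Y)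
  opened : ∀ {Z X U : Sch (ZMod p)} (i : Z ⟶ X) (u : U ⟶ X), FT True X → IsTriple i u →
    ∀ r j, Onto (h r j X) (h r j U)
  torus : ∀ (B : Type) [CommRing B] [Algebra (ZMod p) B] [Algebra.FiniteType (ZMod p) B] (r : ℤ)
    (j : ℕ), Onto (h r (j + 1) (aff (ZMod p) (LaurentPolynomial B))) (h r j (aff (ZMod p) B))
  cayley : ∀ (B : Type) [CommRing B] [Algebra (ZMod p) B] [Algebra.FiniteType (ZMod p) B] (c : ℕ)
    (f : Fin c → B) (r : ℤ) (j : ℕ), Onto (h r (j + c) (cayS (ZMod p) B f)) (h r j (zeroS (ZMod p) B f))
  cone : ∀ (n : ℕ) (F : Pol (ZMod p) n), 1 ≤ n → IsCubic F → ∀ r j,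
    Onto (h r j (projHyp (ZMod p) F)) (h r (j + 1) (affCone (ZMod p) F))
  space : ∀ (n : ℕ) (r : ℤ) (j : ℕ), (h r j (affSpace (ZMod p) n)).Semisimple
  affine : ∀ X : Sch (ZMod p), SmoothProjective X → ∃ (A : Type) (_ : CommRing A)
    (_ : Algebra (ZMod p) A) (_ : Algebra.FiniteType (ZMod p) A) (e : ℕ), ∀ r j,
      Onto (h r (j + e) (aff (ZMod p) A)) (h r j X)
  cover : ∀ X : Sch (ZMod p), FT True X → ∃ Y : Sch (ZMod p), SmoothProjective Y ∧
    ∀ r j, Onto (h r j Y) (h r j X)
  prime : ∀ X : Sch (ZMod p), SmoothProjective X → ∀ r j, Onto (H (ZMod p) r j X) (h r j X)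
  field : ∀ (K : Type) [Field K] [CharP K p] [Finite K] (X : Sch K), SmoothProjective X →
    ∃ (Y : Sch (ZMod p)) (d : ℕ), SmoothProjective Y ∧ ∀ r j, Onto ((h r j Y).pow d) (H K r j X)

variable {p : ℕ} [Fact p.Prime] (D : Theory p E)

/-- **Semisimplicity of Frobenius** on the cohomology `H^i(X̄, E)(d-j)`, `i = 2(d-j) + r`, of all smooth
projective schemes over all finite fields of characteristic `p` (all degrees congruent to `r` modulo
`2`). -/
def Theory.SmoothProj (r : ℤ) : Prop :=
  ∀ (K : Type) [Field K] [CharP K p] [Finite K] (X : Sch K), SmoothProjective X → ∀ j,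
    (D.H K r j X).Semisimple

/-- Frobenius is semisimple on the part of lowest weight of the homology `H_{2j-r}` of all separated
schemes of finite type over the prime field. -/
def Theory.All (r : ℤ) : Prop := ∀ X : Sch (ZMod p), FT True X → ∀ j, (D.h r j X).Semisimple

/-- The same for the cubic hypersurfaces in the projective spaces over the prime field and `j ≥ N`. -/
def Theory.Cubics (r : ℤ) (N : ℕ) : Prop :=
  ∀ (n : ℕ) (F : Pol (ZMod p) n), IsCubic F → ∀ j, N ≤ j → (D.h r j (projHyp (ZMod p) F)).Semisimple

/-- The same for the cubic hypersurfaces given by trilinear forms `∑_l z_l f_l(x, y)` in which every `f_l`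
is a sum of at most three monomials `x_i y_j`. -/
def Theory.Trilinear (r : ℤ) (N : ℕ) : Prop :=
  ∀ (n : ℕ) (F : Pol (ZMod p) n), IsTrilinear F → ∀ j, N ≤ j →
    (D.h r j (projHyp (ZMod p) F)).Semisimple

lemma qclo (r : ℤ) : QClo (K := ZMod p) fun j X => (D.h r j X).Semisimple where
  iso hX e j h := (D.iso hX e r j).ss h
  space n j := D.space n r j
  cayley B _ _ _ c f j hW := (D.cayley B c f r j).ss hW
  cone n F hn hF j hV := (D.cone n F hn hF r j).ss hV
  opened i u hX ht j hX' := (D.opened i u hX ht r j).ss hX'
  torus B _ _ _ j h := (D.torus B r j).ss h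

theorem main [CharZero E] (r : ℤ) (N : ℕ) :
    [D.SmoothProj r, D.All r, D.Cubics r N, D.Trilinear r N].TFAE := by
  tfae_have 1 → 2 := by
    intro h X hX j
    obtain ⟨Y, hY, hq⟩ := D.cover X hX
    exact (hq r j).ss ((D.prime Y hY r j).ss (h (ZMod p) Y hY j))
  tfae_have 2 → 3 := fun h n F _ j _ => h _ (ft_projHyp (ZMod p) F) j
  tfae_have 3 → 4 := fun h n F hF j hj => h n F hF.hom j hj
  tfae_have 4 → 1 := by
    intro h K _ _ _ X hX j
    have hR : Function.Surjective (Int.cast : ℤ → ZMod p) := ZMod.intCast_surjective
    obtain ⟨Y, d, hY, hq⟩ := D.field K X hX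
    obtain ⟨A, _, _, _, e, hA⟩ := D.affine Y hY
    exact (hq r j).ss (((hA r j).ss ((qclo D r).all (short_presents hR) N h A (j + e))).pow d)
  tfae_finish

end Run7.h798.Tate.Frob
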