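import Pool.Agent.Run7.h798.Tate.CoreB
import Mathlib.CategoryTheory.Abelian.Exact
import Mathlib.Algebra.Homology.ShortComplex.Exact

/-!
# Full realization functors of semisimple categories of motives and cubic hypersurfaces
-/

set_option autoImplicit false

open CategoryTheory AlgebraicGeometry MvPolynomial Pool.Agent.Y116.UV Pool.Agent.Q193.LT
  Pool.Agent.Q282.UK Pool.Agent.Q282.UZ Run7.h798.UV

universe v u v' u'

namespace Run7.h798.Tate.Full

variable {M : Type u} [Category.{v} M] [Abelian M]

/-- `A` is a direct factor of `B`. -/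
def Factor (A B : M) : Prop := ∃ (s : A ⟶ B) (r : B ⟶ A), s ≫ r = 𝟙 A

/-- The sequence `A → B → C → 0` is exact. -/
def RightExact {A B C : M} (f : A ⟶ B) (g : B ⟶ C) : Prop :=
  Epi g ∧ ∃ w : f ≫ g = 0, (ShortComplex.mk f g w).Exact

/-- Every epimorphism splits. -/
def Semisimple (M : Type u) [Category.{v} M] : Prop :=
  ∀ {A B : M} (q : A ⟶ B), Epi q → ∃ s : B ⟶ A, s ≫ q = 𝟙 B

/-- **A theory of motives** over the field `k`, with values in the abelian category `M` of pure motives.
For a scheme `X` over `k` and `j ≥ 0` the object `h j X` is the motive of weight zero of the part of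
lowest weight of `H_{2j}(X)`, twisted by `j`; so for smooth projective `X` of dimension `d` the space
`Hom(𝟙, h j X)` is the space of the classes of codimension `d - j` on `X` which are morphisms of motives.
Known properties:

* `semisimple`: the category `M` is semisimple;
* `iso`: isomorphic schemes have isomorphic motives;
* `exact`: localization sequences for closed subschemes (by weights);
* `torus`: for affine `X` the motive `h j X` is a direct factor of `h (j+1) (X × 𝔾_m)`;
* `cayley`: for elements `f_1, …, f_c` of a finitely generated algebra `B` the motive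
  `h j (Spec B/(f_1, …, f_c))` is a direct factor of `h (j+c) (Spec B[z_1, …, z_c]/(∑ f_l z_l))`; this is
  the splitting `M^c(W) = M^c(Z)(c)[2c] ⊕ M^c(U)(c-1)[2c-2]` for `W : ∑ f_l z_l = 0` in
  `Spec B × 𝔸^c`, the closed subscheme `Z : f_1 = ⋯ = f_c = 0` of `Spec B` and its complement `U`;
* `cone`: for a cubic form in at least two variables there is an epimorphism from the motive `h j V` of
  the projective hypersurface to the motive `h (j+1) C` of the affine cone (`C` minus the vertex is the
  complement of the zero section in a line bundle on `V`). -/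
structure Theory (k : Type) [Field k] (M : Type u) [Category.{v} M] [Abelian M] where
  /-- the unit motive -/
  one : M
  /-- the motive of weight zero of the lowest weight part of `H_{2j}(X)(j)` -/
  h : ℕ → Sch k → M
  semisimple : Semisimple M
  iso : ∀ {X Y : Sch k}, FT True X → Nonempty (X ≅ Y) → ∀ j, Nonempty (h j X ≅ h j Y)
  exact : ∀ {Z X U : Sch k} (i : Z ⟶ X) (u : U ⟶ X), FT True X → IsTriple i u →
    ∀ j, ∃ (f : h j Z ⟶ h j X) (g : h j X ⟶ h j U), RightExact f g
  torus : ∀ (B : Type) [CommRing B] [Algebra k B] [Algebra.FiniteType k B] (j : ℕ),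
    Factor (h j (aff k B)) (h (j + 1) (aff k (LaurentPolynomial B)))
  cayley : ∀ (B : Type) [CommRing B] [Algebra k B] [Algebra.FiniteType k B] (c : ℕ) (f : Fin c → B)
    (j : ℕ), Factor (h j (zeroS k B f)) (h (j + c) (cayS k B f))
  cone : ∀ (n : ℕ) (F : Pol k n), 1 ≤ n → IsCubic F → ∀ j,
    ∃ q : h j (projHyp k F) ⟶ h (j + 1) (affCone k F), Epi q

variable {W : Type u'} [Category.{v'} W] [Preadditive W] (H : M ⥤ W)

/-- Every morphism `H(A) → H(B)` comes from a morphism `A → B`. -/
def FullAt (A B : M) : Prop := ∀ y : H.obj A ⟶ H.obj B, ∃ x : A ⟶ B, H.map x = y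

/-- `H` is full on the morphisms `𝟙 → h j X`: the Hodge classes in the lowest weight part of `H_{2j}(X)`
are absolute Hodge classes, if `H` is the Hodge realization of motives for absolute Hodge cycles. -/
def Theory.ClassesAt {k : Type} [Field k] (D : Theory k M) (j : ℕ) (X : Sch k) : Prop :=
  FullAt H D.one (D.h j X)

/-- `H` is full on the classes of affine spaces, and the spaces of morphisms of motives and of their
realizations are quotients of the spaces of classes on schemes (`Hom(A, B)` is a direct factor of the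
space of classes on a smooth projective scheme). -/
structure Theory.Rigid {k : Type} [Field k] (D : Theory k M) : Prop where
  space : ∀ n j : ℕ, D.ClassesAt H j (affSpace k n)
  hom : ∀ A B : M, ∃ (X : Sch k) (j : ℕ) (β : (D.one ⟶ D.h j X) → (A ⟶ B))
    (β' : (H.obj D.one ⟶ H.obj (D.h j X)) → (H.obj A ⟶ H.obj B)), FT True X ∧
      Function.Surjective β' ∧ ∀ x, H.map (β x) = β' (H.map x)

lemma FullAt.of_factor {A B C : M} (h : Factor B C) (hC : FullAt H A C) : FullAt H A B := by
  obtain ⟨s, r, h⟩ := h
  intro y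
  obtain ⟨x, hx⟩ := hC (y ≫ H.map s)
  refine ⟨x ≫ r, ?_⟩
  rw [H.map_comp, hx, Category.assoc, ← H.map_comp, h, H.map_id, Category.comp_id]

lemma FullAt.of_epi {A B C : M} (hs : Semisimple M) {q : C ⟶ B} (hq : Epi q)
    (hC : FullAt H A C) : FullAt H A B := by
  obtain ⟨s, hs⟩ := hs q hq
  exact FullAt.of_factor H ⟨s, q, hs⟩ hC

lemma FullAt.mid [H.Additive] {X A B C : M} (hs : Semisimple M)
    {f : A ⟶ B} {g : B ⟶ C} (h : RightExact f g) (hA : FullAt H X A) (hC : FullAt H X C) :
    FullAt H X B := by
  obtain ⟨hg, w, hex⟩ := h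
  obtain ⟨s, hsg⟩ := hs g hg
  have h1 : Epi (Limits.kernel.lift g f w) := (ShortComplex.exact_iff_epi_kernel_lift _).mp hex
  obtain ⟨u₀, hu₀⟩ := hs _ h1
  have hd : (𝟙 B - g ≫ s) ≫ g = 0 := by
    rw [Preadditive.sub_comp, Category.id_comp, Category.assoc, hsg, Category.comp_id, sub_self]
  let u : B ⟶ A := Limits.kernel.lift g (𝟙 B - g ≫ s) hd ≫ u₀
  have hu : u ≫ f + g ≫ s = 𝟙 B := by
    have h2 : u ≫ f = 𝟙 B - g ≫ s := by
      have h3 : f = Limits.kernel.lift g f w ≫ Limits.kernel.ι g :=
        (Limits.kernel.lift_ι _ _ _).symm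
      conv_lhs => rw [h3]
      simp only [u, Category.assoc]
      rw [← Category.assoc u₀, hu₀, Category.id_comp, Limits.kernel.lift_ι]
    rw [h2, sub_add_cancel]
  intro y
  obtain ⟨a, ha⟩ := hA (y ≫ H.map u)
  obtain ⟨c, hc⟩ := hC (y ≫ H.map g)
  refine ⟨a ≫ f + c ≫ s, ?_⟩
  rw [H.map_add, H.map_comp, H.map_comp, ha, hc, Category.assoc, Category.assoc, ← H.map_comp,
    ← H.map_comp, ← Preadditive.comp_add, ← H.map_add, hu, H.map_id, Category.comp_id]

variable {k : Type} [Field k] {D : Theory k M}

lemma homClo [H.Additive] (hR : D.Rigid H) : HomClo (K := k) fun j X => D.ClassesAt H j X where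
  iso hX e j h := by
    obtain ⟨e⟩ := D.iso hX e j
    exact FullAt.of_factor H ⟨e.inv, e.hom, e.inv_hom_id⟩ h
  space n j := hR.space n j
  cayley B _ _ _ c f j hW := FullAt.of_factor H (D.cayley B c f j) hW
  cone n F hn hF j hV := by
    obtain ⟨q, hq⟩ := D.cone n F hn hF j
    exact FullAt.of_epi H D.semisimple hq hV
  total i u hX ht j hZ hU := by
    obtain ⟨f, g, h⟩ := D.exact i u hX ht j
    exact FullAt.mid H D.semisimple h hZ hU
  opened i u hX ht j hX' := by
    obtain ⟨f, g, h⟩ := D.exact i u hX ht j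
    exact FullAt.of_epi H D.semisimple h.1 hX'
  torus B _ _ _ j h := FullAt.of_factor H (D.torus B j) h

/-- `H` is full on the classes of the cubic hypersurfaces in the projective spaces over `k`, in the
dimensions `j ≥ N`. -/
def Theory.Cubics (D : Theory k M) (N : ℕ) : Prop :=
  ∀ (n : ℕ) (F : Pol k n), IsCubic F → ∀ j, N ≤ j → D.ClassesAt H j (projHyp k F)

/-- The same for the cubic hypersurfaces given by trilinear forms `∑ T_{ijl} x_i y_j z_l`. -/
def Theory.Trilinear (D : Theory k M) (N : ℕ) : Prop :=
  ∀ (n : ℕ) (F : Pol k n), IsTriB F → ∀ j, N ≤ j → D.ClassesAt H j (projHyp k F)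

/-- `H` is full on the classes of all separated schemes of finite type over `k`. -/
def Theory.AllClasses (D : Theory k M) : Prop :=
  ∀ X : Sch k, FT True X → ∀ j, D.ClassesAt H j X

theorem main [H.Additive] (hR : D.Rigid H) (N : ℕ) :
    [H.Full, D.AllClasses H, D.Cubics H N, D.Trilinear H N].TFAE := by
  tfae_have 1 → 2 := fun h X _ j y => H.map_surjective y
  tfae_have 2 → 3 := fun h n F _ j _ => h _ (ft_projHyp k F) j
  tfae_have 3 → 4 := fun h n F hF j hj => h n F hF.hom j hj
  tfae_have 4 → 1 := by
    intro h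
    have h1 := (homClo H hR).all_field N h
    refine ⟨fun {A B} => ?_⟩
    intro y
    obtain ⟨X, j, β, β', hX, hβ, hc⟩ := hR.hom A B
    obtain ⟨z, rfl⟩ := hβ y
    obtain ⟨x, rfl⟩ := h1 X hX j z
    exact ⟨β x, hc x⟩
  tfae_finish

end Run7.h798.Tate.Full
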