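import Pool.Agent.Run7.h798.Tate.AH
import Mathlib.FieldTheory.IsAlgClosed.AlgebraicClosure

/-!
# Periods of Hodge structures with multiplication and cubic hypersurfaces over `ℚ`
-/

set_option autoImplicit false

open CategoryTheory AlgebraicGeometry MvPolynomial Pool.Agent.Y116.UV Pool.Agent.Q193.LT
  Pool.Agent.Q282.UK Pool.Agent.Q282.UZ Run7.h798.UV Run7.h798.Tate.AH

namespace Run7.h798.Tate.GD

/-- The field of algebraic numbers. -/
abbrev Qbar : Type := AlgebraicClosure ℚ

/-- **Betti and de Rham cohomology over `ℚ̄`.** An object of the category `Hdg` is a polarizable Hodge structure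
`H_B` over `ℚ` together with a vector space `H_dR` over `ℚ̄`, with its Hodge filtration, and the comparison
isomorphism; morphisms respect all this, and the category is semisimple. For a smooth projective scheme `X` over
`ℚ̄` the object `H m X` is the cohomology in degree `m`. For a scheme `X` over `ℚ` the object `h r j X` is the part
of lowest weight `r - 2j` of the homology with closed supports `H_{2j-r}` of `X` over `ℚ̄`, twisted by `-j`; for
`X` smooth projective of dimension `d` it is `H^m(d-j)` with `m = 2(d-j) + r`. Known properties: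

* `iso`, `opened`: isomorphic schemes have isomorphic homology, and the restriction to open subschemes is
  surjective on the part of lowest weight;
* `torus`: for affine `X` the object `h r j X` is a direct factor of `h r (j+1) (X × 𝔾_m)`;
* `cayley`: for elements `f_1, …, f_c` of a finitely generated algebra `B` the object
  `h r j (Spec B/(f_1, …, f_c))` is a direct factor of `h r (j+c) (Spec B[z_1, …, z_c]/(∑ f_l z_l))`;
* `cone`: for a cubic form in at least two variables `h r (j+1)` of the affine cone is a quotient of `h r j`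
  of the projective hypersurface;
* `space`: the homology of an affine space occurs in the homology, of large dimension, of a union of three
  hyperplanes (a trilinear cubic hypersurface);
* `affine`: for every smooth projective `X` there is an affine scheme which is a torsor under a vector
  bundle of rank `e` on `X` (Jouanolou);
* `cover`: every `X` has a compactification which is dominated by a smooth projective scheme `Y`
  (Hironaka), and `h r j Y → h r j X` is surjective (by weights);
* `down`: every smooth projective scheme `X` over `ℚ̄` is defined over a number field, and is a union of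
  components of the scheme over `ℚ̄` given by a smooth projective scheme `Y` over `ℚ`;
* `GD T`: the relation of Gross and Deligne holds for all admissible triples `(H, F, ι)`, `H` a subobject of
  `T` (for all `ε` and `λ`); `hered`: it passes to subobjects, so to direct factors;
* `twist`: for a smooth projective `Y` over `ℚ`, with `X` the scheme over `ℚ̄`, the relations for `H^m(X)` imply
  those for `h r j Y = H^m(X)(d-j)`: a twist multiplies the period and the product of gamma values by the same
  power of `2πi`, up to algebraic numbers. -/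
structure Theory where
  /-- the category of the Hodge structures with a de Rham structure over `ℚ̄` -/
  Hdg : Type 1
  /-- it is a category -/
  [cat : Category.{0} Hdg]
  /-- the part of lowest weight of the homology of a scheme over `ℚ` -/
  h : ℤ → ℕ → Sch ℚ → Hdg
  /-- the cohomology of a smooth projective scheme over `ℚ̄` -/
  H : ℕ → Sch Qbar → Hdg
  iso : ∀ {X Y : Sch ℚ}, FT True X → Nonempty (X ≅ Y) → ∀ r j, Factor (h r j Y) (h r j X)
  opened : ∀ {Z X U : Sch ℚ} (f : Z ⟶ X) (u : U ⟶ X), FT True X → IsTriple f u →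
    ∀ r j, Factor (h r j U) (h r j X)
  torus : ∀ (B : Type) [CommRing B] [Algebra ℚ B] [Algebra.FiniteType ℚ B] (r : ℤ) (j : ℕ),
    Factor (h r j (aff ℚ B)) (h r (j + 1) (aff ℚ (LaurentPolynomial B)))
  cayley : ∀ (B : Type) [CommRing B] [Algebra ℚ B] [Algebra.FiniteType ℚ B] (c : ℕ)
    (f : Fin c → B) (r : ℤ) (j : ℕ), Factor (h r j (zeroS ℚ B f)) (h r (j + c) (cayS ℚ B f))
  cone : ∀ (n : ℕ) (F : Pol ℚ n), 1 ≤ n → IsCubic F → ∀ r j,
    Factor (h r (j + 1) (affCone ℚ F)) (h r j (projHyp ℚ F))
  space : ∀ (N n : ℕ) (r : ℤ) (j : ℕ), ∃ (m : ℕ) (F : Pol ℚ m) (j' : ℕ), IsTrilinear F ∧ N ≤ j' ∧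
    Factor (h r j (affSpace ℚ n)) (h r j' (projHyp ℚ F))
  affine : ∀ X : Sch ℚ, SmoothProjective X → ∃ (A : Type) (_ : CommRing A)
    (_ : Algebra ℚ A) (_ : Algebra.FiniteType ℚ A) (e : ℕ), ∀ r j,
      Factor (h r j X) (h r (j + e) (aff ℚ A))
  cover : ∀ X : Sch ℚ, FT True X → ∃ Y : Sch ℚ, SmoothProjective Y ∧
    ∀ r j, Factor (h r j X) (h r j Y)
  down : ∀ X : Sch Qbar, SmoothProjective X → ∀ m, ∃ (Y : Sch ℚ) (r : ℤ) (j : ℕ),
    SmoothProjective Y ∧ Factor (H m X) (h r j Y)
  /-- the relation of Gross and Deligne for all admissible triples in an object -/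
  GD : Hdg → Prop
  hered : ∀ {A B : Hdg}, Factor A B → GD B → GD A
  twist : ∀ (Y : Sch ℚ) (r : ℤ) (j : ℕ), SmoothProjective Y → ∃ (X : Sch Qbar) (m : ℕ),
    SmoothProjective X ∧ (GD (H m X) → GD (h r j Y))

attribute [instance] Theory.cat

variable (D : Theory)

lemma dominated (N : ℕ) (r : ℤ) (A : Type) [CommRing A] [Algebra ℚ A] [Algebra.FiniteType ℚ A]
    (j : ℕ) : ∃ (m : ℕ) (F : Pol ℚ m) (j' : ℕ), IsTrilinear F ∧ N ≤ j' ∧
      Factor (D.h r j (aff ℚ A)) (D.h r j' (projHyp ℚ F)) := by
  have h0 : QClo (K := ℚ) fun j X => ∃ (m : ℕ) (F : Pol ℚ m) (j' : ℕ), IsTrilinear F ∧ N ≤ j' ∧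
      Factor (D.h r j X) (D.h r j' (projHyp ℚ F)) :=
    { iso := by
        rintro X Y hX e j ⟨m, F, j', hF, hj, h⟩
        exact ⟨m, F, j', hF, hj, (D.iso hX e r j).trans h⟩
      space := fun n j => D.space N n r j
      cayley := by
        rintro B _ _ _ c f j ⟨m, F, j', hF, hj, h⟩
        exact ⟨m, F, j', hF, hj, (D.cayley B c f r j).trans h⟩
      cone := by
        rintro n F' hn hF' j ⟨m, F, j', hF, hj, h⟩
        exact ⟨m, F, j', hF, hj, (D.cone n F' hn hF' r j).trans h⟩
      opened := by
        rintro Z X U f u hX ht j ⟨m, F, j', hF, hj, h⟩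
        exact ⟨m, F, j', hF, hj, (D.opened f u hX ht r j).trans h⟩
      torus := by
        rintro B _ _ _ j ⟨m, F, j', hF, hj, h⟩
        exact ⟨m, F, j', hF, hj, (D.torus B r j).trans h⟩ }
  exact h0.all short_rat N (fun n F hF j hj => ⟨n, F, j, hF, hj, Factor.refl _⟩) A j

/-- **The Gross–Deligne conjecture** for all smooth projective schemes over `ℚ̄`. -/
def Theory.GrossDeligne : Prop := ∀ X : Sch Qbar, SmoothProjective X → ∀ m, D.GD (D.H m X)

/-- The relation of Gross and Deligne for the triples in the part of lowest weight of the homology of the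
cubic hypersurfaces over `ℚ` which are given by trilinear forms `∑_l z_l f_l(x, y)` in which every `f_l` is a
sum of at most three monomials `x_i y_j`, for `j ≥ N`. -/
def Theory.GrossDeligneCubic (N : ℕ) : Prop :=
  ∀ (n : ℕ) (F : Pol ℚ n), IsTrilinear F → ∀ (r : ℤ) (j : ℕ), N ≤ j → D.GD (D.h r j (projHyp ℚ F))

/-- Every object `H^m(X)`, `X` smooth projective over `ℚ̄`, is a direct factor of the part of lowest weight of
the homology `H_{2j-r}`, for some `r` and some `j ≥ N`, of such a cubic hypersurface over `ℚ`. -/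
def Theory.Embeds (N : ℕ) : Prop := ∀ X : Sch Qbar, SmoothProjective X → ∀ m,
  ∃ (n : ℕ) (F : Pol ℚ n) (r : ℤ) (j : ℕ), IsTrilinear F ∧ N ≤ j ∧
    Factor (D.H m X) (D.h r j (projHyp ℚ F))

theorem embeds (N : ℕ) : D.Embeds N := by
  intro X hX m
  obtain ⟨Y, r, j, hY, hf⟩ := D.down X hX m
  obtain ⟨A, _, _, _, e, hA⟩ := D.affine Y hY
  obtain ⟨n, F, j', hF, hj, h⟩ := dominated D N r A (j + e)
  exact ⟨n, F, r, j', hF, hj, hf.trans ((hA r j).trans h)⟩

theorem gd_iff (N : ℕ) : D.GrossDeligne ↔ D.GrossDeligneCubic N := by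
  constructor
  · intro h n F _ r j _
    obtain ⟨Y, hY, hq⟩ := D.cover _ (ft_projHyp ℚ F)
    obtain ⟨X, m, hX, ht⟩ := D.twist Y r j hY
    exact D.hered (hq r j) (ht (h X hX m))
  · intro h X hX m
    obtain ⟨n, F, r, j, hF, hj, hf⟩ := embeds D N X hX m
    exact D.hered hf (h n F hF r j hj)

end Run7.h798.Tate.GD
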