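import Pool.Agent.Run7.h798.Tate.Dom
import Mathlib.RingTheory.Derivation.Lie
import Mathlib.Analysis.Complex.Basic

/-!
# Gauss–Manin flat bundles and families of cubic hypersurfaces
-/

set_option autoImplicit false

open CategoryTheory AlgebraicGeometry MvPolynomial Pool.Agent.Y116.UV Pool.Agent.Q193.LT
  Pool.Agent.Q282.UK Pool.Agent.Q282.UZ Run7.h798.UV

namespace Run7.h798.Tate.GM

/-- **Flat bundles at the generic point**: a vector space over the function field `F` (an extension of `ℂ`)
with a flat connection `∇`, given by the operators `∇_δ` for the derivations `δ` of `F` over `ℂ`. -/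
structure Flat (F : Type) [Field F] [Algebra ℂ F] where
  /-- the underlying space -/
  V : Type
  /-- the addition -/
  [grp : AddCommGroup V]
  /-- the scalar multiplication -/
  [mod : Module F V]
  /-- the connection -/
  nabla : Derivation ℂ F F → V → V
  add : ∀ δ v w, nabla δ (v + w) = nabla δ v + nabla δ w
  leibniz : ∀ δ (a : F) v, nabla δ (a • v) = a • nabla δ v + δ a • v
  smul : ∀ (a : F) δ v, nabla (a • δ) v = a • nabla δ v
  sum : ∀ δ δ' v, nabla (δ + δ') v = nabla δ v + nabla δ' v
  flat : ∀ δ δ' v, nabla δ (nabla δ' v) - nabla δ' (nabla δ v) = nabla ⁅δ, δ'⁆ v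

attribute [instance] Flat.grp Flat.mod

variable {F : Type} [Field F] [Algebra ℂ F]

/-- `A` is isomorphic to a subquotient of `B`: there is a horizontal subspace `R` of `B × A` which is the
graph of a surjective map from a subspace of `B` onto `A`. -/
def Subq (A B : Flat F) : Prop :=
  ∃ R : Submodule F (B.V × A.V), (∀ δ x, x ∈ R → (B.nabla δ x.1, A.nabla δ x.2) ∈ R) ∧
    (∀ a, (0, a) ∈ R → a = 0) ∧ ∀ a, ∃ b, (b, a) ∈ R

lemma Subq.refl (A : Flat F) : Subq A A := by
  refine ⟨LinearMap.graph LinearMap.id, fun δ x hx => ?_, fun a ha => ?_, fun a => ⟨a, ?_⟩⟩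
  · rw [LinearMap.mem_graph_iff, LinearMap.id_apply] at hx ⊢
    change A.nabla δ x.2 = A.nabla δ x.1
    rw [hx]
  · rw [LinearMap.mem_graph_iff] at ha
    exact ha
  · rw [LinearMap.mem_graph_iff]
    rfl

lemma Subq.trans {A B C : Flat F} (h : Subq A B) (h' : Subq B C) : Subq A C := by
  obtain ⟨R, h1, h2, h3⟩ := h
  obtain ⟨S, h4, h5, h6⟩ := h'
  refine ⟨{ carrier := {x | ∃ b, (x.1, b) ∈ S ∧ (b, x.2) ∈ R}
            zero_mem' := ⟨0, S.zero_mem, R.zero_mem⟩
            add_mem' := ?_
            smul_mem' := ?_ }, ?_, ?_, ?_⟩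
  · rintro x y ⟨b, hb, hb'⟩ ⟨c, hc, hc'⟩
    exact ⟨b + c, S.add_mem hb hc, R.add_mem hb' hc'⟩
  · rintro e x ⟨b, hb, hb'⟩
    exact ⟨e • b, S.smul_mem e hb, R.smul_mem e hb'⟩
  · rintro δ x ⟨b, hb, hb'⟩
    exact ⟨B.nabla δ b, h4 δ _ hb, h1 δ _ hb'⟩
  · rintro a ⟨b, hb, hb'⟩
    have h7 : b = 0 := h5 b hb
    rw [h7] at hb'
    exact h2 a hb'
  · intro a
    obtain ⟨b, hb⟩ := h3 a
    obtain ⟨c, hc⟩ := h6 b
    exact ⟨c, b, hc, hb⟩

/-- The scheme `X` over `K` is proper and smooth. -/
def ProperSmooth {K : Type} [Field K] (X : Sch K) : Prop := IsProper X.hom ∧ Smooth X.hom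

/-- **The relative de Rham cohomology.** `K` is the function field of the base `Y` (over `ℚ̄`, or over `ℂ` if
the families are allowed to be defined over `ℂ`), and `F` is the function field of `Y_ℂ`. A flat bundle on a
dense open subscheme of `Y_ℂ` is considered at the generic point. For a scheme `X` over `K`, the generic fibre of
a family `P → U` over a dense open `U`, the flat bundle `h r j X` is the part of lowest weight `r - 2j` of the
homology with closed supports `H_{2j-r}` of the fibres (a variation of Hodge structures on a smaller `U`) with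
its Gauss–Manin connection; for `P` smooth and proper of relative dimension `d` it is the Gauss–Manin flat
bundle `H^i(P_x; ℂ)`, `i = 2(d-j) + r`. Known properties:

* `dom`: those which are listed in `Dom` (`le` is `Subq`);
* `affine`: for every proper smooth `X` there is an affine scheme which is a torsor under a vector bundle of
  rank `e` on a smooth projective modification of `X` (Chow, Hironaka, Jouanolou);
* `cover`: every `X` has a compactification which is dominated by a proper smooth scheme `Y`
  (Hironaka), and `h r j Y → h r j X` is surjective (by weights);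
* `quasi V`: `V` is the generic fibre of a semisimple quasi-geometric flat bundle on `Y`. -/
structure Theory (K : Type) [Field K] (F : Type) [Field F] [Algebra ℂ F] where
  /-- the part of lowest weight of the homology of the fibres -/
  h : ℤ → ℕ → Sch K → Flat F
  dom : ∀ r, Dom (K := K) Subq (h r)
  affine : ∀ X : Sch K, ProperSmooth X → ∃ (A : Type) (_ : CommRing A)
    (_ : Algebra K A) (_ : Algebra.FiniteType K A) (e : ℕ), ∀ r j,
      Subq (h r j X) (h r (j + e) (aff K A))
  cover : ∀ X : Sch K, FT True X → ∃ Y : Sch K, ProperSmooth Y ∧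
    ∀ r j, Subq (h r j X) (h r j Y)
  /-- the generic fibres of the semisimple quasi-geometric flat bundles -/
  quasi : Flat F → Prop

variable {K : Type} [Field K] (D : Theory K F)

/-- `V` is geometric: it is a subquotient of a Gauss–Manin flat bundle (in a degree `i ≡ r` modulo `2`) on a
dense open subscheme. -/
def Theory.Geometric (r : ℤ) (V : Flat F) : Prop :=
  ∃ (X : Sch K) (j : ℕ), ProperSmooth X ∧ Subq V (D.h r j X)

/-- `V` is a subquotient of the part of lowest weight of the homology `H_{2j-r}`, for some `j ≥ N`, of a family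
of cubic hypersurfaces over a dense open subscheme which is given by a trilinear form
`∑ T_{ijl} x_i y_j z_l`. -/
def Theory.Cubic (N : ℕ) (r : ℤ) (V : Flat F) : Prop :=
  ∃ (n : ℕ) (G : Pol K n) (j : ℕ), IsTriB G ∧ N ≤ j ∧ Subq V (D.h r j (projHyp K G))

/-- **Q1** for the base `Y`. -/
def Theory.AllGeometric : Prop := ∀ V, D.quasi V → ∃ r, D.Geometric r V

/-- The same with families of cubic hypersurfaces. -/
def Theory.AllCubic (N : ℕ) : Prop := ∀ V, D.quasi V → ∃ r, D.Cubic N r V

theorem geometric_iff (N : ℕ) (r : ℤ) (V : Flat F) : D.Geometric r V ↔ D.Cubic N r V := by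
  constructor
  · rintro ⟨X, j, hX, hV⟩
    obtain ⟨A, _, _, _, e, hA⟩ := D.affine X hX
    obtain ⟨m, G, j', hG, hj, h⟩ := (D.dom r).dominated Subq.refl
      (fun h h' => h.trans h') N A (j + e)
    exact ⟨m, G, j', hG, hj, hV.trans ((hA r j).trans h)⟩
  · rintro ⟨n, G, j, hG, _, hV⟩
    obtain ⟨Y, hY, hq⟩ := D.cover _ (ft_projHyp K G)
    exact ⟨Y, j, hY, hV.trans (hq r j)⟩

theorem all_iff (N : ℕ) : D.AllGeometric ↔ D.AllCubic N :=
  forall_congr' fun V => imp_congr_right fun _ => exists_congr fun r => geometric_iff D N r V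

end Run7.h798.Tate.GM
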