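import Pool.Agent.Run7.h798.Tate.Core
import Pool.Agent.Run7.h798.UV.Rat
import Pool.Agent.Q193.LT.Pair

/-!
# The generalized Tate conjecture and cubic hypersurfaces

`k` is a prime field (`ℚ` or the field with `p` elements), `K` is a finite extension of `k`.
-/

set_option autoImplicit false

open CategoryTheory AlgebraicGeometry MvPolynomial Pool.Agent.Y116.UV Pool.Agent.Q193.LT
  Pool.Agent.Q282.UK Pool.Agent.Q282.UZ Run7.h798.UV

universe w

namespace Run7.h798.Tate.GT

variable {k : Type} [Field k] {E : Type} [Field E]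

/-- For linear maps `A`, `B`, `C`: the sequence of the targets of `A → B → C → 0` is exact, and the map
from the source of `B` to the source of `C` is surjective. -/
def ExactLow {A B C : Arrow (ModuleCat.{w} E)} (f : A ⟶ B) (g : B ⟶ C) : Prop :=
  Function.Surjective g.left.hom ∧ ExactAt f.right g.right ∧ Function.Surjective g.right.hom

/-- `A` dominates `B`: there is a map `A → B` which is surjective on the targets. -/
def Dom (A B : Arrow (ModuleCat.{w} E)) : Prop :=
  ∃ q : A ⟶ B, Function.Surjective q.right.hom

/-- `A` is a direct factor of `B`. -/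
def Factor (A B : Arrow (ModuleCat.{w} E)) : Prop :=
  ∃ (s : A ⟶ B) (r : B ⟶ A), s ≫ r = 𝟙 A

/-- **Coniveau theory.** For a finite extension `K` of the prime field `k`, a scheme `X` over `K` and
`r, j ≥ 0` let `H` be the part of weight `-(2j-r)` (the lowest weight) of the homology
`H_{2j-r}(X̄, E)`. Then `T K r j X` is the inclusion

(span of the classes in `H` which are supported in dimension `≤ j`) `⟶`
  (span of the Galois subrepresentations `V` of `H` such that `V(-j)` is effective of weight `r`)

as an object of the category of linear maps. Known properties: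

* `iso`: it depends only on the isomorphism class of `X`;
* `exact`: localization sequences for closed subschemes (by weights; in characteristic zero also by the
  semisimplicity of pure motives for absolute Hodge cycles);
* `torus`: for affine `X` the object `T r j X` is a direct factor of `T r (j+1) (X × 𝔾_m)`;
* `scalars`: for `X` over `K` let `Y` be the same scheme over `k`; its homology is the induced
  representation, and `T k r j Y` dominates `T K r j X`. -/
structure Theory (k : Type) [Field k] (E : Type) [Field E] where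
  /-- the inclusion of the geometric in the arithmetic coniveau filtration -/
  T : ∀ (K : Type) [Field K] [Algebra k K], ℕ → ℕ → Sch K → Arrow (ModuleCat.{w} E)
  iso : ∀ {X Y : Sch k}, FT True X → Nonempty (X ≅ Y) → ∀ r j, Nonempty (T k r j X ≅ T k r j Y)
  exact : ∀ {Z X U : Sch k} (i : Z ⟶ X) (u : U ⟶ X), FT True X → IsTriple i u →
    ∀ r j, ∃ (f : T k r j Z ⟶ T k r j X) (g : T k r j X ⟶ T k r j U), ExactLow f g
  torus : ∀ (B : Type) [CommRing B] [Algebra k B] [Algebra.FiniteType k B] (r j : ℕ),
    Factor (T k r j (aff k B)) (T k r (j + 1) (aff k (LaurentPolynomial B)))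
  scalars : ∀ (K : Type) [Field K] [Algebra k K] [FiniteDimensional k K] (X : Sch K), FT True X →
    ∃ Y : Sch k, FT True Y ∧ ∀ r j, Dom (T k r j Y) (T K r j X)

/-- Further properties of the objects `T k r j X`:

* `space`: they are surjective for affine spaces;
* `cayley`: for elements `f_1, …, f_c` of a finitely generated algebra `B` the object
  `T r j (Spec B/(f_1, …, f_c))` is a direct factor of `T r (j+c) (Spec B[z_1, …, z_c]/(∑ f_l z_l))`;
  this is the splitting `M^c(W) = M^c(Z)(c)[2c] ⊕ M^c(U)(c-1)[2c-2]` for `W : ∑ f_l z_l = 0` in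
  `Spec B × 𝔸^c`, the closed subscheme `Z : f_1 = ⋯ = f_c = 0` of `Spec B` and its complement `U`;
* `cone`: for a cubic form `F` in at least two variables `T r j (V)` of the projective hypersurface
  dominates `T r (j+1) (C)` of the affine cone (`C` minus the vertex is the complement of the zero
  section in a line bundle on `V`);
* `cover`: every scheme `X` has a compactification which is dominated by a smooth projective scheme
  `Y` (Hironaka, de Jong), and `T r j Y` dominates `T r j X`. -/
structure Theory.Geometric (D : Theory.{w} k E) : Prop where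
  space : ∀ n r j : ℕ, Function.Surjective (D.T k r j (affSpace k n)).hom.hom
  cayley : ∀ (B : Type) [CommRing B] [Algebra k B] [Algebra.FiniteType k B] (c : ℕ) (f : Fin c → B)
    (r j : ℕ), Factor (D.T k r j (zeroS k B f)) (D.T k r (j + c) (cayS k B f))
  cone : ∀ (n : ℕ) (F : Pol k n), 1 ≤ n → IsCubic F → ∀ r j,
    Dom (D.T k r j (projHyp k F)) (D.T k r (j + 1) (affCone k F))
  cover : ∀ X : Sch k, FT True X → ∃ Y : Sch k, SmoothProjective Y ∧
    ∀ r j, Dom (D.T k r j Y) (D.T k r j X)

/-- **The generalized Tate conjecture** in the level `r = i - 2ν` for all finite extensions `K` of the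
prime field and all smooth projective schemes over `K`. -/
def Theory.GTC (D : Theory.{w} k E) (r : ℕ) : Prop :=
  ∀ (K : Type) [Field K] [Algebra k K] [FiniteDimensional k K] (X : Sch K), SmoothProjective X →
    ∀ j, Function.Surjective (D.T K r j X).hom.hom

/-- The homological form of the generalized Tate conjecture in the level `r` for all schemes over finite
extensions of the prime field. -/
def Theory.GTCAll (D : Theory.{w} k E) (r : ℕ) : Prop :=
  ∀ (K : Type) [Field K] [Algebra k K] [FiniteDimensional k K] (X : Sch K), FT True X →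
    ∀ j, Function.Surjective (D.T K r j X).hom.hom

/-- The homological form of the generalized Tate conjecture in the level `r` and the dimensions `j ≥ N`
for the cubic hypersurfaces in the projective spaces over the prime field. -/
def Theory.Cubics (D : Theory.{w} k E) (r N : ℕ) : Prop :=
  ∀ (n : ℕ) (F : Pol k n), IsCubic F → ∀ j, N ≤ j →
    Function.Surjective (D.T k r j (projHyp k F)).hom.hom

/-- The same for the cubic hypersurfaces given by trilinear forms `∑_l z_l f_l(x, y)` in which every
`f_l` is a sum of at most three monomials `x_i y_j`. -/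
def Theory.Trilinear (D : Theory.{w} k E) (r N : ℕ) : Prop :=
  ∀ (n : ℕ) (F : Pol k n), IsTrilinear F → ∀ j, N ≤ j →
    Function.Surjective (D.T k r j (projHyp k F)).hom.hom

lemma Dom.surj {A B : Arrow (ModuleCat.{w} E)} (h : Dom A B) (hA : Function.Surjective A.hom.hom) :
    Function.Surjective B.hom.hom := by
  obtain ⟨q, hq⟩ := h
  intro y
  obtain ⟨x, rfl⟩ := hq y
  obtain ⟨a, rfl⟩ := hA x
  exact ⟨q.left.hom a, congrArg (fun f => f.hom a) q.w⟩

lemma Factor.surj {A B : Arrow (ModuleCat.{w} E)} (h : Factor A B)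
    (hB : Function.Surjective B.hom.hom) : Function.Surjective A.hom.hom := by
  obtain ⟨s, r, h⟩ := h
  exact Dom.surj ⟨r, fun y => ⟨s.right.hom y, congrArg (fun f : A ⟶ A => f.right.hom y) h⟩⟩ hB

lemma ExactLow.mid {A B C : Arrow (ModuleCat.{w} E)} {f : A ⟶ B} {g : B ⟶ C} (h : ExactLow f g)
    (hA : Function.Surjective A.hom.hom) (hC : Function.Surjective C.hom.hom) :
    Function.Surjective B.hom.hom := by
  intro y
  obtain ⟨c, hc⟩ := hC (g.right.hom y)
  obtain ⟨b, rfl⟩ := h.1 c
  have h1 : C.hom.hom (g.left.hom b) = g.right.hom (B.hom.hom b) :=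
    congrArg (fun f => f.hom b) g.w
  have h2 : g.right.hom (y - B.hom.hom b) = 0 := by
    rw [map_sub, ← h1, hc, sub_self]
  obtain ⟨z, hz⟩ := (h.2.1 _).mp h2
  obtain ⟨a, rfl⟩ := hA z
  refine ⟨f.left.hom a + b, ?_⟩
  have h3 : B.hom.hom (f.left.hom a) = f.right.hom (A.hom.hom a) :=
    congrArg (fun f => f.hom a) f.w
  rw [map_add, h3, hz, sub_add_cancel]

lemma homClo {D : Theory.{w} k E} (h : D.Geometric) (r : ℕ) :
    HomClo (K := k) fun j X => Function.Surjective (D.T k r j X).hom.hom where
  iso hX e j h := by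
    obtain ⟨e⟩ := D.iso hX e r j
    exact Factor.surj ⟨e.inv, e.hom, e.inv_hom_id⟩ h
  space n j := h.space n r j
  cayley B _ _ _ c f j hW := (h.cayley B c f r j).surj hW
  cone n F hn hF j hV := (h.cone n F hn hF r j).surj hV
  total i u hX ht j hZ hU := by
    obtain ⟨f, g, h⟩ := D.exact i u hX ht r j
    exact h.mid hZ hU
  opened i u hX ht j hX' := by
    obtain ⟨f, g, h⟩ := D.exact i u hX ht r j
    exact Dom.surj ⟨g, h.2.2⟩ hX'
  torus B _ _ _ j h := (D.torus B r j).surj h

theorem main (hk : ShortPresents k) (D : Theory.{w} k E) (h : D.Geometric) (r N : ℕ) :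
    (D.GTC r ↔ D.GTCAll r) ∧ (D.GTC r ↔ D.Cubics r N) ∧ (D.GTC r ↔ D.Trilinear r N) := by
  have h0 : D.Trilinear r N → D.GTCAll r := by
    intro h3 K _ _ _ X hX j
    obtain ⟨Y, hY, hq⟩ := D.scalars K X hX
    exact (hq r j).surj ((homClo h r).all hk N h3 Y hY j)
  have h1 : D.GTC r → D.Cubics r N := by
    intro h1 n F _ j _
    obtain ⟨Y, hY, hq⟩ := h.cover _ (ft_projHyp k F)
    exact (hq r j).surj (h1 k Y hY j)
  have h2 : D.Cubics r N → D.Trilinear r N := fun h2 n F hF j hj => h2 n F hF.hom j hj
  have h3 : D.GTCAll r → D.GTC r := fun h3 K _ _ _ X hX j => h3 K X hX.1 j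
  exact ⟨⟨fun h => h0 (h2 (h1 h)), h3⟩, ⟨h1, fun h => h3 (h0 (h2 h))⟩,
    ⟨fun h => h2 (h1 h), fun h => h3 (h0 h)⟩⟩

/-- the two kinds of prime fields -/
theorem main_rat (D : Theory.{w} ℚ E) (h : D.Geometric) (r N : ℕ) :
    (D.GTC r ↔ D.GTCAll r) ∧ (D.GTC r ↔ D.Cubics r N) ∧ (D.GTC r ↔ D.Trilinear r N) :=
  main short_rat D h r N

theorem main_p (p : ℕ) [Fact p.Prime] (D : Theory.{w} (ZMod p) E) (h : D.Geometric) (r N : ℕ) :
    (D.GTC r ↔ D.GTCAll r) ∧ (D.GTC r ↔ D.Cubics r N) ∧ (D.GTC r ↔ D.Trilinear r N) :=
  main (short_presents ZMod.intCast_surjective) D h r N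

end Run7.h798.Tate.GT
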