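import Pool.Agent.Run7.h798.Tate.Quo
import Pool.Agent.Run7.h798.UV.Rat
import Mathlib.RepresentationTheory.Basic
import Mathlib.NumberTheory.NumberField.Basic
import Mathlib.FieldTheory.IsAlgClosed.AlgebraicClosure

/-!
# Semisimplicity of Galois representations over number fields and cubic hypersurfaces over `ℚ`
-/

set_option autoImplicit false

open CategoryTheory AlgebraicGeometry MvPolynomial Pool.Agent.Y116.UV Pool.Agent.Q193.LT
  Pool.Agent.Q282.UK Pool.Agent.Q282.UZ Run7.h798.UV

namespace Run7.h798.Tate.Gal

/-- The absolute Galois group of a field (of characteristic zero). -/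
def AbsGal (K : Type) [Field K] : Type := AlgebraicClosure K ≃ₐ[K] AlgebraicClosure K

/-- the group structure of the absolute Galois group -/
noncomputable instance absGroup (K : Type) [Field K] : Group (AbsGal K) :=
  inferInstanceAs (Group (AlgebraicClosure K ≃ₐ[K] AlgebraicClosure K))

/-- A representation of the group `G` on a vector space over `E`. -/
structure GRep (E : Type) [Field E] (G : Type) [Group G] where
  /-- the underlying space -/
  V : Type
  /-- the addition -/
  [grp : AddCommGroup V]
  /-- the scalar multiplication -/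
  [mod : Module E V]
  /-- the action -/
  ρ : Representation E G V

attribute [instance] GRep.grp GRep.mod

variable {E : Type} [Field E] {G : Type} [Group G] {G' : Type} [Group G']

/-- The action of `g` on the vector `v`. -/
def GRep.act (A : GRep E G) (g : G) (v : A.V) : A.V := A.ρ g v

/-- The subspace `W` is stable under `G`. -/
def GRep.Stable (A : GRep E G) (W : Submodule E A.V) : Prop := ∀ g, ∀ v ∈ W, A.act g v ∈ W

/-- **Semisimple representations**: every stable subspace has a stable complement. -/
def GRep.Semisimple (A : GRep E G) : Prop :=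
  ∀ W : Submodule E A.V, A.Stable W → ∃ W' : Submodule E A.V, A.Stable W' ∧ IsCompl W W'

/-- There is a surjective linear map `A → B` which commutes with the action of `G`. -/
def Onto (A B : GRep E G) : Prop :=
  ∃ q : A.V →ₗ[E] B.V, Function.Surjective q ∧ ∀ g v, q (A.act g v) = B.act g (q v)

/-- The representation `B` of `G'` is induced from the representation `A` of `G` along `φ : G → G'`
(`G` is a subgroup of finite index of `G'`): `A` is a direct factor of the restriction of `B`, and every
stable subspace `W` of `A` corresponds to the stable subspace `W' = Ind W` of `B`. -/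
def Induced (φ : G →* G') (A : GRep E G) (B : GRep E G') : Prop :=
  ∃ (s : A.V →ₗ[E] B.V) (t : B.V →ₗ[E] A.V), (∀ v, t (s v) = v) ∧
    (∀ g v, s (A.act g v) = B.act (φ g) (s v)) ∧ (∀ g v, t (B.act (φ g) v) = A.act g (t v)) ∧
    ∀ W, A.Stable W → ∃ W' : Submodule E B.V, B.Stable W' ∧ W ≤ W'.comap s ∧ W' ≤ W.comap t

lemma Onto.ss {A B : GRep E G} (h : Onto A B) (hA : A.Semisimple) : B.Semisimple := by
  obtain ⟨q, hq, hc⟩ := h
  intro W hW
  obtain ⟨C, hC, h1⟩ := hA (W.comap q) fun g v hv => by
    rw [Submodule.mem_comap] at hv ⊢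
    rw [hc]
    exact hW g _ hv
  refine ⟨C.map q, ?_, ?_⟩
  · rintro g _ ⟨v, hv, rfl⟩
    exact ⟨A.act g v, hC g v hv, hc g v⟩
  · constructor
    · rw [Submodule.disjoint_def]
      rintro _ hw ⟨v, hv, rfl⟩
      have h2 : v = 0 := (Submodule.disjoint_def.mp h1.disjoint) v hw hv
      rw [h2, map_zero]
    · rw [codisjoint_iff, eq_top_iff]
      rintro w -
      obtain ⟨v, rfl⟩ := hq w
      have h2 : v ∈ W.comap q ⊔ C := by rw [codisjoint_iff.mp h1.codisjoint]; trivial
      obtain ⟨a, ha, c, hc', rfl⟩ := Submodule.mem_sup.mp h2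
      rw [map_add]
      exact Submodule.add_mem_sup ha ⟨c, hc', rfl⟩

lemma Induced.ss {φ : G →* G'} {A : GRep E G} {B : GRep E G'} (h : Induced φ A B)
    (hB : B.Semisimple) : A.Semisimple := by
  obtain ⟨s, t, hts, hs, ht, hW⟩ := h
  intro W hW'
  obtain ⟨W', hW'', h1, h2⟩ := hW W hW'
  obtain ⟨C, hC, hWC⟩ := hB W' hW''
  refine ⟨(C ⊔ (W' ⊓ LinearMap.ker t)).comap s, fun g v hv => ?_, ?_, ?_⟩
  · rw [Submodule.mem_comap] at hv ⊢
    rw [hs]
    obtain ⟨c, hc, w, ⟨hw, hw'⟩, h3⟩ := Submodule.mem_sup.mp hv
    have h4 : B.act (φ g) (s v) = B.act (φ g) c + B.act (φ g) w := by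
      rw [← h3]; exact map_add (B.ρ (φ g)) c w
    rw [h4]
    refine Submodule.add_mem_sup (hC _ _ hc) ⟨hW'' _ _ hw, ?_⟩
    have hw' : t w = 0 := hw'
    change t _ = 0
    rw [ht, hw']
    exact map_zero (A.ρ g)
  · rw [Submodule.disjoint_def]
    intro v hv hv'
    obtain ⟨c, hc, w, ⟨hw, hw'⟩, h3⟩ := Submodule.mem_sup.mp hv'
    have h4 : c ∈ W' := by
      have h5 : c = s v - w := by rw [← h3]; abel
      rw [h5]
      exact sub_mem (h1 hv) hw
    have h6 : c = 0 := (Submodule.disjoint_def.mp hWC.disjoint) c h4 hc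
    rw [h6, zero_add] at h3
    have hw' : t w = 0 := hw'
    rw [← hts v, ← h3, hw']
  · rw [codisjoint_iff, eq_top_iff]
    rintro v -
    have h3 : s v ∈ W' ⊔ C := by rw [codisjoint_iff.mp hWC.codisjoint]; trivial
    obtain ⟨w, hw, c, hc, h4⟩ := Submodule.mem_sup.mp h3
    have h5 : t w ∈ W := h2 hw
    have h6 : v = t w + (v - t w) := by abel
    rw [h6]
    refine Submodule.add_mem_sup h5 ?_
    rw [Submodule.mem_comap, map_sub, ← h4]
    have h7 : w + c - s (t w) = c + (w - s (t w)) := by abel
    rw [h7]
    refine Submodule.add_mem_sup hc ⟨sub_mem hw (h1 h5), ?_⟩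
    change t _ = 0
    rw [map_sub, hts, sub_self]

/-- **The `ℓ`-adic cohomology of the schemes over number fields, with the action of the Galois groups.**
For a scheme `X` over `ℚ` the representation `h r j X` is the part of lowest weight `r - 2j` of the homology
with closed supports `H_{2j-r}(X̄, E)`, twisted by `-j`: a representation of weight `r`; for `X` smooth
projective of dimension `d` it is `H^i(X̄, E)(d-j)` with `i = 2(d-j) + r`. For a smooth projective scheme `X`
over a number field `K` the representation `H K r j X` is `H^i(X̄, E)(d-j)`. Known properties: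

* `iso`, `opened`: isomorphic schemes have isomorphic homology, and the restriction to open subschemes is
  surjective on the part of lowest weight;
* `torus`: for affine `X` the representation `h r j X` is a direct factor of `h r (j+1) (X × 𝔾_m)`;
* `cayley`: for elements `f_1, …, f_c` of a finitely generated algebra `B` the representation
  `h r j (Spec B/(f_1, …, f_c))` is a direct factor of `h r (j+c) (Spec B[z_1, …, z_c]/(∑ f_l z_l))`;
* `cone`: for a cubic form in at least two variables there is a surjection from `h r j V` for the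
  projective hypersurface to `h r (j+1) C` for the affine cone;
* `space`: the homology of affine spaces is semisimple (it is at most one-dimensional);
* `affine`: for every smooth projective `X` there is an affine scheme which is a torsor under a vector
  bundle of rank `e` on `X` (Jouanolou);
* `cover`: every `X` has a compactification which is dominated by a smooth projective scheme `Y`
  (Hironaka), and `h r j Y → h r j X` is surjective (by weights);
* `rational`: for smooth projective schemes over `ℚ` both definitions agree;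
* `field`: a smooth projective scheme `X` over a number field `K` is also a smooth projective scheme `Y`
  over `ℚ`, and the representation for `Y` is induced from the representation for `X`. -/
structure Theory (E : Type) [Field E] where
  /-- the part of lowest weight of the homology of a scheme over `ℚ` -/
  h : ℤ → ℕ → Sch ℚ → GRep E (AbsGal ℚ)
  /-- the cohomology of a smooth projective scheme over a number field -/
  H : ∀ (K : Type) [Field K] [NumberField K], ℤ → ℕ → Sch K → GRep E (AbsGal K)
  iso : ∀ {X Y : Sch ℚ}, FT True X → Nonempty (X ≅ Y) → ∀ r j, Onto (h r j X) (h r j Y)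
  opened : ∀ {Z X U : Sch ℚ} (i : Z ⟶ X) (u : U ⟶ X), FT True X → IsTriple i u →
    ∀ r j, Onto (h r j X) (h r j U)
  torus : ∀ (B : Type) [CommRing B] [Algebra ℚ B] [Algebra.FiniteType ℚ B] (r : ℤ)
    (j : ℕ), Onto (h r (j + 1) (aff ℚ (LaurentPolynomial B))) (h r j (aff ℚ B))
  cayley : ∀ (B : Type) [CommRing B] [Algebra ℚ B] [Algebra.FiniteType ℚ B] (c : ℕ)
    (f : Fin c → B) (r : ℤ) (j : ℕ), Onto (h r (j + c) (cayS ℚ B f)) (h r j (zeroS ℚ B f))
  cone : ∀ (n : ℕ) (F : Pol ℚ n), 1 ≤ n → IsCubic F → ∀ r j,
    Onto (h r j (projHyp ℚ F)) (h r (j + 1) (affCone ℚ F))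
  space : ∀ (n : ℕ) (r : ℤ) (j : ℕ), (h r j (affSpace ℚ n)).Semisimple
  affine : ∀ X : Sch ℚ, SmoothProjective X → ∃ (A : Type) (_ : CommRing A)
    (_ : Algebra ℚ A) (_ : Algebra.FiniteType ℚ A) (e : ℕ), ∀ r j,
      Onto (h r (j + e) (aff ℚ A)) (h r j X)
  cover : ∀ X : Sch ℚ, FT True X → ∃ Y : Sch ℚ, SmoothProjective Y ∧
    ∀ r j, Onto (h r j Y) (h r j X)
  rational : ∀ X : Sch ℚ, SmoothProjective X → ∀ r j, Onto (H ℚ r j X) (h r j X)
  field : ∀ (K : Type) [Field K] [NumberField K] (X : Sch K), SmoothProjective X →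
    ∃ (Y : Sch ℚ) (φ : AbsGal K →* AbsGal ℚ), SmoothProjective Y ∧ ∀ r j, Induced φ (H K r j X) (h r j Y)

variable (D : Theory E)

/-- **The Grothendieck–Serre conjecture** for the representations `H^i(X̄, E)(d-j)`, `i = 2(d-j) + r`, of
all smooth projective schemes over all number fields (all degrees congruent to `r` modulo `2`): they are
semisimple. -/
def Theory.SmoothProj (r : ℤ) : Prop :=
  ∀ (K : Type) [Field K] [NumberField K] (X : Sch K), SmoothProjective X → ∀ j,
    (D.H K r j X).Semisimple

/-- The part of lowest weight of the homology `H_{2j-r}` of all separated schemes of finite type over `ℚ`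
is semisimple. -/
def Theory.All (r : ℤ) : Prop := ∀ X : Sch ℚ, FT True X → ∀ j, (D.h r j X).Semisimple

/-- The same for the cubic hypersurfaces in the projective spaces over `ℚ` and `j ≥ N`. -/
def Theory.Cubics (r : ℤ) (N : ℕ) : Prop :=
  ∀ (n : ℕ) (F : Pol ℚ n), IsCubic F → ∀ j, N ≤ j → (D.h r j (projHyp ℚ F)).Semisimple

/-- The same for the cubic hypersurfaces given by trilinear forms `∑_l z_l f_l(x, y)` in which every `f_l`
is a sum of at most three monomials `x_i y_j`. -/
def Theory.Trilinear (r : ℤ) (N : ℕ) : Prop :=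
  ∀ (n : ℕ) (F : Pol ℚ n), IsTrilinear F → ∀ j, N ≤ j → (D.h r j (projHyp ℚ F)).Semisimple

lemma qclo (r : ℤ) : QClo (K := ℚ) fun j X => (D.h r j X).Semisimple where
  iso hX e j h := (D.iso hX e r j).ss h
  space n j := D.space n r j
  cayley B _ _ _ c f j hW := (D.cayley B c f r j).ss hW
  cone n F hn hF j hV := (D.cone n F hn hF r j).ss hV
  opened i u hX ht j hX' := (D.opened i u hX ht r j).ss hX'
  torus B _ _ _ j h := (D.torus B r j).ss h

theorem main (r : ℤ) (N : ℕ) :
    [D.SmoothProj r, D.All r, D.Cubics r N, D.Trilinear r N].TFAE := by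
  tfae_have 1 → 2 := by
    intro h X hX j
    obtain ⟨Y, hY, hq⟩ := D.cover X hX
    exact (hq r j).ss ((D.rational Y hY r j).ss (h ℚ Y hY j))
  tfae_have 2 → 3 := fun h n F _ j _ => h _ (ft_projHyp ℚ F) j
  tfae_have 3 → 4 := fun h n F hF j hj => h n F hF.hom j hj
  tfae_have 4 → 1 := by
    intro h K _ _ X hX j
    obtain ⟨Y, φ, hY, hq⟩ := D.field K X hX
    obtain ⟨A, _, _, _, e, hA⟩ := D.affine Y hY
    exact (hq r j).ss ((hA r j).ss ((qclo D r).all short_rat N h A (j + e)))
  tfae_finish

end Run7.h798.Tate.Gal
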