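import Pool.Agent.Run7.h798.Tate.Eff

/-!
# Simple abelian varieties attached to Hilbert newforms and cubic hypersurfaces over `ℚ`
-/

set_option autoImplicit false

open CategoryTheory AlgebraicGeometry Pool.Agent.Y116.UV Pool.Agent.Q193.LT
  Pool.Agent.Q282.UK Pool.Agent.Q282.UZ Run7.h798.UV Run7.h798.Tate.Gal Run7.h798.Tate.Eff

namespace Run7.h798.Tate.HM

variable {E : Type} [Field E]

/-- **Hilbert newforms of parallel weight two.** For a totally real field `F`:

* `Form F` is the set of the newforms `f` over `F` of parallel weight `2` with trivial central character (all
  levels); `covered F f` means that `[F:ℚ]` is even and that the exponent of every prime in the level of `f` is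
  even;
* `rho f` is the two-dimensional representation of `Gal(F̄/F)` over `E` (an algebraic closure of `ℚ_l`) which is
  attached to `f` (Carayol, Wiles, Taylor, Blasius–Rogawski), normalised to occur in cohomology in degree one;
* `attached F f`: some simple abelian variety `A` over `F` has `L(A, s) = Λ_f(s)`;
* `criterion` (known): such an abelian variety exists if and only if `rho f` is a subquotient of
  `H^1(X̄, E)` for a proper smooth scheme `X` over `F`. (If `A_f` exists then `rho f` is a direct factor of
  `H^1(A_f)`. Conversely `H^1(X̄)` is the `H^1` of the Picard variety; by Faltings `rho f` comes from a simple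
  abelian variety whose endomorphism algebra has centre `M_f` and is equal to `M_f` because of the real
  places, and the Euler factors at all primes agree by the compatibility of the local and the global
  correspondence.) -/
structure Newforms (D : Eff.Theory E) where
  /-- the newforms over `F` -/
  Form : ∀ (F : Type) [Field F] [NumberField F], Type
  /-- `F` is totally real of even degree and all exponents of the level are even -/
  covered : ∀ (F : Type) [Field F] [NumberField F], Form F → Prop
  /-- the Galois representation -/
  rho : ∀ (F : Type) [Field F] [NumberField F], Form F → GRep E (AbsGal F)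
  /-- the simple abelian variety `A_f` exists -/
  attached : ∀ (F : Type) [Field F] [NumberField F], Form F → Prop
  criterion : ∀ (F : Type) [Field F] [NumberField F] (f : Form F),
    attached F f ↔ D.Origin F 1 (rho F f)

variable {D : Eff.Theory E} (A : Newforms D)

/-- **Q1**: all newforms `f` in question have a simple abelian variety `A_f`. -/
def AllAttached : Prop :=
  ∀ (F : Type) [Field F] [NumberField F] (f : A.Form F), A.covered F f → A.attached F f

/-- Every `rho f` is a subquotient of the restriction to `Gal(F̄/F)` of
`Gr^W_{1-2j} N_j H_{2j-1}(C̄, E)(-j)`, for some `j ≥ N` and a cubic hypersurface `C` over `ℚ` given by a trilinear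
form `∑_l z_l f_l(x, y)` in which every `f_l` is a sum of at most three monomials `x_i y_j`. -/
def AllCubic (N : ℕ) : Prop :=
  ∀ (F : Type) [Field F] [NumberField F] (f : A.Form F), A.covered F f → D.Cubic N F 1 (A.rho F f)

theorem attached_iff (N : ℕ) (F : Type) [Field F] [NumberField F] (f : A.Form F) :
    A.attached F f ↔ D.Cubic N F 1 (A.rho F f) :=
  (A.criterion F f).trans (origin_iff D N F 1 (A.rho F f))

theorem all_iff (N : ℕ) : AllAttached A ↔ AllCubic A N := by
  constructor
  · intro h F _ _ f hf
    exact (attached_iff A N F f).mp (h F f hf)
  · intro h F _ _ f hf
    exact (attached_iff A N F f).mpr (h F f hf)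

end Run7.h798.Tate.HM
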