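import Mathlib.Algebra.FreeAlgebra
import Mathlib.Algebra.Algebra.Subalgebra.Lattice
import Mathlib.Analysis.Complex.Polynomial.Basic
import Mathlib.Algebra.Algebra.Rat

/-!
# The monodromy filtration and mw pure modules
-/

set_option autoImplicit false

open Polynomial

namespace Run7.h798.Tate.MW

variable (E : Type) [Field E] [CharZero E]

/-- The algebra of noncommutative polynomials in `φ` and `N` over `E`: a module over it is a vector space
over `E` with two operators `φ` and `N`. -/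
abbrev Op : Type := FreeAlgebra E (Fin 2)

/-- The operator `φ` (a lift of the geometric Frobenius). -/
abbrev phi : Op E := FreeAlgebra.ι E 0

/-- The operator `N` (the logarithm of the monodromy). -/
abbrev mon : Op E := FreeAlgebra.ι E 1

/-- The algebra of polynomials in `φ` over `E`. -/
abbrev Phi : Subalgebra E (Op E) := Algebra.adjoin E {phi E}

variable (V : Type) [AddCommGroup V] [Module (Op E) V]

/-- `fil` is the monodromy filtration of the operator `N` on `V`: a finite increasing filtration by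
subspaces stable under `φ`, with `N fil_a ⊆ fil_{a-2}`, such that `N^a` induces isomorphisms
`gr_a ≅ gr_{-a}` for all `a ≥ 0`. -/
structure IsMonodromyFiltration (fil : ℤ → AddSubgroup V) : Prop where
  sub : ∀ a, ∀ x ∈ Phi E, ∀ v ∈ fil a, x • v ∈ fil a
  mono : Monotone fil
  bot : ∃ a, fil a = ⊥
  top : ∃ a, fil a = ⊤
  map : ∀ a, ∀ v ∈ fil a, mon E • v ∈ fil (a - 2)
  inj : ∀ a : ℕ, ∀ v ∈ fil a, mon E ^ a • v ∈ fil (-a - 1) → v ∈ fil (a - 1)
  surj : ∀ a : ℕ, ∀ v ∈ fil (-a), ∃ u ∈ fil a, v - mon E ^ a • u ∈ fil (-a - 1)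

/-- The polynomial `f` with rational coefficients is pure of weight `w`: all its complex roots have
absolute value `q^{w/2}`. -/
def PurePoly (q : ℕ) (w : ℤ) (f : ℚ[X]) : Prop :=
  f ≠ 0 ∧ ∀ z : ℂ, aeval z f = 0 → ‖z‖ ^ 2 = (q : ℝ) ^ w

/-- `V` is mw pure of weight `i`: for the monodromy filtration `fil`, the operator `φ` on `gr_a` is pure of
weight `a + i`, that is, every vector of `gr_a` is annihilated by `f(φ)` for a polynomial `f` with rational
coefficients which is pure of weight `a + i`. -/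
def MWPure (q : ℕ) (i : ℤ) : Prop :=
  ∃ fil : ℤ → AddSubgroup V, IsMonodromyFiltration E V fil ∧
    ∀ a, ∀ v ∈ fil a, ∃ f : ℚ[X], PurePoly q (a + i) f ∧ aeval (phi E) f • v ∈ fil (a - 1)

/-- all roots have weight at most `b` -/
def LePoly (q : ℕ) (b : ℤ) (f : ℚ[X]) : Prop :=
  f ≠ 0 ∧ ∀ z : ℂ, aeval z f = 0 → ‖z‖ ^ 2 ≤ (q : ℝ) ^ b

lemma PurePoly.le {q : ℕ} {b : ℤ} {f : ℚ[X]} (h : PurePoly q b f) : LePoly q b f :=
  ⟨h.1, fun z hz => (h.2 z hz).le⟩

lemma LePoly.one (q : ℕ) (b : ℤ) : LePoly q b 1 :=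
  ⟨one_ne_zero, fun z hz => by simp at hz⟩

lemma LePoly.mul {q : ℕ} {b : ℤ} {f g : ℚ[X]} (hf : LePoly q b f) (hg : LePoly q b g) :
    LePoly q b (f * g) := by
  refine ⟨mul_ne_zero hf.1 hg.1, fun z hz => ?_⟩
  rw [map_mul, mul_eq_zero] at hz
  exact hz.elim (hf.2 z) (hg.2 z)

lemma PurePoly.mul {q : ℕ} {b : ℤ} {f g : ℚ[X]} (hf : PurePoly q b f) (hg : PurePoly q b g) :
    PurePoly q b (f * g) := by
  refine ⟨mul_ne_zero hf.1 hg.1, fun z hz => ?_⟩
  rw [map_mul, mul_eq_zero] at hz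
  exact hz.elim (hf.2 z) (hg.2 z)

lemma LePoly.mono {q : ℕ} (hq : 1 < q) {b c : ℤ} (h : b ≤ c) {f : ℚ[X]} (hf : LePoly q b f) :
    LePoly q c f :=
  ⟨hf.1, fun z hz => (hf.2 z hz).trans (zpow_le_zpow_right₀ (by exact_mod_cast hq.le) h)⟩

lemma coprime {q : ℕ} (hq : 1 < q) {b c : ℤ} (h : b < c) {f g : ℚ[X]} (hf : LePoly q b f)
    (hg : PurePoly q c g) : IsCoprime f g := by
  rw [Polynomial.isCoprime_iff_aeval_ne_zero_of_isAlgClosed ℚ ℂ]
  intro z
  by_contra hz
  push Not at hz
  have h1 := hf.2 z hz.1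
  rw [hg.2 z hz.2] at h1
  have h2 : (q : ℝ) ^ b < (q : ℝ) ^ c := zpow_lt_zpow_right₀ (by exact_mod_cast hq) h
  exact absurd h1 (not_le.mpr h2)

variable {E V}

lemma phi_comm {x : Op E} (hx : x ∈ Phi E) (f : ℚ[X]) :
    x * aeval (phi E) f = aeval (phi E) f * x := by
  change Commute x _
  have h1 : Commute x (phi E) := by
    induction hx using Algebra.adjoin_induction with
    | mem y hy => rw [Set.mem_singleton_iff] at hy; subst hy; exact Commute.refl _
    | algebraMap r => exact Algebra.commutes r _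
    | add y z _ _ hy hz => exact hy.add_left hz
    | mul y z _ _ hy hz => exact hy.mul_left hz
  induction f using Polynomial.induction_on' with
  | add p q hp hq => rw [map_add]; exact hp.add_right hq
  | monomial n a =>
    rw [Polynomial.aeval_monomial]
    exact Commute.mul_right (Algebra.commutes a x).symm (h1.pow_right n)

lemma aeval_mem (f : ℚ[X]) : aeval (phi E) f ∈ Phi E := by
  induction f using Polynomial.induction_on' with
  | add p q hp hq => rw [map_add]; exact add_mem hp hq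
  | monomial n a =>
    rw [Polynomial.aeval_monomial]
    have h0 : phi E ∈ Phi E := Algebra.self_mem_adjoin_singleton E (phi E)
    refine Subalgebra.mul_mem _ ?_ (Subalgebra.pow_mem _ h0 n)
    have h : algebraMap ℚ (Op E) = (algebraMap E (Op E)).comp (algebraMap ℚ E) := Subsingleton.elim _ _
    rw [h]
    exact Subalgebra.algebraMap_mem _ _

variable (E V)

/-- the filtration by the weights of `φ` -/
def wfil (q : ℕ) (b : ℤ) : AddSubgroup V where
  carrier := {v | ∃ f : ℚ[X], LePoly q b f ∧ aeval (phi E) f • v = 0}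
  zero_mem' := ⟨1, LePoly.one q b, smul_zero _⟩
  add_mem' := by
    rintro v w ⟨f, hf, hv⟩ ⟨g, hg, hw⟩
    refine ⟨f * g, hf.mul hg, ?_⟩
    rw [smul_add]
    nth_rewrite 1 [mul_comm f g]
    rw [map_mul, map_mul, mul_smul, mul_smul, hv, hw, smul_zero, smul_zero, add_zero]
  neg_mem' := by
    rintro v ⟨f, hf, hv⟩
    exact ⟨f, hf, by rw [smul_neg, hv, neg_zero]⟩

variable {E V}

lemma wfil_sub {q : ℕ} {b : ℤ} {x : Op E} (hx : x ∈ Phi E) {v : V} (hv : v ∈ wfil E V q b) :
    x • v ∈ wfil E V q b := by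
  obtain ⟨f, hf, hv⟩ := hv
  refine ⟨f, hf, ?_⟩
  rw [← mul_smul, ← phi_comm hx, mul_smul, hv, smul_zero]

lemma wfil_mono {q : ℕ} (hq : 1 < q) {b c : ℤ} (h : b ≤ c) : wfil E V q b ≤ wfil E V q c :=
  fun _ ⟨f, hf, hv⟩ => ⟨f, hf.mono hq h, hv⟩

lemma wfil_map {W : Type} [AddCommGroup W] [Module (Op E) W] (g : V →ₗ[Op E] W) {q : ℕ} {b : ℤ} {v : V}
    (hv : v ∈ wfil E V q b) : g v ∈ wfil E W q b := by
  obtain ⟨f, hf, h⟩ := hv
  refine ⟨f, hf, ?_⟩
  rw [← map_smul, h, map_zero]

lemma fil_eq {q : ℕ} (hq : 1 < q) {i : ℤ} {fil : ℤ → AddSubgroup V}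
    (h : IsMonodromyFiltration E V fil)
    (hp : ∀ a, ∀ v ∈ fil a, ∃ f : ℚ[X], PurePoly q (a + i) f ∧ aeval (phi E) f • v ∈ fil (a - 1)) (a : ℤ) :
    fil a = wfil E V q (a + i) := by
  apply le_antisymm
  · obtain ⟨a₀, ha₀⟩ := h.bot
    have h1 : ∀ n : ℕ, ∀ v ∈ fil (a₀ + n), v ∈ wfil E V q (a₀ + n + i) := by
      intro n
      induction n with
      | zero =>
        intro v hv
        have hv : v ∈ fil a₀ := by simpa using hv
        rw [ha₀, AddSubgroup.mem_bot] at hv
        rw [hv]; exact zero_mem _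
      | succ n ih =>
        intro v hv
        obtain ⟨f, hf, hfv⟩ := hp _ v hv
        have h2 : a₀ + ((n + 1 : ℕ) : ℤ) - 1 = a₀ + n := by push_cast; ring
        rw [h2] at hfv
        obtain ⟨g, hg, hgv⟩ := ih _ hfv
        refine ⟨g * f, (hg.mono hq (by push_cast; omega)).mul hf.le, ?_⟩
        rw [map_mul, mul_smul, hgv]
    intro v hv
    by_cases hc : a₀ ≤ a
    · obtain ⟨n, rfl⟩ := Int.le.dest hc
      exact h1 n v hv
    · have : v ∈ fil a₀ := h.mono (by omega) hv
      rw [ha₀, AddSubgroup.mem_bot] at this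
      rw [this]; exact zero_mem _
  · rintro v ⟨f, hf, hv⟩
    obtain ⟨b₀, hb₀⟩ := h.top
    have h1 : ∀ n : ℕ, v ∈ fil (a + n) → v ∈ fil a := by
      intro n
      induction n with
      | zero => intro hv; simpa using hv
      | succ n ih =>
        intro hv'
        apply ih
        obtain ⟨g, hg, hgv⟩ := hp _ v hv'
        have h2 : a + ((n + 1 : ℕ) : ℤ) - 1 = a + n := by push_cast; ring
        rw [h2] at hgv
        obtain ⟨α, β, hαβ⟩ := coprime hq (show a + i < a + ((n + 1 : ℕ) : ℤ) + i by push_cast; omega)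
          hf hg
        have h3 : v = aeval (phi E) β • (aeval (phi E) g • v) := by
          have h4 : (aeval (phi E) (α * f + β * g)) • v = v := by rw [hαβ, map_one, one_smul]
          rw [map_add, map_mul, map_mul, add_smul, mul_smul, mul_smul, hv, smul_zero, zero_add] at h4
          exact h4.symm
        rw [h3]
        exact h.sub _ _ (aeval_mem β) _ hgv
    by_cases hc : a ≤ b₀
    · obtain ⟨n, hn⟩ := Int.le.dest hc
      apply h1 n
      rw [hn, hb₀]; trivial
    · exact h.mono (show b₀ ≤ a by omega) (by rw [hb₀]; trivial)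

/-- mw purity in terms of the weight filtration -/
lemma mwPure_iff {q : ℕ} (hq : 1 < q) {i : ℤ} :
    MWPure E V q i ↔ IsMonodromyFiltration E V (fun a => wfil E V q (a + i)) ∧
      ∀ a, ∀ v ∈ wfil E V q (a + i), ∃ f : ℚ[X], PurePoly q (a + i) f ∧
        aeval (phi E) f • v ∈ wfil E V q (a - 1 + i) := by
  constructor
  · rintro ⟨fil, h, hp⟩
    obtain rfl : fil = fun a => wfil E V q (a + i) := funext fun a => fil_eq hq h hp a
    exact ⟨h, hp⟩
  · rintro ⟨h, hp⟩
    exact ⟨_, h, hp⟩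

/-- mw purity passes to direct factors of direct sums -/
lemma MWPure.mid {q : ℕ} (hq : 1 < q) {i : ℤ} {A C : Type} [AddCommGroup A] [Module (Op E) A]
    [AddCommGroup C] [Module (Op E) C] (u : V →ₗ[Op E] A) (f : A →ₗ[Op E] V) (g : V →ₗ[Op E] C)
    (s : C →ₗ[Op E] V) (huf : ∀ v, f (u v) + s (g v) = v) (hA : MWPure E A q i) (hC : MWPure E C q i) :
    MWPure E V q i := by
  rw [mwPure_iff hq] at hA hC ⊢
  obtain ⟨hA, pA⟩ := hA
  obtain ⟨hC, pC⟩ := hC
  have key : ∀ {b : ℤ} {v : V}, u v ∈ wfil E A q b → g v ∈ wfil E C q b → v ∈ wfil E V q b := by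
    intro b v h1 h2
    rw [← huf v]
    exact add_mem (wfil_map f h1) (wfil_map s h2)
  refine ⟨⟨fun a x hx v hv => wfil_sub hx hv, fun a b h => wfil_mono hq (by omega), ?_, ?_, ?_, ?_, ?_⟩,
    ?_⟩
  · obtain ⟨a, ha⟩ := hA.bot
    obtain ⟨c, hc⟩ := hC.bot
    refine ⟨min a c, ?_⟩
    rw [eq_bot_iff]
    intro v hv
    have h1 := wfil_mono hq (show min a c + i ≤ a + i by omega) (wfil_map u hv)
    have h2 := wfil_mono hq (show min a c + i ≤ c + i by omega) (wfil_map g hv)
    rw [ha, AddSubgroup.mem_bot] at h1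
    rw [hc, AddSubgroup.mem_bot] at h2
    rw [AddSubgroup.mem_bot, ← huf v, h1, h2, map_zero, map_zero, add_zero]
  · obtain ⟨a, ha⟩ := hA.top
    obtain ⟨c, hc⟩ := hC.top
    refine ⟨max a c, ?_⟩
    rw [eq_top_iff]
    intro v _
    refine key ?_ ?_
    · refine wfil_mono hq (show a + i ≤ max a c + i by omega) ?_
      rw [ha]; trivial
    · refine wfil_mono hq (show c + i ≤ max a c + i by omega) ?_
      rw [hc]; trivial
  · intro a v hv
    refine key ?_ ?_
    · rw [map_smul]; exact hA.map a _ (wfil_map u hv)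
    · rw [map_smul]; exact hC.map a _ (wfil_map g hv)
  · intro a v hv h
    refine key ?_ ?_
    · refine hA.inj a _ (wfil_map u hv) ?_
      rw [← map_smul]; exact wfil_map u h
    · refine hC.inj a _ (wfil_map g hv) ?_
      rw [← map_smul]; exact wfil_map g h
  · intro a v hv
    obtain ⟨x, hx, hx'⟩ := hA.surj a _ (wfil_map u hv)
    obtain ⟨y, hy, hy'⟩ := hC.surj a _ (wfil_map g hv)
    refine ⟨f x + s y, add_mem (wfil_map f hx) (wfil_map s hy), ?_⟩
    have h1 : v - mon E ^ a • (f x + s y) = f (u v - mon E ^ a • x) + s (g v - mon E ^ a • y) := by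
      rw [map_sub, map_sub, map_smul, map_smul, smul_add]
      nth_rewrite 1 [← huf v]
      abel
    rw [h1]
    exact add_mem (wfil_map f hx') (wfil_map s hy')
  · intro a v hv
    obtain ⟨x, hx, hx'⟩ := pA a _ (wfil_map u hv)
    obtain ⟨y, hy, hy'⟩ := pC a _ (wfil_map g hv)
    refine ⟨x * y, hx.mul hy, ?_⟩
    refine key ?_ ?_
    · rw [map_smul, mul_comm x y, map_mul, mul_smul]
      exact wfil_sub (aeval_mem y) hx'
    · rw [map_smul, map_mul, mul_smul]
      exact wfil_sub (aeval_mem x) hy'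

end Run7.h798.Tate.MW
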