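import Pool.Agent.Run7.h798.Tate.Core

/-!
# Properties which pass to quotients: one cubic hypersurface for every affine scheme
-/

set_option autoImplicit false

open CategoryTheory AlgebraicGeometry MvPolynomial Pool.Agent.Y116.UV Pool.Agent.Q193.LT
  Pool.Agent.Q282.UK Pool.Agent.Q282.UZ Run7.h798.UV

namespace Run7.h798.Tate

variable {K : Type} [Field K]

/-- closure properties of a family of properties `Q j` of schemes under quotients of the homology -/
structure QClo (Q : ℕ → Sch K → Prop) : Prop extends CubicClo Q where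
  opened : ∀ {Z X U : Sch K} (f : Z ⟶ X) (g : U ⟶ X), FT True X → IsTriple f g → ∀ j, Q j X → Q j U
  torus : ∀ (A : Type) [CommRing A] [Algebra K A] [Algebra.FiniteType K A] (j : ℕ),
    Q (j + 1) (aff K (LaurentPolynomial A)) → Q j (aff K A)

lemma QClo.step {Q : ℕ → Sch K → Prop} (hQ : QClo Q) (hS : ShortPresents K) {N m : ℕ}
    (h : ∀ (a b c : ℕ) (S : Fin c → Finset (Fin a × Fin b)), (∀ l, (S l).card ≤ 3) → ∀ j,
      N ≤ j + m → Q j (sysS K S)) (A : Type) [CommRing A] [Algebra K A] [Algebra.FiniteType K A]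
    (j : ℕ) (hj : N ≤ j + (m + 2)) : Q j (aff K A) := by
  obtain ⟨Z, X, U, f, g, hX, ht, _, ⟨a, b, c, E, hE, hX'⟩, hU, e⟩ := geom hS True A
  have h1 : Q (j + 2) U := hQ.opened f g hX ht _ (hQ.iso (ft_aff True) hX' _ (h a b c E hE _ (by omega)))
  have h2 := hQ.iso hU e _ h1
  have h7 := ft_laurent (R := K) A
  exact hQ.torus A j (hQ.torus _ _ h2)

/-- **Theorem.** A property which passes to quotients is true for all affine schemes of finite type and
all `j` as soon as it is true for the trilinear cubic hypersurfaces and the indices `j ≥ N`. -/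
theorem QClo.all {Q : ℕ → Sch K → Prop} (hQ : QClo Q) (hS : ShortPresents K) (N : ℕ)
    (h : ∀ (n : ℕ) (F : Pol K n), IsTrilinear F → ∀ j, N ≤ j → Q j (projHyp K F)) (A : Type)
    [CommRing A] [Algebra K A] [Algebra.FiniteType K A] (j : ℕ) : Q j (aff K A) := by
  have h1 : ∀ m : ℕ, ∀ (a b c : ℕ) (S : Fin c → Finset (Fin a × Fin b)), (∀ l, (S l).card ≤ 3) →
      ∀ j, N ≤ j + 2 * m → Q j (sysS K S) := by
    intro m
    induction m with
    | zero => intro a b c S hS j hj; exact hQ.toCubicClo.sys N h a b c S hS j (by omega)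
    | succ m ih => intro a b c S _ j hj; exact hQ.step hS ih _ j (by omega)
  exact hQ.step hS (h1 N) A j (by omega)

end Run7.h798.Tate
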