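import Pool.Agent.Run7.h798.Tate.CubicP

/-!
# Smooth projective varieties over finite fields and cubic hypersurfaces over the prime field
-/

set_option autoImplicit false

open CategoryTheory AlgebraicGeometry MvPolynomial Pool.Agent.Y116.UV Pool.Agent.Q193.LT
  Pool.Agent.Q282.UK Pool.Agent.Q282.UZ Run7.h798.UV

universe w

namespace Run7.h798.Tate.CharP

variable {p : ℕ} [Fact p.Prime] {E : Type} [Field E]

/-- The map `q : A → B` is surjective on the generalized eigenspaces for the eigenvalue `1`. -/
def SurjOne {A B : RegMod.{w} E} (q : A ⟶ B) : Prop :=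
  ∀ y ∈ Module.End.maxGenEigenspace B.F.hom (1 : E), ∃ x, q.h.hom x = y

/-- Every separated scheme `X` of finite type over the prime field has a compactification which is
dominated by a smooth projective scheme `Y` (de Jong), and the map `R j Y → R j X` is surjective on the
generalized eigenspaces for the eigenvalue `1` (by weights). -/
def CycleTheory.Covered (D : CycleTheory.{w} p E) : Prop :=
  ∀ X : Sch (ZMod p), FT True X → ∃ Y : Sch (ZMod p), SmoothProjective Y ∧
    ∀ j, ∃ q : D.R j Y ⟶ D.R j X, SurjOne q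

/-- **The Tate conjecture** for all smooth projective varieties over all finite fields of characteristic
`p`, all codimensions. -/
def CycleTheory.TateFinite (D : CycleTheory.{w} p E) : Prop :=
  ∀ (K : Type) [Field K] [CharP K p] [Finite K] (X : Sch K), SmoothProjective X → D.Tate K X

/-- **Semisimplicity** of the eigenvalue `1` of Frobenius on `H^{2i}(X̄, E(i))` for all smooth projective
varieties over the prime field. -/
def CycleTheory.Semisimple (D : CycleTheory.{w} p E) : Prop :=
  ∀ X : Sch (ZMod p), SmoothProjective X → ∀ j,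
    Module.End.maxGenEigenspace (D.R j X).F.hom 1 = Module.End.eigenspace (D.R j X).F.hom (1 : E)

lemma ss_surj {B C : RegMod.{w} E} [FiniteDimensional E B.H] {g : B ⟶ C} (h : SurjOne g)
    (hB : B.TateSS) : C.TateSS := by
  rw [tateSS_iff] at *
  intro y
  change Module.End.maxGenEigenspace C.F.hom (1 : E) at y
  obtain ⟨x, hx⟩ := h y.1 y.2
  obtain ⟨x', hx', hxy⟩ := lift_gen (comm_F g) y.2 x hx
  obtain ⟨b, hb⟩ := hB ⟨x', hx'⟩
  refine ⟨g.m.hom b, ?_⟩
  have h1 : ((rho E).app C).hom (g.m.hom b) = ((genF E).map g).hom (((rho E).app B).hom b) :=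
    congrArg (fun f => f.hom b) ((rho E).naturality g)
  rw [h1, hb]
  exact Subtype.ext hxy

lemma finite_fg (K : Type) [Field K] [CharP K p] [Finite K] : FinGenField p K := by
  let _ := ZMod.algebra K p
  have h : IsNoetherian (ZMod p) K := isNoetherian_of_finite _ _
  exact IntermediateField.fg_of_noetherian ⊤

lemma tateSS_smooth (D : CycleTheory.{w} p E) (hT : D.TateFinite) (hS : D.Semisimple)
    (X : Sch (ZMod p)) (hX : SmoothProjective X) (j : ℕ) : (D.R j X).TateSS := by
  refine ⟨range_of_fixed ?_, hS X hX j⟩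
  obtain ⟨e⟩ := D.fixed X hX.1 j
  intro y
  obtain ⟨a, ha⟩ := hT (ZMod p) X hX j (e.inv.right.hom y)
  refine ⟨e.hom.left.hom a, ?_⟩
  have h1 : (D.R j X).fixed.hom.hom (e.hom.left.hom a) =
      e.hom.right.hom ((D.T (ZMod p) j X).hom.hom a) := congrArg (fun f => f.hom a) e.hom.w
  rw [h1, ha]
  exact congrArg (fun f : (D.R j X).fixed ⟶ (D.R j X).fixed => f.right.hom y) e.inv_hom_id

/-- The Tate conjecture and semisimplicity for smooth projective varieties over the finite fields of
characteristic `p`, the Tate conjecture for all schemes over all finitely generated fields of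
characteristic `p`, and their form for the cubic hypersurfaces over the prime field are equivalent. -/
theorem iff_smooth (D : CycleTheory.{w} p E) (h : D.Geometric) (hc : D.Covered) (N : ℕ) :
    ((D.TateFinite ∧ D.Semisimple) ↔ D.Cubics N) ∧ ((D.TateFinite ∧ D.Semisimple) ↔ D.Trilinear N) ∧
      ((D.TateFinite ∧ D.Semisimple) ↔ D.All) := by
  have h1 : D.TateFinite ∧ D.Semisimple → D.Cubics N := by
    rintro ⟨hT, hS⟩ n F _ j _
    obtain ⟨Y, hY, hq⟩ := hc _ (ft_projHyp (ZMod p) F)
    obtain ⟨q, hq⟩ := hq j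
    have := D.fin Y hY.1 j
    exact ss_surj hq (tateSS_smooth D hT hS Y hY j)
  have h2 := iff_cubics D h N
  have h3 : D.All → D.TateFinite ∧ D.Semisimple := fun h3 =>
    ⟨fun K _ _ _ X hX => h3 K (finite_fg K) X hX.1, fun X hX j => (all_k D h3 X hX.1 j).2⟩
  exact ⟨⟨h1, fun h => h3 (h2.1.mpr h)⟩, ⟨fun h => h2.2.mp (h2.1.mpr (h1 h)),
    fun h => h3 (h2.2.mpr h)⟩, ⟨fun h => h2.1.mpr (h1 h), h3⟩⟩

end Run7.h798.Tate.CharP
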