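import Pool.Agent.Run7.h798.Tate.CubicZero
import Pool.Agent.Run7.h798.Tate.SmoothP

/-!
# The Tate conjecture for smooth varieties and cubic hypersurfaces over the prime fields
-/

set_option autoImplicit false

open CategoryTheory AlgebraicGeometry MvPolynomial Pool.Agent.Y116.UV Pool.Agent.Q193.LT
  Pool.Agent.Q282.UK Pool.Agent.Q282.UZ Run7.h798.UV

universe w

namespace Run7.h798.Tate.CharZero

variable {E : Type} [Field E]

/-- **The Tate conjecture for smooth varieties**: for all finitely generated fields `K` of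
characteristic zero, all smooth separated schemes `X` of finite type over `K` (proper or not) and all `j`
the cycle class map `CH_j(X) ⊗ E → H_{2j}(X̄, E(j))^{G_K}` is surjective; for `X` of dimension `d` the
target is `H^{2i}(X̄, E(i))^{G_K}` with `i = d - j`. -/
def CycleTheory.SmoothVarieties (D : CycleTheory.{w} E) : Prop :=
  ∀ (K : Type) [Field K] [CharZero K], FinGenField K → ∀ X : Sch K, FT True X → Smooth X.hom →
    D.Tate K X

/-- Every separated scheme `X` of finite type over `ℚ` has a compactification which is dominated by a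
smooth projective scheme `Y`, and the map `T j Y → T j X` is surjective on the invariants of homology
(Hironaka; weights and semisimplicity, Jannsen). -/
def CycleTheory.Covered (D : CycleTheory.{w} E) : Prop :=
  ∀ X : Sch ℚ, FT True X → ∃ Y : Sch ℚ, SmoothProjective Y ∧
    ∀ j, ∃ q : D.Q j Y ⟶ D.Q j X, Function.Surjective q.right.hom

theorem smooth_iff (D : CycleTheory.{w} E) (h : D.Geometric) (hc : D.Covered) (N : ℕ) :
    (D.SmoothVarieties ↔ D.Cubics N) ∧ (D.SmoothVarieties ↔ D.Trilinear N) := by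
  have h0 := iff_cubics D h N
  have h1 : D.All → D.SmoothVarieties := fun h K _ _ hK X hX _ => h K hK X hX
  have h2 : D.SmoothVarieties → D.Cubics N := by
    intro hs n F _ j _
    obtain ⟨Y, hY, hq⟩ := hc _ (ft_projHyp ℚ F)
    obtain ⟨q, hq⟩ := hq j
    have h3 : ∀ a : Algebra ℚ ℚ, (⊤ : @IntermediateField ℚ ℚ _ _ a).FG := by
      intro a
      obtain rfl : a = Algebra.id ℚ := Subsingleton.elim _ _
      have h2 : (⊤ : IntermediateField ℚ ℚ) = ⊥ := Subsingleton.elim _ _
      rw [h2]
      exact IntermediateField.fg_bot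
    exact surj_of q hq (hs ℚ (h3 _) Y hY.1 hY.2.1 j)
  exact ⟨⟨h2, fun h3 => h1 (h0.1.mpr h3)⟩,
    ⟨fun h3 => h0.2.mp (h0.1.mpr (h2 h3)), fun h3 => h1 (h0.2.mpr h3)⟩⟩

end Run7.h798.Tate.CharZero

namespace Run7.h798.Tate.CharP

variable {p : ℕ} [Fact p.Prime] {E : Type} [Field E]

/-- **The Tate conjecture for smooth varieties** in characteristic `p`: for all finitely generated
fields `K` of characteristic `p`, all smooth separated schemes `X` of finite type over `K` (proper or
not) and all `j` the cycle class map `CH_j(X) ⊗ E → H_{2j}(X̄, E(j))^{G_K}` is surjective. -/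
def CycleTheory.SmoothVarieties (D : CycleTheory.{w} p E) : Prop :=
  ∀ (K : Type) [Field K] [CharP K p], FinGenField p K → ∀ X : Sch K, FT True X → Smooth X.hom →
    D.Tate K X

lemma smooth_open {k : Type} [Field k] {U X : Sch k} (u : U ⟶ X) [IsOpenImmersion u.left]
    (hX : Smooth X.hom) : Smooth U.hom := by
  rw [← Over.w u]
  infer_instance

lemma prime_fg : FinGenField p (ZMod p) := by
  have h1 : ∀ a : Algebra (ZMod p) (ZMod p),
      (⊤ : @IntermediateField (ZMod p) (ZMod p) _ _ a).FG := by
    intro a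
    have h2 : a = Algebra.id (ZMod p) := Subsingleton.elim _ _
    subst h2
    have h2 : (⊤ : IntermediateField (ZMod p) (ZMod p)) = ⊥ := Subsingleton.elim _ _
    rw [h2]
    exact IntermediateField.fg_bot
  exact h1 _

lemma fixed_at (D : CycleTheory.{w} p E) (X : Sch (ZMod p)) (hX : FT True X)
    (h : D.Tate (ZMod p) X) (j : ℕ) : Function.Surjective (D.R j X).fixed.hom.hom := by
  obtain ⟨e⟩ := D.fixed X hX j
  intro y
  obtain ⟨a, ha⟩ := h j (e.inv.right.hom y)
  refine ⟨e.hom.left.hom a, ?_⟩
  have h1 : (D.R j X).fixed.hom.hom (e.hom.left.hom a) =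
      e.hom.right.hom ((D.T (ZMod p) j X).hom.hom a) := congrArg (fun f => f.hom a) e.hom.w
  rw [h1, ha]
  exact congrArg (fun f : (D.R j X).fixed ⟶ (D.R j X).fixed => f.right.hom y) e.inv_hom_id

/-- the Tate conjecture for the smooth schemes over the prime field implies semisimplicity for them -/
lemma ss_smooth (D : CycleTheory.{w} p E) (h : D.SmoothVarieties) (X : Sch (ZMod p))
    (hX : FT True X) (hs : Smooth X.hom) : D.TateSS X := by
  intro j
  have hT := fixed_at D X hX (h (ZMod p) prime_fg X hX hs) j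
  refine ⟨range_of_fixed hT, (ss_iff _).mpr ?_⟩
  intro x y hx hy
  obtain ⟨a, ha⟩ := (fixed_surj _).mp hT y hy
  obtain ⟨Z, U, i, u, ht, hd, f, g, hfg, z, hz⟩ := D.support X hX j a
  have hZ := ft_closed i hX ht.closed
  have hU := ft_open u hX ht.opened
  have := ht.opened
  have := D.fin _ hZ j
  exact ss_step hfg (fixed_at D U hU (h (ZMod p) prime_fg U hU (smooth_open u hs)) j) (D.top Z hZ j hd)
    hx hy (a := z) (by rw [hz, ha])

theorem smooth_iff (D : CycleTheory.{w} p E) (h : D.Geometric) (hc : D.Covered) (N : ℕ) :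
    (D.SmoothVarieties ↔ D.Cubics N) ∧ (D.SmoothVarieties ↔ D.Trilinear N) := by
  have h0 := iff_cubics D h N
  have h1 : D.All → D.SmoothVarieties := fun h K _ _ hK X hX _ => h K hK X hX
  have h2 : D.SmoothVarieties → D.Cubics N := by
    intro hs n F _ j _
    obtain ⟨Y, hY, hq⟩ := hc _ (ft_projHyp (ZMod p) F)
    obtain ⟨q, hq⟩ := hq j
    have := D.fin _ hY.1 j
    exact ss_surj hq (ss_smooth D hs Y hY.1 hY.2.1 j)
  exact ⟨⟨h2, fun h3 => h1 (h0.1.mpr h3)⟩,
    ⟨fun h3 => h0.2.mp (h0.1.mpr (h2 h3)), fun h3 => h1 (h0.2.mpr h3)⟩⟩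

end Run7.h798.Tate.CharP
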