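import Pool.Agent.Run7.h798.UV.Geom
import Mathlib.AlgebraicGeometry.ProjectiveSpectrum.Proper
import Mathlib.AlgebraicGeometry.Morphisms.Smooth

/-!
# Smooth projective schemes over a field
-/

set_option autoImplicit false

open CategoryTheory AlgebraicGeometry Pool.Agent.Y116.UV Pool.Agent.Q193.LT Pool.Agent.Q282.UK
  Pool.Agent.Q282.UZ Run7.h798.UV

namespace Run7.h798.Tate

variable (K : Type) [Field K]

/-- The polynomial ring in `n + 1` variables. -/
abbrev Pol (n : ℕ) : Type := MvPolynomial (Fin (n + 1)) K

/-- The grading of the polynomial ring by the degree. -/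
noncomputable def grad (n : ℕ) : ℕ → Submodule K (Pol K n) :=
  MvPolynomial.homogeneousSubmodule (Fin (n + 1)) K

/-- the polynomial ring is a graded algebra -/
noncomputable instance gradAlg (n : ℕ) : GradedAlgebra (grad K n) :=
  MvPolynomial.gradedAlgebra (σ := Fin (n + 1)) (R := K)

/-- The scheme `Proj K[x_0, …, x_n]`. -/
noncomputable def projS (n : ℕ) : Scheme := Proj (grad K n)

/-- The isomorphism of `K` with the ring of polynomials of degree `0`. -/
noncomputable def degZero (n : ℕ) : K →+* grad K n 0 := algebraMap K (grad K n 0)

/-- The structure morphism of `Proj K[x_0, …, x_n]`. -/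
noncomputable def projStr (n : ℕ) : projS K n ⟶ Spec (CommRingCat.of K) :=
  Proj.toSpecZero (grad K n) ≫ Spec.map (CommRingCat.ofHom (degZero K n))

/-- The projective space of dimension `n` over a field, as an object of `Sch K`. -/
noncomputable def projSpace (n : ℕ) : Sch K := Over.mk (projStr K n)

variable {K}

/-- `X` is a smooth projective scheme over `K`: it is separated of finite type, smooth, and there is a
closed immersion of `X` into a projective space over `K`. -/
def SmoothProjective (X : Sch K) : Prop :=
  FT True X ∧ Smooth X.hom ∧ ∃ (n : ℕ) (i : X ⟶ projSpace K n), IsClosedImmersion i.left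

end Run7.h798.Tate
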