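import Pool.Agent.Run7.h798.Tate.MW
import Pool.Agent.Run7.h798.Tate.Core
import Pool.Agent.Run7.h798.UV.Rat
import Mathlib.Algebra.Category.ModuleCat.Abelian
import Mathlib.Algebra.Homology.ShortComplex.Exact
import Mathlib.CategoryTheory.Abelian.Exact
import Mathlib.NumberTheory.Padics.PadicNumbers

/-!
# The weight-monodromy conjecture and cubic hypersurfaces over `ℚ`
-/

set_option autoImplicit false

open CategoryTheory AlgebraicGeometry MvPolynomial Pool.Agent.Y116.UV Pool.Agent.Q193.LT
  Pool.Agent.Q282.UK Pool.Agent.Q282.UZ Run7.h798.UV Run7.h798.Tate.MW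

universe v u

namespace Run7.h798.Tate.WM

variable {M : Type u} [Category.{v} M]

/-- `A` is a direct factor of `B`. -/
def Factor (A B : M) : Prop := ∃ (s : A ⟶ B) (r : B ⟶ A), s ≫ r = 𝟙 A

variable [Abelian M]

/-- The sequence `A → B → C → 0` is exact. -/
def RightExact {A B C : M} (f : A ⟶ B) (g : B ⟶ C) : Prop :=
  Epi g ∧ ∃ w : f ≫ g = 0, (ShortComplex.mk f g w).Exact

/-- **The motives of weight `r` of the schemes over `ℚ`**, in a semisimple abelian category `M` (motives
for absolute Hodge cycles). The object `h r j X` is the part of lowest weight `r - 2j` of `H_{2j-r}(X)`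
(homology with closed supports), twisted by `-j`: a motive of weight `r`; for `X` smooth projective of
dimension `d` it is `H^i(X)(d-j)` with `i = 2(d-j) + r`. Known properties:

* `semisimple`: every epimorphism of `M` splits;
* `iso`: isomorphic schemes have isomorphic motives;
* `exact`: localization sequences for closed subschemes (by weights);
* `torus`: for affine `X` the motive `h r j X` is a direct factor of `h r (j+1) (X × 𝔾_m)`;
* `cayley`: for elements `f_1, …, f_c` of a finitely generated algebra `B` the motive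
  `h r j (Spec B/(f_1, …, f_c))` is a direct factor of `h r (j+c) (Spec B[z_1, …, z_c]/(∑ f_l z_l))`;
* `cone`: for a cubic form in at least two variables there is an epimorphism from the motive `h r j V` of
  the projective hypersurface to the motive `h r (j+1) C` of the affine cone;
* `cover`: every `X` has a compactification which is dominated by a smooth projective scheme `Y`, and
  `h r j Y → h r j X` is an epimorphism. -/
structure Theory (M : Type u) [Category.{v} M] [Abelian M] where
  /-- the motive of weight `r` with index `j` of a scheme over `ℚ` -/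
  h : ℤ → ℕ → Sch ℚ → M
  semisimple : ∀ {A B : M} (q : A ⟶ B), Epi q → ∃ s : B ⟶ A, s ≫ q = 𝟙 B
  iso : ∀ {X Y : Sch ℚ}, FT True X → Nonempty (X ≅ Y) → ∀ r j, Nonempty (h r j X ≅ h r j Y)
  exact : ∀ {Z X U : Sch ℚ} (i : Z ⟶ X) (u : U ⟶ X), FT True X → IsTriple i u →
    ∀ r j, ∃ (f : h r j Z ⟶ h r j X) (g : h r j X ⟶ h r j U), RightExact f g
  torus : ∀ (B : Type) [CommRing B] [Algebra ℚ B] [Algebra.FiniteType ℚ B] (r : ℤ) (j : ℕ),
    Factor (h r j (aff ℚ B)) (h r (j + 1) (aff ℚ (LaurentPolynomial B)))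
  cayley : ∀ (B : Type) [CommRing B] [Algebra ℚ B] [Algebra.FiniteType ℚ B] (c : ℕ) (f : Fin c → B)
    (r : ℤ) (j : ℕ), Factor (h r j (zeroS ℚ B f)) (h r (j + c) (cayS ℚ B f))
  cone : ∀ (n : ℕ) (F : Pol ℚ n), 1 ≤ n → IsCubic F → ∀ r j,
    ∃ q : h r j (projHyp ℚ F) ⟶ h r (j + 1) (affCone ℚ F), Epi q
  cover : ∀ X : Sch ℚ, FT True X → ∃ Y : Sch ℚ, SmoothProjective Y ∧
    ∀ r j, ∃ q : h r j Y ⟶ h r j X, Epi q

/-- **The `ℓ`-adic representations at the prime `p`**: vector spaces over `E` (the field `ℚ_ℓ`) with a lift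
`φ` of the geometric Frobenius and the logarithm `N` of the monodromy, that is, modules over `Op E`.

* `H` is the restriction of the `ℓ`-adic realization of motives over `ℚ` to `Gal(ℚ̄_p/ℚ_p)`;
* `W r j X` is the representation for a scheme `X` over `ℚ_p` which corresponds to `h r j`; for `X` smooth
  projective of dimension `d` it is `H^i(X_{ℚ̄_p}, E)(d-j)` with `i = 2(d-j) + r`.

Known properties:

* `space`: the representation for an affine space over `ℚ` is mw pure;
* `base`: for a smooth projective scheme over `ℚ` the realization of `h r j Y` is (a direct factor of) the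
  representation for `Y` over `ℚ_p`;
* `approx`: for a smooth projective scheme `X` over `ℚ_p` there is a smooth projective scheme `Y` over `ℚ`
  such that the representation for `X` is a direct factor of the realization for `Y` (local constancy of
  the representations in families; `Y` is a scheme over a number field `F ⊂ ℚ_p`, regarded over `ℚ`). -/
structure Local (p : ℕ) [Fact p.Prime] (E : Type) [Field E] [CharZero E] (D : Theory M) where
  /-- the realization of motives -/
  H : M ⥤ ModuleCat.{0} (Op E)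
  /-- the representation for a scheme over `ℚ_p` -/
  W : ℤ → ℕ → Sch ℚ_[p] → ModuleCat.{0} (Op E)
  additive : H.Additive
  space : ∀ (n : ℕ) (r : ℤ) (j : ℕ), MWPure E (H.obj (D.h r j (affSpace ℚ n))) p r
  base : ∀ Y : Sch ℚ, SmoothProjective Y → ∃ X : Sch ℚ_[p], SmoothProjective X ∧
    ∀ r j, Factor (H.obj (D.h r j Y)) (W r j X)
  approx : ∀ X : Sch ℚ_[p], SmoothProjective X → ∃ Y : Sch ℚ, SmoothProjective Y ∧
    ∀ r j, Factor (W r j X) (H.obj (D.h r j Y))

variable {p : ℕ} [Fact p.Prime] {E : Type} [Field E] [CharZero E] {D : Theory M}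

/-- The realization at `p` of the motive `h r j X` of a scheme `X` over `ℚ` is mw pure of weight `r`. -/
def Local.At (L : Local p E D) (r : ℤ) (j : ℕ) (X : Sch ℚ) : Prop :=
  MWPure E (L.H.obj (D.h r j X)) p r

/-- **The weight-monodromy conjecture** for the smooth projective schemes over `ℚ_p` and the cohomology in
the degrees congruent to `r` modulo `2` (all of them, by the twists `H^i(X)(d-j)`). -/
def Local.WeightMonodromy (L : Local p E D) (r : ℤ) : Prop :=
  ∀ X : Sch ℚ_[p], SmoothProjective X → ∀ j, MWPure E (L.W r j X) p r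

/-- The realizations at `p` of the motives `h r j X` are mw pure for all separated schemes `X` of finite
type over `ℚ`. -/
def Local.All (L : Local p E D) (r : ℤ) : Prop := ∀ X : Sch ℚ, FT True X → ∀ j, L.At r j X

/-- The same for the cubic hypersurfaces in the projective spaces over `ℚ` and `j ≥ N`. -/
def Local.Cubics (L : Local p E D) (r : ℤ) (N : ℕ) : Prop :=
  ∀ (n : ℕ) (F : Pol ℚ n), IsCubic F → ∀ j, N ≤ j → L.At r j (projHyp ℚ F)

/-- The same for the cubic hypersurfaces given by trilinear forms `∑_l z_l f_l(x, y)` in which every `f_l`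
is a sum of at most three monomials `x_i y_j`. -/
def Local.Trilinear (L : Local p E D) (r : ℤ) (N : ℕ) : Prop :=
  ∀ (n : ℕ) (F : Pol ℚ n), IsTrilinear F → ∀ j, N ≤ j → L.At r j (projHyp ℚ F)

lemma mw_factor {r : ℤ} {A B : ModuleCat.{0} (Op E)} (h : Factor A B) (hB : MWPure E B p r) :
    MWPure E A p r := by
  obtain ⟨s, t, h⟩ := h
  have hp : 1 < p := (Fact.out : p.Prime).one_lt
  refine MWPure.mid hp s.hom t.hom (0 : A →ₗ[Op E] B) 0 (fun v => ?_) hB hB
  have h1 : t.hom (s.hom v) = v := congrArg (fun f : A ⟶ A => f.hom v) h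
  rw [h1, LinearMap.zero_apply, add_zero]

lemma factor_map (H : M ⥤ ModuleCat.{0} (Op E)) {A B : M} (h : Factor A B) :
    Factor (H.obj A) (H.obj B) := by
  obtain ⟨s, r, h⟩ := h
  exact ⟨H.map s, H.map r, by rw [← H.map_comp, h, H.map_id]⟩

lemma factor_epi (D : Theory M) {A B : M} {q : A ⟶ B} (hq : Epi q) : Factor B A := by
  obtain ⟨s, hs⟩ := D.semisimple q hq
  exact ⟨s, q, hs⟩

lemma mw_mid (L : Local p E D) {r : ℤ} {A B C : M} {f : A ⟶ B} {g : B ⟶ C} (h : RightExact f g)
    (hA : MWPure E (L.H.obj A) p r) (hC : MWPure E (L.H.obj C) p r) : MWPure E (L.H.obj B) p r := by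
  obtain ⟨hg, w, hex⟩ := h
  obtain ⟨s, hsg⟩ := D.semisimple g hg
  have h1 : Epi (Limits.kernel.lift g f w) := (ShortComplex.exact_iff_epi_kernel_lift _).mp hex
  obtain ⟨u₀, hu₀⟩ := D.semisimple _ h1
  have hd : (𝟙 B - g ≫ s) ≫ g = 0 := by
    rw [Preadditive.sub_comp, Category.id_comp, Category.assoc, hsg, Category.comp_id, sub_self]
  let u : B ⟶ A := Limits.kernel.lift g (𝟙 B - g ≫ s) hd ≫ u₀
  have hu : u ≫ f + g ≫ s = 𝟙 B := by
    have h2 : u ≫ f = 𝟙 B - g ≫ s := by
      have h3 : f = Limits.kernel.lift g f w ≫ Limits.kernel.ι g :=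
        (Limits.kernel.lift_ι _ _ _).symm
      conv_lhs => rw [h3]
      simp only [u, Category.assoc]
      rw [← Category.assoc u₀, hu₀, Category.id_comp, Limits.kernel.lift_ι]
    rw [h2, sub_add_cancel]
  have hH := L.additive
  have h4 : L.H.map u ≫ L.H.map f + L.H.map g ≫ L.H.map s = 𝟙 (L.H.obj B) := by
    rw [← L.H.map_comp, ← L.H.map_comp, ← L.H.map_add, hu, L.H.map_id]
  refine MWPure.mid (Fact.out : p.Prime).one_lt (L.H.map u).hom (L.H.map f).hom (L.H.map g).hom
    (L.H.map s).hom (fun v => ?_) hA hC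
  exact congrArg (fun f : L.H.obj B ⟶ L.H.obj B => f.hom v) h4

lemma homClo (L : Local p E D) (r : ℤ) : HomClo (K := ℚ) fun j X => L.At r j X where
  iso hX e j h := by
    obtain ⟨e⟩ := D.iso hX e r j
    exact mw_factor (factor_map L.H ⟨e.inv, e.hom, e.inv_hom_id⟩) h
  space n j := L.space n r j
  cayley B _ _ _ c f j hW := mw_factor (factor_map L.H (D.cayley B c f r j)) hW
  cone n F hn hF j hV := by
    obtain ⟨q, hq⟩ := D.cone n F hn hF r j
    exact mw_factor (factor_map L.H (factor_epi D hq)) hV
  total i u hX ht j hZ hU := by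
    obtain ⟨f, g, h⟩ := D.exact i u hX ht r j
    exact mw_mid L h hZ hU
  opened i u hX ht j hX' := by
    obtain ⟨f, g, h⟩ := D.exact i u hX ht r j
    exact mw_factor (factor_map L.H (factor_epi D h.1)) hX'
  torus B _ _ _ j h := mw_factor (factor_map L.H (D.torus B r j)) h

theorem main (L : Local p E D) (r : ℤ) (N : ℕ) :
    [L.WeightMonodromy r, L.All r, L.Cubics r N, L.Trilinear r N].TFAE := by
  tfae_have 1 → 2 := by
    intro h X hX j
    obtain ⟨Y, hY, hq⟩ := D.cover X hX
    obtain ⟨q, hq⟩ := hq r j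
    obtain ⟨Z, hZ, hf⟩ := L.base Y hY
    exact mw_factor (factor_map L.H (factor_epi D hq)) (mw_factor (hf r j) (h Z hZ j))
  tfae_have 2 → 3 := fun h n F _ j _ => h _ (ft_projHyp ℚ F) j
  tfae_have 3 → 4 := fun h n F hF j hj => h n F hF.hom j hj
  tfae_have 4 → 2 := fun h X hX j => (homClo L r).all short_rat N h X hX j
  tfae_have 2 → 1 := by
    intro h X hX j
    obtain ⟨Y, hY, hf⟩ := L.approx X hX
    exact mw_factor (hf r j) (h Y hY.1 j)
  tfae_finish

end Run7.h798.Tate.WM
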